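import Pool.Agent.Lib.MP_1ed8ce_co.Defs

/-! Definitions for the proof of the second stability theorem (k at least 3). All counts of edges
are doubled (ordered pairs). -/

namespace Pool.Agent.Lib.MP_1ed8ce_co.SS

open Finset
open scoped Classical

variable {V : Type} [Fintype V] [DecidableEq V]

/-- Neighbours of `v` inside `U`. -/
noncomputable def nb (G : SimpleGraph V) (U : Finset V) (v : V) : Finset V :=
  U.filter fun w => G.Adj v w

noncomputable def deg (G : SimpleGraph V) (U : Finset V) (v : V) : ℕ := (nb G U v).card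

/-- Twice the number of edges inside `U`. -/
noncomputable def E2 (G : SimpleGraph V) (U : Finset V) : ℕ := ∑ v ∈ U, deg G U v

/-- The monochromatic edges of a colouring. -/
def mono (G : SimpleGraph V) (c : V → Bool) : SimpleGraph V where
  Adj v w := G.Adj v w ∧ c v = c w
  symm := ⟨fun _ _ h => ⟨h.1.symm, h.2.symm⟩⟩
  loopless := ⟨fun _ h => h.1.ne rfl⟩

/-- Twice the number of monochromatic edges inside `U`. -/
noncomputable def M2 (G : SimpleGraph V) (U : Finset V) (c : V → Bool) : ℕ := E2 (mono G c) U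

/-- Twice `gamma2` of the graph induced on `U`. -/
noncomputable def gm (G : SimpleGraph V) (U : Finset V) : ℕ := sInf (Set.range (M2 G U))

/-- `gamma2` of the complete graph on `m` vertices. -/
def g (m : ℕ) : ℕ := (m - 1) ^ 2 / 4

/-- `f 0, ..., f (n-1)` is a path on `n` vertices inside `U`. -/
def Pth (G : SimpleGraph V) (U : Finset V) (f : ℕ → V) (n : ℕ) : Prop :=
  (∀ i, i < n → f i ∈ U) ∧ (∀ i j, i < n → j < n → f i = f j → i = j) ∧
    ∀ i, i + 1 < n → G.Adj (f i) (f (i + 1))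

/-- `f 0, ..., f (n-1)` is a cycle of length `n` inside `U`. -/
def CycF (G : SimpleGraph V) (U : Finset V) (f : ℕ → V) (n : ℕ) : Prop :=
  3 ≤ n ∧ Pth G U f n ∧ G.Adj (f (n - 1)) (f 0)

def Cyc (G : SimpleGraph V) (U : Finset V) (n : ℕ) : Prop := ∃ f, CycF G U f n

/-- No cycle longer than `c` inside `U`. -/
def NoLong (G : SimpleGraph V) (U : Finset V) (c : ℕ) : Prop := ∀ n, c < n → ¬ Cyc G U n

/-- A path with `n` EDGES from `u` to `v` inside `U`. -/
def Link (G : SimpleGraph V) (U : Finset V) (u v : V) (n : ℕ) : Prop :=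
  ∃ f, Pth G U f (n + 1) ∧ f 0 = u ∧ f n = v

/-- The vertex set `f 0, ..., f (n-1)`. -/
def img (f : ℕ → V) (n : ℕ) : Finset V := (range n).image f

/-- Every proper nonempty part of `U` has an edge to the rest of `U`. -/
def Conn (G : SimpleGraph V) (U : Finset V) : Prop :=
  ∀ S, S ⊆ U → S.Nonempty → S ≠ U → ∃ a ∈ S, ∃ b ∈ U \ S, G.Adj a b

/-- `U` is two cliques with `a` and `j` vertices that share one vertex. -/
def Two (G : SimpleGraph V) (U : Finset V) (a j : ℕ) : Prop :=
  ∃ (Q₁ Q₂ : Finset V) (s : V), Q₁ ∪ Q₂ = U ∧ Q₁ ∩ Q₂ = {s} ∧ Q₁.card = a ∧ Q₂.card = j ∧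
    G.IsClique (Q₁ : Set V) ∧ G.IsClique (Q₂ : Set V) ∧
    ∀ x ∈ Q₁, ∀ y ∈ Q₂, G.Adj x y → x = s ∨ y = s

/-- Inside `H` two vertices are joined by paths of every length from 2 to `2k` of the right
parity. -/
def Core (G : SimpleGraph V) (k : ℕ) (H : Finset V) (col : V → Bool) : Prop :=
  ∀ u ∈ H, ∀ w ∈ H, u ≠ w → ∀ l, 2 ≤ l → l ≤ 2 * k → (col u = col w ↔ Even l) → Link G H u w l

/-- A path of length `q` and wrong parity between two vertices of `H`, interior outside `H`. -/
def WrL (G : SimpleGraph V) (H : Finset V) (col : V → Bool) (q : ℕ) : Prop :=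
  ∃ (S : Finset V) (u w : V), u ∈ H ∧ w ∈ H ∧ u ≠ w ∧ Link G S u w q ∧
    (∀ x ∈ S, x ∈ H → x = u ∨ x = w) ∧ (col u = col w ↔ Odd q)

/-- A path with nonempty interior outside `H` between two vertices of `H`. -/
def Ear (G : SimpleGraph V) (H : Finset V) : Prop :=
  ∃ (S : Finset V) (u w : V) (q : ℕ), u ∈ H ∧ w ∈ H ∧ u ≠ w ∧ 2 ≤ q ∧ Link G S u w q ∧
    ∀ x ∈ S, x ∈ H → x = u ∨ x = w

/-- `a` sends a vertex outside `H` to the one vertex of `H` its component is attached to. -/
def Att (G : SimpleGraph V) (H : Finset V) (a : V → V) : Prop :=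
  (∀ u, a u ∈ H) ∧ (∀ u, u ∉ H → ∀ h ∈ H, G.Adj u h → a u = h) ∧
    ∀ u v, u ∉ H → v ∉ H → G.Adj u v → a u = a v

/-- `H` contracted to the vertex `z`. -/
def contr (G : SimpleGraph V) (H : Finset V) (z : V) : SimpleGraph V :=
  SimpleGraph.fromRel fun u v => v ∉ H ∧ ((u ∉ H ∧ G.Adj u v) ∨ (u = z ∧ ∃ h ∈ H, G.Adj v h))

/-- `f 0, ..., f p` is a shortest wrong path. -/
structure SW (G : SimpleGraph V) (k : ℕ) (H : Finset V) (col : V → Bool) (f : ℕ → V) (p : ℕ) :
    Prop where
  free : ¬ Cyc G univ (2 * k + 1)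
  pth : Pth G univ f (p + 1)
  h0 : f 0 ∈ H
  hp : f p ∈ H
  hi : ∀ i, 0 < i → i < p → f i ∉ H
  par : col (f 0) = col (f p) ↔ Odd p
  big : 2 * k ≤ p
  min : ∀ q, WrL G H col q → p ≤ q

/-- The parity colour seen from the left end of the path. -/
def pc (col : V → Bool) (f : ℕ → V) (i : ℕ) : Bool := xor (col (f 0)) (decide (i % 2 = 1))

/-- Core and path together. -/
def Bs (H : Finset V) (f : ℕ → V) (p : ℕ) : Finset V := H ∪ img f (p + 1)

/-- The other vertices. -/
def Zs (H : Finset V) (f : ℕ → V) (p : ℕ) : Finset V := univ \ Bs H f p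

/-- Other vertices with two neighbours in the core. -/
noncomputable def Z1 (G : SimpleGraph V) (H : Finset V) (f : ℕ → V) (p : ℕ) : Finset V :=
  (Zs H f p).filter fun w => 2 ≤ deg G H w

/-- Other vertices with at most one neighbour in the core. -/
noncomputable def Z0 (G : SimpleGraph V) (H : Finset V) (f : ℕ → V) (p : ℕ) : Finset V :=
  (Zs H f p).filter fun w => deg G H w ≤ 1

/-- Positions on the path adjacent to `w`. -/
noncomputable def an (G : SimpleGraph V) (f : ℕ → V) (p : ℕ) (w : V) : Finset ℕ :=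
  (range (p + 1)).filter fun i => G.Adj w (f i)

end Pool.Agent.Lib.MP_1ed8ce_co.SS
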