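import Pool.Agent.Lib.MP_1ed8ce_co.SS.Base

namespace Pool.Agent.Lib.MP_1ed8ce_co.SS

open Finset
open scoped Classical

variable {V : Type} [Fintype V] [DecidableEq V] {G : SimpleGraph V}

/-! Paths, cycles and links as functions on the natural numbers. -/

theorem mem_img {f : ℕ → V} {n : ℕ} {x : V} : x ∈ img f n ↔ ∃ i, i < n ∧ f i = x := by
  simp [img]

theorem Pth.mono {U W : Finset V} {f : ℕ → V} {n : ℕ} (h : Pth G U f n) (hU : U ⊆ W) :
    Pth G W f n := by
  exact ⟨fun i hi => hU (h.1 i hi), h.2.1, h.2.2⟩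

theorem Pth.self {U : Finset V} {f : ℕ → V} {n : ℕ} (h : Pth G U f n) : Pth G (img f n) f n := by
  exact ⟨fun i hi => mem_img.2 ⟨i, hi, rfl⟩, h.2.1, h.2.2⟩

theorem Pth.img_sub {U : Finset V} {f : ℕ → V} {n : ℕ} (h : Pth G U f n) : img f n ⊆ U := by
  intro x hx
  obtain ⟨i, hi, rfl⟩ := mem_img.1 hx
  exact h.1 i hi

theorem Pth.card_img {U : Finset V} {f : ℕ → V} {n : ℕ} (h : Pth G U f n) :
    (img f n).card = n := by
  rw [img, card_image_of_injOn, card_range]
  exact fun i hi j hj e => h.2.1 i j (mem_range.1 hi) (mem_range.1 hj) e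

theorem Pth.le_card {U : Finset V} {f : ℕ → V} {n : ℕ} (h : Pth G U f n) : n ≤ U.card := by
  exact h.card_img.symm.le.trans (card_le_card h.img_sub)

theorem Pth.rev {U : Finset V} {f : ℕ → V} {n : ℕ} (h : Pth G U f n) :
    Pth G U (fun i => f (n - 1 - i)) n := by
  refine ⟨fun i hi => h.1 _ (by omega), fun i j hi hj e => ?_, fun i hi => ?_⟩
  · have := h.2.1 _ _ (by omega) (by omega) e
    omega
  · have := h.2.2 (n - 1 - (i + 1)) (by omega)
    rw [show n - 1 - (i + 1) + 1 = n - 1 - i by omega] at this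
    exact this.symm

theorem Pth.seg {U : Finset V} {f : ℕ → V} {n : ℕ} (h : Pth G U f n) {a m : ℕ}
    (ha : a + m ≤ n) : Pth G U (fun i => f (a + i)) m := by
  refine ⟨fun i hi => h.1 _ (by omega), fun i j hi hj e => ?_, fun i hi => h.2.2 (a + i) (by omega)⟩
  have := h.2.1 _ _ (by omega) (by omega) e
  omega

theorem Pth.app {U : Finset V} {f f' : ℕ → V} {n m : ℕ} (h : Pth G U f n) (h' : Pth G U f' m)
    (hd : ∀ i j, i < n → j < m → f i ≠ f' j)
    (ha : 0 < n → 0 < m → G.Adj (f (n - 1)) (f' 0)) :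
    Pth G U (fun i => if i < n then f i else f' (i - n)) (n + m) := by
  refine ⟨fun i hi => ?_, fun i j hi hj e => ?_, fun i hi => ?_⟩
  · dsimp only
    split_ifs with c
    exacts [h.1 i c, h'.1 _ (by omega)]
  · dsimp only at e
    split_ifs at e with c d d
    · exact h.2.1 i j c d e
    · exact absurd e (hd _ _ c (by omega))
    · exact absurd e.symm (hd _ _ d (by omega))
    · have := h'.2.1 _ _ (by omega) (by omega) e
      omega
  · dsimp only
    split_ifs with c d d
    · exact h.2.2 i d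
    · obtain rfl : n = i + 1 := by omega
      simpa using ha (by omega) (by omega)
    · omega
    · rw [show i + 1 - n = i - n + 1 by omega]
      exact h'.2.2 _ (by omega)

theorem Pth.cons {U : Finset V} {f : ℕ → V} {n : ℕ} (h : Pth G U f n) {v : V} (hv : v ∈ U)
    (hn : v ∉ img f n) (ha : 0 < n → G.Adj v (f 0)) :
    Pth G U (fun i => if i = 0 then v else f (i - 1)) (n + 1) := by
  have hd : ∀ i, i < n → f i ≠ v := fun i hi e => hn (mem_img.2 ⟨i, hi, e⟩)
  refine ⟨fun i hi => ?_, fun i j hi hj e => ?_, fun i hi => ?_⟩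
  · dsimp only
    split_ifs with c
    exacts [hv, h.1 _ (by omega)]
  · dsimp only at e
    split_ifs at e with c d d
    · omega
    · exact absurd e.symm (hd _ (by omega))
    · exact absurd e (hd _ (by omega))
    · have := h.2.1 _ _ (by omega) (by omega) e
      omega
  · dsimp only
    rw [if_neg (Nat.succ_ne_zero i), Nat.add_sub_cancel]
    split_ifs with c
    · subst c
      exact ha (by omega)
    · have := h.2.2 (i - 1) (by omega)
      rwa [show i - 1 + 1 = i by omega] at this

/-- Posa rotation at a neighbour `f i` of the first vertex. -/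
theorem Pth.posa {U : Finset V} {f : ℕ → V} {n : ℕ} (h : Pth G U f n) {a : ℕ} (ha : a < n)
    (hadj : G.Adj (f 0) (f a)) : Pth G U (fun i => if i < a then f (a - 1 - i) else f i) n := by
  refine ⟨fun i hi => ?_, fun i j hi hj e => ?_, fun i hi => ?_⟩
  · dsimp only
    split_ifs with c
    exacts [h.1 _ (by omega), h.1 i hi]
  · dsimp only at e
    split_ifs at e with c d d
    all_goals
      have := h.2.1 _ _ (by omega) (by omega) e
      omega
  · dsimp only
    split_ifs with c d d
    · have := h.2.2 (a - 1 - (i + 1)) (by omega)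
      rw [show a - 1 - (i + 1) + 1 = a - 1 - i by omega] at this
      exact this.symm
    · obtain rfl : a = i + 1 := by omega
      simpa using hadj
    · omega
    · exact h.2.2 i hi

theorem exists_longest (G : SimpleGraph V) {U : Finset V} (hU : U.Nonempty) :
    ∃ f n, 1 ≤ n ∧ Pth G U f n ∧ ∀ f' n', Pth G U f' n' → n' ≤ n := by
  obtain ⟨v, hv⟩ := hU
  have h1 : ∃ f, Pth G U f 1 :=
    ⟨fun _ => v, fun _ _ => hv, fun i j hi hj _ => by omega, fun i hi => by omega⟩
  have hc : 1 ≤ U.card := card_pos.2 ⟨v, hv⟩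
  obtain ⟨f, hf⟩ := Nat.findGreatest_spec (P := fun n => ∃ f, Pth G U f n) hc h1
  exact ⟨f, _, Nat.le_findGreatest hc h1, hf,
    fun f' n' h' => Nat.le_findGreatest h'.le_card ⟨f', h'⟩⟩

/-- All neighbours in `U` of the first vertex of a longest path lie on the path. -/
theorem Pth.nb_sub {U : Finset V} {f : ℕ → V} {n : ℕ} (h : Pth G U f n) (hn : 1 ≤ n)
    (hm : ∀ f' n', Pth G U f' n' → n' ≤ n) {w : V} (hw : w ∈ U) (ha : G.Adj (f 0) w) :
    ∃ i, 1 ≤ i ∧ i < n ∧ f i = w := by
  by_cases c : w ∈ img f n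
  · obtain ⟨i, hi, rfl⟩ := mem_img.1 c
    refine ⟨i, Nat.pos_of_ne_zero ?_, hi, rfl⟩
    rintro rfl
    exact ha.ne rfl
  · have := hm _ _ (h.cons hw c fun _ => ha.symm)
    omega

theorem Cyc.mono {U W : Finset V} {n : ℕ} (h : Cyc G U n) (hU : U ⊆ W) : Cyc G W n := by
  obtain ⟨f, h1, h2, h3⟩ := h
  exact ⟨f, h1, h2.mono hU, h3⟩

theorem Cyc.le_card {U : Finset V} {n : ℕ} (h : Cyc G U n) : n ≤ U.card := by
  obtain ⟨f, -, h2, -⟩ := h
  exact h2.le_card

theorem CycF.self {U : Finset V} {f : ℕ → V} {n : ℕ} (h : CycF G U f n) :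
    CycF G (img f n) f n := by
  exact ⟨h.1, h.2.1.self, h.2.2⟩

theorem CycF.adj {U : Finset V} {f : ℕ → V} {n : ℕ} (h : CycF G U f n) {i : ℕ} (hi : i < n) :
    G.Adj (f i) (f ((i + 1) % n)) := by
  rcases Nat.lt_or_ge (i + 1) n with c | c
  · rw [Nat.mod_eq_of_lt c]
    exact h.2.1.2.2 i c
  · obtain rfl : n = i + 1 := by omega
    rw [Nat.mod_self]
    exact h.2.2

theorem CycF.rot {U : Finset V} {f : ℕ → V} {n : ℕ} (h : CycF G U f n) (s : ℕ) :
    CycF G U (fun i => f ((i + s) % n)) n := by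
  have n0 : 0 < n := by have := h.1; omega
  have st : ∀ i, G.Adj (f ((i + s) % n)) (f ((i + 1 + s) % n)) := fun i => by
    have := h.adj (Nat.mod_lt (i + s) n0)
    rwa [Nat.mod_add_mod, show i + s + 1 = i + 1 + s by omega] at this
  refine ⟨h.1, ⟨fun i _ => h.2.1.1 _ (Nat.mod_lt _ n0), fun i j hi hj e => ?_, fun i _ => st i⟩, ?_⟩
  · exact Nat.ModEq.eq_of_lt_of_lt (Nat.ModEq.add_right_cancel' s
      (h.2.1.2.1 _ _ (Nat.mod_lt _ n0) (Nat.mod_lt _ n0) e)) hi hj
  · have := st (n - 1)
    rw [show n - 1 + 1 + s = n + (0 + s) by omega, Nat.add_mod_left] at this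
    exact this

theorem img_rot (f : ℕ → V) (n s : ℕ) : img (fun i => f ((i + s) % n)) n = img f n := by
  rcases Nat.eq_zero_or_pos n with rfl | n0
  · simp [img]
  ext x
  simp only [mem_img]
  constructor
  · rintro ⟨i, -, e⟩
    exact ⟨_, Nat.mod_lt _ n0, e⟩
  · rintro ⟨j, hj, e⟩
    refine ⟨(j + (n - 1) * s) % n, Nat.mod_lt _ n0, ?_⟩
    obtain ⟨k, rfl⟩ : ∃ k, n = k + 1 := ⟨n - 1, by omega⟩
    rw [Nat.mod_add_mod, Nat.add_sub_cancel, show j + k * s + s = j + (k + 1) * s by ring,
      Nat.add_mul_mod_self_left, Nat.mod_eq_of_lt hj, e]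

/-- A longest cycle: if some cycle has length at least `c` there is one with no longer one. -/
theorem exists_longest_cyc {U : Finset V} {c : ℕ} (h : ¬ NoLong G U c) :
    ∃ n f, c < n ∧ CycF G U f n ∧ NoLong G U n := by
  unfold NoLong at h
  push Not at h
  obtain ⟨n, hn, hc⟩ := h
  obtain ⟨f, hf⟩ := Nat.findGreatest_spec (P := Cyc G U) hc.le_card hc
  refine ⟨_, f, hn.trans_le (Nat.le_findGreatest hc.le_card hc), hf, fun m hm h' => ?_⟩
  exact absurd (Nat.le_findGreatest h'.le_card h') (not_le.2 hm)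

theorem NoLong.mono {U W : Finset V} {c : ℕ} (h : NoLong G W c) (hU : U ⊆ W) :
    NoLong G U c := by
  exact fun n hn hc => h n hn (hc.mono hU)

/-- Crossing chords of a path (the argument of Ore). -/
theorem Pth.ore {U : Finset V} {f : ℕ → V} {n : ℕ} (h : Pth G U f n) (hn : 3 ≤ n)
    (hd : n ≤ deg G (img f n) (f 0) + deg G (img f n) (f (n - 1))) : Cyc G U n := by
  have h1 : deg G (img f n) (f 0) ≤ ((range (n - 1)).filter fun i => G.Adj (f 0) (f (i + 1))).card := by
    refine le_trans (card_le_card fun w hw => ?_) (card_image_le (f := fun i => f (i + 1)))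
    obtain ⟨h1, h2⟩ := mem_filter.1 hw
    obtain ⟨j, hj, rfl⟩ := mem_img.1 h1
    rcases j with _ | j
    · exact absurd rfl h2.ne
    · exact mem_image.2 ⟨j, mem_filter.2 ⟨mem_range.2 (by omega), h2⟩, rfl⟩
  have h2 : deg G (img f n) (f (n - 1)) ≤
      ((range (n - 1)).filter fun i => G.Adj (f (n - 1)) (f i)).card := by
    refine le_trans (card_le_card fun w hw => ?_) (card_image_le (f := f))
    obtain ⟨h1, h2⟩ := mem_filter.1 hw
    obtain ⟨j, hj, rfl⟩ := mem_img.1 h1
    refine mem_image.2 ⟨j, mem_filter.2 ⟨mem_range.2 ?_, h2⟩, rfl⟩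
    by_contra c
    exact h2.ne (congrArg f (by omega))
  have h3 : ¬ Disjoint ((range (n - 1)).filter fun i => G.Adj (f 0) (f (i + 1)))
      ((range (n - 1)).filter fun i => G.Adj (f (n - 1)) (f i)) := fun d => by
    have h4 := card_union_of_disjoint d
    have h5 := card_le_card (union_subset (filter_subset (fun i => G.Adj (f 0) (f (i + 1))) _)
      (filter_subset (fun i => G.Adj (f (n - 1)) (f i)) (range (n - 1))))
    rw [card_range] at h5
    omega
  obtain ⟨i, hi, hi'⟩ := not_disjoint_iff.1 h3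
  obtain ⟨h4, h5⟩ := mem_filter.1 hi
  have h6 := mem_range.1 h4
  refine ⟨_, hn, h.posa (show i + 1 < n by omega) h5, ?_⟩
  rw [if_neg (by omega), if_pos (by omega)]
  exact (mem_filter.1 hi').2

theorem Link.mono {U W : Finset V} {u v : V} {n : ℕ} (h : Link G U u v n) (hU : U ⊆ W) :
    Link G W u v n := by
  obtain ⟨f, hf, h0, hn⟩ := h
  exact ⟨f, ⟨fun i hi => hU (hf.1 i hi), hf.2⟩, h0, hn⟩

theorem Link.symm {U : Finset V} {u v : V} {n : ℕ} (h : Link G U u v n) : Link G U v u n := by
  obtain ⟨f, ⟨h1, h2, h3⟩, h0, hn⟩ := h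
  refine ⟨fun i => f (n - i), ⟨fun i hi => h1 _ (by omega), fun i j hi hj e => ?_,
    fun i hi => ?_⟩, by simpa using hn, by simpa using h0⟩
  · have := h2 _ _ (by omega) (by omega) e
    omega
  · have := (h3 (n - (i + 1)) (by omega)).symm
    rwa [show n - (i + 1) + 1 = n - i by omega] at this

theorem Link.left {U : Finset V} {u v : V} {n : ℕ} (h : Link G U u v n) : u ∈ U := by
  obtain ⟨f, hf, h0, -⟩ := h
  exact h0 ▸ hf.1 0 (by omega)

theorem Link.right {U : Finset V} {u v : V} {n : ℕ} (h : Link G U u v n) : v ∈ U := by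
  obtain ⟨f, hf, -, hn⟩ := h
  exact hn ▸ hf.1 n (by omega)

theorem Link.refl {U : Finset V} {u : V} (h : u ∈ U) : Link G U u u 0 := by
  exact ⟨fun _ => u, ⟨fun _ _ => h, fun i j hi hj _ => by omega, fun i hi => by omega⟩, rfl, rfl⟩

theorem Link.edge {u v : V} (h : G.Adj u v) : Link G {u, v} u v 1 := by
  refine ⟨fun i => if i = 0 then u else v, ⟨fun i _ => ?_, fun i j hi hj e => ?_,
    fun i hi => ?_⟩, by simp, by simp⟩
  · by_cases h0 : i = 0 <;> simp [h0]
  · have hne := h.ne
    by_cases h0 : i = 0 <;> by_cases h1 : j = 0 <;> simp only [h0, h1, if_true, if_false] at e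
    · omega
    · exact absurd e hne
    · exact absurd e.symm hne
    · omega
  · obtain rfl : i = 0 := by omega
    simpa using h

theorem Link.trans {S T : Finset V} {u v w : V} {a b : ℕ} (h : Link G S u v a)
    (h' : Link G T v w b) (hd : ∀ x ∈ S, x ∈ T → x = v) : Link G (S ∪ T) u w (a + b) := by
  obtain ⟨f, ⟨f1, f2, f3⟩, f0, fn⟩ := h
  obtain ⟨f', ⟨g1, g2, g3⟩, g0, gn⟩ := h'
  have key : ∀ i j, i < a → j ≤ b → f i ≠ f' j := by
    intro i j hi hj e
    have h1 : f i = v := hd _ (f1 i (by omega)) (e ▸ g1 j (by omega))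
    have := f2 i a (by omega) (by omega) (h1.trans fn.symm)
    omega
  refine ⟨fun i => if i < a then f i else f' (i - a), ⟨fun i hi => ?_, fun i j hi hj e => ?_,
    fun i hi => ?_⟩, ?_, ?_⟩
  · by_cases h1 : i < a
    · simp only [h1, if_true]; exact mem_union_left _ (f1 i (by omega))
    · simp only [h1, if_false]; exact mem_union_right _ (g1 _ (by omega))
  · by_cases h1 : i < a <;> by_cases h2 : j < a <;> simp only [h1, h2, if_true, if_false] at e
    · exact f2 i j (by omega) (by omega) e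
    · exact absurd e (key _ _ h1 (by omega))
    · exact absurd e.symm (key _ _ h2 (by omega))
    · have := g2 _ _ (by omega) (by omega) e
      omega
  · by_cases h1 : i < a <;> by_cases h2 : i + 1 < a <;> simp only [h1, h2, if_true, if_false]
    · exact f3 i (by omega)
    · have e : i + 1 = a := by omega
      have := f3 i (by omega)
      rw [e, fn, ← g0] at this
      rwa [show i + 1 - a = 0 by omega]
    · omega
    · have := g3 (i - a) (by omega)
      rwa [show i - a + 1 = i + 1 - a by omega] at this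
  · by_cases h1 : 0 < a
    · simp only [h1, if_true]; exact f0
    · obtain rfl : a = 0 := by omega
      simp only [lt_irrefl, if_false, Nat.sub_zero]
      rw [g0, ← fn, f0]
  · simp only [show ¬ a + b < a by omega, if_false, Nat.add_sub_cancel_left]
    exact gn

/-- One more edge at the end. -/
theorem Link.snoc {S : Finset V} {u v w : V} {a : ℕ} (h : Link G S u v a) (hw : w ∉ S)
    (ha : G.Adj v w) : Link G (insert w S) u w (a + 1) := by
  have h1 := h.trans (Link.edge ha) (fun x hx hx' => by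
    rcases mem_insert.1 hx' with e | e
    · exact e
    · rw [mem_singleton] at e
      exact absurd (e ▸ hx) hw)
  refine h1.mono ?_
  intro x hx
  rcases mem_union.1 hx with e | e
  · exact mem_insert_of_mem e
  · rcases mem_insert.1 e with e | e
    · exact mem_insert_of_mem (e ▸ h.right)
    · rw [mem_singleton] at e
      exact e ▸ mem_insert_self _ _

theorem Link.cyc {S T : Finset V} {u v : V} {a b : ℕ} (h : Link G S u v a)
    (h' : Link G T v u b) (huv : u ≠ v) (hd : ∀ x ∈ S, x ∈ T → x = u ∨ x = v)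
    (h3 : 3 ≤ a + b) : Cyc G (S ∪ T) (a + b) := by
  obtain ⟨f, ⟨f1, f2, f3⟩, f0, fn⟩ := h
  obtain ⟨f', ⟨g1, g2, g3⟩, g0, gn⟩ := h'
  have ha : 0 < a := Nat.pos_of_ne_zero fun e => huv (by rw [← f0, ← fn, e])
  have hb : 0 < b := Nat.pos_of_ne_zero fun e => huv (by rw [← g0, ← gn, e])
  have key : ∀ i j, i < a → j < b → f i ≠ f' j := by
    intro i j hi hj e
    rcases hd _ (f1 i (by omega)) (e ▸ g1 j (by omega)) with h1 | h1
    · have := g2 j b (by omega) (by omega) (e.symm.trans (h1.trans gn.symm))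
      omega
    · have := f2 i a (by omega) (by omega) (h1.trans fn.symm)
      omega
  refine ⟨fun i => if i < a then f i else f' (i - a), h3, ⟨fun i hi => ?_, fun i j hi hj e => ?_,
    fun i hi => ?_⟩, ?_⟩
  · by_cases h1 : i < a
    · simp only [h1, if_true]; exact mem_union_left _ (f1 i (by omega))
    · simp only [h1, if_false]; exact mem_union_right _ (g1 _ (by omega))
  · by_cases h1 : i < a <;> by_cases h2 : j < a <;> simp only [h1, h2, if_true, if_false] at e
    · exact f2 i j (by omega) (by omega) e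
    · exact absurd e (key _ _ h1 (by omega))
    · exact absurd e.symm (key _ _ h2 (by omega))
    · have := g2 _ _ (by omega) (by omega) e
      omega
  · by_cases h1 : i < a <;> by_cases h2 : i + 1 < a <;> simp only [h1, h2, if_true, if_false]
    · exact f3 i (by omega)
    · have e : i + 1 = a := by omega
      have := f3 i (by omega)
      rw [e, fn, ← g0] at this
      rwa [show i + 1 - a = 0 by omega]
    · omega
    · have := g3 (i - a) (by omega)
      rwa [show i - a + 1 = i + 1 - a by omega] at this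
  · simp only [show ¬ a + b - 1 < a by omega, ha, if_true, if_false]
    have := g3 (b - 1) (by omega)
    rw [show b - 1 + 1 = b by omega, gn, ← f0] at this
    rwa [show a + b - 1 - a = b - 1 by omega]

theorem Link.close {S : Finset V} {u v : V} {a : ℕ} (h : Link G S u v a) (ha : 2 ≤ a)
    (hadj : G.Adj v u) : Cyc G S (a + 1) := by
  obtain ⟨f, hf, f0, fn⟩ := h
  refine ⟨f, by omega, hf, ?_⟩
  rw [Nat.add_sub_cancel, fn, f0]
  exact hadj

theorem Pth.link {U : Finset V} {f : ℕ → V} {n : ℕ} (h : Pth G U f n) {i j : ℕ} (hij : i ≤ j)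
    (hj : j < n) : Link G ((Icc i j).image f) (f i) (f j) (j - i) := by
  obtain ⟨h1, h2, h3⟩ := h
  refine ⟨fun t => f (i + t), ⟨fun t ht => ?_, fun s t hs ht e => ?_, fun t ht => ?_⟩, rfl, ?_⟩
  · exact mem_image_of_mem f (mem_Icc.2 ⟨by omega, by omega⟩)
  · have := h2 _ _ (by omega) (by omega) e
    omega
  · exact h3 (i + t) (by omega)
  · show f (i + (j - i)) = f j
    rw [show i + (j - i) = j by omega]

theorem link_two {U : Finset V} {a b c : V} (ha : a ∈ U) (hb : b ∈ U) (hc : c ∈ U)
    (hab : G.Adj a b) (hbc : G.Adj b c) (hac : a ≠ c) : Link G U a c 2 := by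
  have h1 := (Link.edge hab).snoc (w := c) (by
    simp only [mem_insert, mem_singleton, not_or]
    exact ⟨hac.symm, hbc.ne.symm⟩) hbc
  refine h1.mono ?_
  intro x hx
  simp only [mem_insert, mem_singleton] at hx
  rcases hx with rfl | rfl | rfl <;> assumption

/-- In a clique two vertices are joined by paths of every possible length. -/
theorem clique_link {Q : Finset V} (hQ : G.IsClique (Q : Set V)) {u v : V} (hu : u ∈ Q)
    (hv : v ∈ Q) (huv : u ≠ v) {l : ℕ} (h1 : 1 ≤ l) (hl : l + 1 ≤ Q.card) : Link G Q u v l := by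
  obtain ⟨m, rfl⟩ : ∃ m, l = m + 1 := ⟨l - 1, by omega⟩
  clear h1
  induction m generalizing Q v with
  | zero =>
    refine (Link.edge (hQ hu hv huv)).mono ?_
    intro x hx
    simp only [mem_insert, mem_singleton] at hx
    rcases hx with rfl | rfl <;> assumption
  | succ m ih =>
    have hc : 0 < ((Q.erase v).erase u).card := by
      rw [card_erase_of_mem (mem_erase.2 ⟨huv, hu⟩), card_erase_of_mem hv]
      omega
    obtain ⟨w, hw⟩ := card_pos.1 hc
    obtain ⟨hwu, hw'⟩ := mem_erase.1 hw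
    obtain ⟨hwv, hwQ⟩ := mem_erase.1 hw'
    have h2 := ih (Q := Q.erase v) (hQ.subset (coe_subset.2 (erase_subset _ _)))
      (mem_erase.2 ⟨huv, hu⟩) hw' hwu.symm (by rw [card_erase_of_mem hv]; omega)
    have h3 := h2.snoc (notMem_erase v Q) (hQ hwQ hv hwv)
    rwa [insert_erase hv] at h3

end Pool.Agent.Lib.MP_1ed8ce_co.SS
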