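import Pool.Agent.Lib.MP_1ed8ce_co.SS.Cnt
import Pool.Agent.Lib.MP_1ed8ce_co.SS.Paths

namespace Pool.Agent.Lib.MP_1ed8ce_co.SS

open Finset
open scoped Classical

variable {V : Type} [Fintype V] [DecidableEq V] {G : SimpleGraph V}

theorem bip_split {H : Finset V} {col : V → Bool}
    (hc : ∀ u ∈ H, ∀ w ∈ H, G.Adj u w → col u ≠ col w) :
    E2 G H = 2 * ∑ v ∈ H.filter (fun v => col v = true),
      deg G (H.filter (fun v => ¬ col v = true)) v := by
  have hd : Disjoint (H.filter (fun v => col v = true)) (H.filter (fun v => ¬ col v = true)) :=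
    Finset.disjoint_filter_filter_not H H _
  have h1 := E2_union (G := G) hd
  rw [Finset.filter_union_filter_not_eq] at h1
  have hA : E2 G (H.filter (fun v => col v = true)) = 0 := by
    apply E2_eq_zero
    intro x hx y hy hxy
    rw [Finset.mem_filter] at hx hy
    exact hc x hx.1 y hy.1 hxy (hx.2.trans hy.2.symm)
  have hB : E2 G (H.filter (fun v => ¬ col v = true)) = 0 := by
    apply E2_eq_zero
    intro x hx y hy hxy
    rw [Finset.mem_filter] at hx hy
    apply hc x hx.1 y hy.1 hxy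
    have h2 := hx.2
    have h3 := hy.2
    revert h2 h3
    cases col x <;> cases col y <;> simp
  rw [h1, hA, hB]
  simp

theorem bip_amgm (a b : ℕ) : a * b ≤ (a + b) ^ 2 / 4 := by
  rw [Nat.le_div_iff_mul_le (by norm_num)]
  have h : (0 : ℤ) ≤ ((a : ℤ) - b) ^ 2 := sq_nonneg _
  zify
  nlinarith

theorem bip_sum_le (A B : Finset V) : ∑ v ∈ A, deg G B v ≤ A.card * B.card := by
  have := Finset.sum_le_card_nsmul A (fun v => deg G B v) B.card (fun v _ => deg_le_card B v)
  simpa using this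

theorem bip_E2 {H : Finset V} {col : V → Bool}
    (hc : ∀ u ∈ H, ∀ w ∈ H, G.Adj u w → col u ≠ col w) : E2 G H ≤ 2 * (H.card ^ 2 / 4) := by
  rw [bip_split hc]
  apply Nat.mul_le_mul_left
  refine (bip_sum_le _ _).trans ?_
  have h := Finset.card_filter_add_card_filter_not (s := H) (fun v => col v = true)
  have h2 := bip_amgm (H.filter (fun v => col v = true)).card
    (H.filter (fun v => ¬ col v = true)).card
  rw [h] at h2
  exact h2

theorem bip_sizes {a b : ℕ} (hab : a ≤ b) (h : (a + b) ^ 2 / 4 ≤ a * b) :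
    a = (a + b) / 2 ∧ b = (a + b + 1) / 2 := by
  obtain ⟨d, rfl⟩ := Nat.exists_eq_add_of_le hab
  have hd : d ≤ 1 := by
    by_contra hd
    have h2 : 2 ≤ d := by omega
    have h3 : a * (a + d) + 1 ≤ (a + (a + d)) ^ 2 / 4 := by
      rw [Nat.le_div_iff_mul_le (by norm_num)]
      nlinarith
    omega
  omega

theorem bip_full {A B : Finset V} (h : A.card * B.card ≤ ∑ v ∈ A, deg G B v) :
    ∀ x ∈ A, ∀ y ∈ B, G.Adj x y := by
  intro x hx y hy
  by_contra hn
  have hlt : deg G B x < B.card := by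
    apply Finset.card_lt_card
    refine ⟨Finset.filter_subset _ _, fun hs => hn ?_⟩
    exact (mem_nb.1 (hs hy)).2
  have : ∑ v ∈ A, deg G B v < ∑ _v ∈ A, B.card :=
    Finset.sum_lt_sum (fun v _ => deg_le_card B v) ⟨x, hx, hlt⟩
  rw [Finset.sum_const, smul_eq_mul] at this
  omega

omit [Fintype V] [DecidableEq V] in
theorem bip_pre {A B : Finset V} (hAB : ∀ x ∈ A, ∀ y ∈ B, G.Adj x y) {S : Set V}
    (hS : ∀ x ∈ S, x ∈ A ∨ x ∈ B) {a b : V} (ha : a ∈ A) (hb : b ∈ B) (haS : a ∈ S)
    (hbS : b ∈ S) : (G.induce S).Preconnected := by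
  have key : ∀ x : S, (G.induce S).Reachable x ⟨a, haS⟩ := by
    intro x
    rcases hS x.1 x.2 with hx | hx
    · have h1 : (G.induce S).Adj x ⟨b, hbS⟩ := hAB x.1 hx b hb
      have h2 : (G.induce S).Adj ⟨a, haS⟩ ⟨b, hbS⟩ := hAB a ha b hb
      exact h1.reachable.trans h2.symm.reachable
    · have h1 : (G.induce S).Adj ⟨a, haS⟩ x := hAB a ha x.1 hx
      exact h1.symm.reachable
  intro x y
  exact (key x).trans (key y).symm

omit [Fintype V] in
theorem bip_iso {H A B : Finset V} (hH : ∀ x, x ∈ H ↔ x ∈ A ∨ x ∈ B)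
    (hd : ∀ x ∈ A, x ∉ B) (hAB : ∀ x ∈ A, ∀ y ∈ B, G.Adj x y)
    (hAA : ∀ x ∈ A, ∀ y ∈ A, ¬ G.Adj x y) (hBB : ∀ x ∈ B, ∀ y ∈ B, ¬ G.Adj x y)
    {a b : ℕ} (ha : A.card = a) (hb : B.card = b) (h2a : 2 ≤ a) (h2b : 2 ≤ b) :
    NoCutVertex G (H : Set V) ∧ Nonempty (G.induce (H : Set V) ≃g
      completeBipartiteGraph (Fin a) (Fin b)) := by
  have hoA : ∀ v, ∃ x ∈ A, x ≠ v := fun v => Finset.exists_mem_ne (by omega) v
  have hoB : ∀ v, ∃ x ∈ B, x ≠ v := fun v => Finset.exists_mem_ne (by omega) v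
  obtain ⟨a0, ha0⟩ : A.Nonempty := Finset.card_pos.1 (by omega)
  obtain ⟨b0, hb0⟩ : B.Nonempty := Finset.card_pos.1 (by omega)
  refine ⟨⟨?_, ?_⟩, ?_⟩
  · have : Nonempty (H : Set V) := ⟨⟨a0, (hH a0).2 (Or.inl ha0)⟩⟩
    exact ⟨bip_pre hAB (fun x hx => (hH x).1 hx) ha0 hb0 ((hH a0).2 (Or.inl ha0))
      ((hH b0).2 (Or.inr hb0))⟩
  · intro v _
    obtain ⟨x, hx, hxv⟩ := hoA v
    obtain ⟨y, hy, hyv⟩ := hoB v
    exact bip_pre hAB (fun z hz => (hH z).1 hz.1) hx hy ⟨(hH x).2 (Or.inl hx), hxv⟩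
      ⟨(hH y).2 (Or.inr hy), hyv⟩
  · let eA : A ≃ Fin a := Finset.equivFinOfCardEq ha
    let eB : B ≃ Fin b := Finset.equivFinOfCardEq hb
    let φ : Fin a ⊕ Fin b → (H : Set V) := Sum.elim
      (fun i => ⟨(eA.symm i).1, (hH _).2 (Or.inl (eA.symm i).2)⟩)
      (fun j => ⟨(eB.symm j).1, (hH _).2 (Or.inr (eB.symm j).2)⟩)
    have hinj : Function.Injective φ := by
      rintro (i | i) (j | j) hij
      · have h1 : (eA.symm i).1 = (eA.symm j).1 :=
          congrArg (fun x : (H : Set V) => x.1) hij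
        rw [eA.symm.injective (Subtype.ext h1)]
      · have h1 : (eA.symm i).1 = (eB.symm j).1 :=
          congrArg (fun x : (H : Set V) => x.1) hij
        exact absurd (h1 ▸ (eB.symm j).2) (hd _ (eA.symm i).2)
      · have h1 : (eB.symm i).1 = (eA.symm j).1 :=
          congrArg (fun x : (H : Set V) => x.1) hij
        exact absurd (h1 ▸ (eB.symm i).2) (hd _ (eA.symm j).2)
      · have h1 : (eB.symm i).1 = (eB.symm j).1 :=
          congrArg (fun x : (H : Set V) => x.1) hij
        rw [eB.symm.injective (Subtype.ext h1)]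
    have hsur : Function.Surjective φ := by
      rintro ⟨x, hx⟩
      rcases (hH x).1 hx with h | h
      · refine ⟨Sum.inl (eA ⟨x, h⟩), Subtype.ext ?_⟩
        show (eA.symm (eA ⟨x, h⟩)).1 = x
        rw [Equiv.symm_apply_apply]
      · refine ⟨Sum.inr (eB ⟨x, h⟩), Subtype.ext ?_⟩
        show (eB.symm (eB ⟨x, h⟩)).1 = x
        rw [Equiv.symm_apply_apply]
    refine ⟨SimpleGraph.Iso.symm ⟨Equiv.ofBijective φ ⟨hinj, hsur⟩, ?_⟩⟩
    rintro (i | i) (j | j)
    · refine ⟨fun h => absurd h (hAA _ (eA.symm i).2 _ (eA.symm j).2), fun h => ?_⟩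
      simp at h
    · refine ⟨fun _ => by simp, fun _ => hAB _ (eA.symm i).2 _ (eB.symm j).2⟩
    · refine ⟨fun _ => by simp, fun _ => (hAB _ (eA.symm j).2 _ (eB.symm i).2).symm⟩
    · refine ⟨fun h => absurd h (hBB _ (eB.symm i).2 _ (eB.symm j).2), fun h => ?_⟩
      simp at h

/-- Equality: the colour classes have sizes `h / 2` and `(h+1) / 2` and all cross pairs are
edges. -/
theorem bip_eq {H : Finset V} {col : V → Bool}
    (hc : ∀ u ∈ H, ∀ w ∈ H, G.Adj u w → col u ≠ col w) (h4 : 4 ≤ H.card)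
    (he : 2 * (H.card ^ 2 / 4) ≤ E2 G H) :
    NoCutVertex G (H : Set V) ∧ Nonempty (G.induce (H : Set V) ≃g
      completeBipartiteGraph (Fin (H.card / 2)) (Fin ((H.card + 1) / 2))) := by
  rw [bip_split hc] at he
  have hcard := Finset.card_filter_add_card_filter_not (s := H) (fun v => col v = true)
  have hH : ∀ x, x ∈ H ↔ x ∈ H.filter (fun v => col v = true) ∨
      x ∈ H.filter (fun v => ¬ col v = true) := by
    intro x
    simp only [Finset.mem_filter]
    tauto
  have hd : ∀ x ∈ H.filter (fun v => col v = true), x ∉ H.filter (fun v => ¬ col v = true) := by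
    intro x hx hx'
    exact (Finset.mem_filter.1 hx').2 (Finset.mem_filter.1 hx).2
  have hAA : ∀ x ∈ H.filter (fun v => col v = true), ∀ y ∈ H.filter (fun v => col v = true),
      ¬ G.Adj x y := by
    intro x hx y hy hxy
    rw [Finset.mem_filter] at hx hy
    exact hc x hx.1 y hy.1 hxy (hx.2.trans hy.2.symm)
  have hBB : ∀ x ∈ H.filter (fun v => ¬ col v = true),
      ∀ y ∈ H.filter (fun v => ¬ col v = true), ¬ G.Adj x y := by
    intro x hx y hy hxy
    rw [Finset.mem_filter] at hx hy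
    apply hc x hx.1 y hy.1 hxy
    have h2 := hx.2
    have h3 := hy.2
    revert h2 h3
    cases col x <;> cases col y <;> simp
  generalize H.filter (fun v => col v = true) = A at *
  generalize H.filter (fun v => ¬ col v = true) = B at *
  have h1 := bip_sum_le (G := G) A B
  have h2 := bip_amgm A.card B.card
  rw [hcard] at h2
  have hAB := bip_full (G := G) (A := A) (B := B) (by omega)
  have h3 : (A.card + B.card) ^ 2 / 4 ≤ A.card * B.card := by
    rw [hcard]
    omega
  rcases le_total A.card B.card with hle | hle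
  · have h5 := bip_sizes hle h3
    rw [hcard] at h5
    exact bip_iso hH hd hAB hAA hBB h5.1 h5.2 (by omega) (by omega)
  · rw [add_comm, mul_comm] at h3
    have h5 := bip_sizes hle h3
    rw [add_comm B.card, hcard] at h5
    exact bip_iso (fun x => (hH x).trans or_comm) (fun x hx hx' => hd x hx' hx)
      (fun x hx y hy => (hAB y hy x hx).symm) hBB hAA h5.1 h5.2 (by omega) (by omega)

theorem E2_univ (G : SimpleGraph V) : E2 G univ = 2 * G.edgeSet.ncard := by
  have h1 := G.sum_degrees_eq_twice_card_edges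
  have h2 : G.edgeSet.ncard = G.edgeFinset.card := by
    rw [← SimpleGraph.coe_edgeFinset, Set.ncard_coe_finset]
  rw [h2, ← h1]
  unfold E2
  refine Finset.sum_congr rfl fun v _ => ?_
  unfold deg nb
  rw [← SimpleGraph.card_neighborFinset_eq_degree]
  refine congrArg Finset.card ?_
  ext w
  simp

theorem gamma2_eq (G : SimpleGraph V) : 2 * gamma2 G = gm G univ := by
  have hup : ∀ c : V → Bool, (mono G c).edgeSet.ncard ∈
      {m : ℕ | ∃ F : Finset (Sym2 V), (F : Set (Sym2 V)) ⊆ G.edgeSet ∧ F.card = m ∧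
        (G.deleteEdges (F : Set (Sym2 V))).IsBipartite} := by
    intro c
    refine ⟨(mono G c).edgeFinset, ?_, ?_, ?_⟩
    · rw [SimpleGraph.coe_edgeFinset]
      exact SimpleGraph.edgeSet_mono (fun _ _ h => h.1)
    · rw [← SimpleGraph.coe_edgeFinset, Set.ncard_coe_finset]
    · rw [SimpleGraph.coe_edgeFinset]
      refine ⟨SimpleGraph.Coloring.mk (fun v => if c v = true then 0 else 1) ?_⟩
      intro v w hvw
      rw [SimpleGraph.deleteEdges_adj, SimpleGraph.mem_edgeSet] at hvw
      have hne : c v ≠ c w := fun h => hvw.2 ⟨hvw.1, h⟩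
      revert hne
      cases c v <;> cases c w <;> simp
  apply le_antisymm
  · obtain ⟨c, hc⟩ := exists_gm G univ
    rw [← hc]
    unfold M2
    rw [E2_univ]
    exact Nat.mul_le_mul_left 2 (Nat.sInf_le (hup c))
  · obtain ⟨F, _, hF, ⟨C⟩⟩ := Nat.sInf_mem ⟨_, hup (fun _ => true)⟩
    refine (gm_le univ (fun v => decide (C v = 0))).trans ?_
    unfold M2
    rw [E2_univ]
    apply Nat.mul_le_mul_left
    unfold gamma2
    rw [← hF, ← Set.ncard_coe_finset]
    apply Set.ncard_le_ncard _ (Finset.finite_toSet F)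
    intro e he
    induction e using Sym2.ind with
    | h v w =>
      rw [SimpleGraph.mem_edgeSet] at he
      by_contra hn
      have h1 : (G.deleteEdges (F : Set (Sym2 V))).Adj v w := by
        rw [SimpleGraph.deleteEdges_adj]
        exact ⟨he.1, hn⟩
      have h2 := C.valid h1
      have h3 : decide (C v = 0) = decide (C w = 0) := he.2
      revert h2 h3
      generalize C v = x
      generalize C w = y
      revert x y
      decide

theorem not_cyc {n : ℕ} (h : (SimpleGraph.cycleGraph n).Free G) : ¬ Cyc G univ n := by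
  rintro ⟨f, hf⟩
  apply h
  have key : ∀ u v : Fin n, (u - v).val = 1 → G.Adj (f v.val) (f u.val) := by
    intro u v huv
    have h1 := hf.adj v.2
    have h2 : (v.val + 1) % n = u.val := by
      have h3 := hf.1
      have hu := u.2
      have hv := v.2
      rw [Fin.val_sub] at huv
      rcases lt_or_ge (n - v.val + u.val) n with h4 | h4
      · rw [Nat.mod_eq_of_lt h4] at huv
        have h5 : v.val + 1 = n := by omega
        rw [h5, Nat.mod_self]
        omega
      · rw [Nat.mod_eq_sub_mod h4, Nat.mod_eq_of_lt (by omega)] at huv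
        rw [Nat.mod_eq_of_lt (by omega)]
        omega
    rw [h2] at h1
    exact h1
  refine ⟨⟨⟨fun i => f i.val, ?_⟩, ?_⟩⟩
  · intro u v huv
    rcases SimpleGraph.cycleGraph_adj'.1 huv with h1 | h1
    · exact (key u v h1).symm
    · exact key v u h1
  · intro u v huv
    exact Fin.ext (hf.2.1.2.1 u.val v.val u.2 v.2 huv)

theorem g_eq (b : ℕ) : (b / 2).choose 2 + ((b + 1) / 2).choose 2 = g b := by
  induction b with
  | zero => simp [g]
  | succ b ih =>
    have h1 : (b + 1 + 1) / 2 = b / 2 + 1 := by omega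
    have h2 : (b / 2 + 1).choose 2 = b / 2 + (b / 2).choose 2 := by
      rw [Nat.choose_succ_succ, Nat.choose_one_right]
    rw [g_succ, h1, h2, ← ih]
    omega

end Pool.Agent.Lib.MP_1ed8ce_co.SS
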