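import Pool.Agent.Lib.MP_1ed8ce_co.SS.Cnt
import Pool.Agent.Lib.MP_1ed8ce_co.SS.Paths

namespace Pool.Agent.Lib.MP_1ed8ce_co.SS

open Finset
open scoped Classical

variable {V : Type} [Fintype V] [DecidableEq V] {G : SimpleGraph V}

/-- Every property that passes along the edges inside `S` passes between any two points of `S`. -/
def PCs {V : Type} (G : SimpleGraph V) (S : Set V) : Prop :=
  ∀ P : V → Prop, (∀ a ∈ S, ∀ b ∈ S, G.Adj a b → P a → P b) → ∀ x ∈ S, ∀ y ∈ S, P x → P y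

omit [Fintype V] [DecidableEq V] in
theorem pcs_iff {S : Set V} : (G.induce S).Preconnected ↔ PCs G S := by
  constructor
  · intro h P hP x hx y hy px
    have := (SimpleGraph.reachable_iff_reflTransGen _ _).1 (h ⟨x, hx⟩ ⟨y, hy⟩)
    have key : ∀ z : S, Relation.ReflTransGen (G.induce S).Adj ⟨x, hx⟩ z → P z := by
      intro z hz
      induction hz with
      | refl => exact px
      | tail _ hab ih => exact hP _ (Subtype.prop _) _ (Subtype.prop _) hab ih
    exact key _ this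
  · intro h x y
    obtain ⟨_, hr⟩ := h (fun z => ∃ hz : z ∈ S, (G.induce S).Reachable x ⟨z, hz⟩)
      (fun a _ b hb hab ⟨ha, hr⟩ => ⟨hb, hr.trans (SimpleGraph.Adj.reachable
        (show (G.induce S).Adj ⟨a, ha⟩ ⟨b, hb⟩ from hab))⟩) x x.2 y y.2 ⟨x.2, .refl _⟩
    exact hr

omit [Fintype V] [DecidableEq V] in
theorem PCs.union {S T : Set V} (hS : PCs G S) (hT : PCs G T) {z : V} (zS : z ∈ S) (zT : z ∈ T) :
    PCs G (S ∪ T) := by
  intro P hP x hx y hy px
  have h1 := hS P fun a ha b hb => hP a (.inl ha) b (.inl hb)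
  have h2 := hT P fun a ha b hb => hP a (.inr ha) b (.inr hb)
  have pz : P z := hx.elim (fun h => h1 x h z zS px) fun h => h2 x h z zT px
  exact hy.elim (fun h => h1 z zS y h pz) fun h => h2 z zT y h pz

omit [Fintype V] [DecidableEq V] in
theorem ncv_iff {S : Set V} :
    NoCutVertex G S ↔ S.Nonempty ∧ PCs G S ∧ ∀ v, PCs G (S \ {v}) := by
  rw [NoCutVertex, SimpleGraph.connected_iff, pcs_iff, Set.nonempty_coe_sort]
  simp only [pcs_iff]
  refine ⟨fun ⟨⟨h1, h2⟩, h3⟩ => ⟨h2, h1, fun v => ?_⟩, fun ⟨h1, h2, h3⟩ =>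
    ⟨⟨h2, h1⟩, fun v _ => h3 v⟩⟩
  by_cases hv : v ∈ S
  · exact h3 v hv
  · rwa [Set.sdiff_singleton_eq_self hv]

omit [Fintype V] [DecidableEq V] in
theorem ncv_union {S T : Set V} (hS : NoCutVertex G S) (hT : NoCutVertex G T) {x y : V}
    (hxy : x ≠ y) (xS : x ∈ S) (xT : x ∈ T) (yS : y ∈ S) (yT : y ∈ T) :
    NoCutVertex G (S ∪ T) := by
  rw [ncv_iff] at hS hT ⊢
  refine ⟨⟨x, .inl xS⟩, hS.2.1.union hT.2.1 xS xT, fun v => ?_⟩
  rw [Set.union_sdiff_distrib]
  by_cases h : x = v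
  · have : y ≠ v := fun h' => hxy (h.trans h'.symm)
    exact (hS.2.2 v).union (hT.2.2 v) ⟨yS, this⟩ ⟨yT, this⟩
  · exact (hS.2.2 v).union (hT.2.2 v) ⟨xS, h⟩ ⟨xT, h⟩

omit [Fintype V] [DecidableEq V] in
theorem ncv_split {S A B : Set V} {v : V} (hS : NoCutVertex G S) (vA : v ∈ A) (vB : v ∈ B)
    (hc : ∀ x ∈ S, x ∈ A ∨ x ∈ B) (hi : ∀ x ∈ A, x ∈ B → x = v)
    (hE : ∀ x ∈ S, ∀ y ∈ S, G.Adj x y → (x ∈ A ∧ y ∈ A) ∨ (x ∈ B ∧ y ∈ B)) :
    S ⊆ A ∨ S ⊆ B := by
  by_contra h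
  rw [not_or, Set.not_subset, Set.not_subset] at h
  obtain ⟨⟨y, yS, yA⟩, x, xS, xB⟩ := h
  have := (ncv_iff.1 hS).2.2 v (fun z => z ∉ B) (fun a ha b hb hab pa pb => ?_)
    x ⟨xS, fun h => xB (h ▸ vB)⟩ y ⟨yS, fun h => yA (h ▸ vA)⟩ xB
  · exact (hc y yS).elim yA this
  · rcases hE a ha.1 b hb.1 hab with h | h
    · exact hb.2 (hi b h.2 pb)
    · exact pa h.1

/-- If all edges inside S lie in A or in B and `A ∩ B = {v}`, a set S without cut vertex lies in
A or in B (a walk in `S \ {v}` cannot leave `A \ B`). Apply twice. -/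
theorem blocks3 {A B C : Finset V} {v v' : V} (hAB : A ∩ B = {v}) (hC : (A ∪ B) ∩ C = {v'})
    (hU : A ∪ B ∪ C = univ)
    (hE : ∀ x y, G.Adj x y → (x ∈ A ∧ y ∈ A) ∨ (x ∈ B ∧ y ∈ B) ∨ (x ∈ C ∧ y ∈ C))
    (nA : NoCutVertex G (A : Set V)) (nB : NoCutVertex G (B : Set V))
    (nC : NoCutVertex G (C : Set V)) (cA : 2 ≤ A.card) (cB : 2 ≤ B.card) (cC : 2 ≤ C.card) :
    G.Connected ∧ (A : Set V) ≠ B ∧ (A : Set V) ≠ C ∧ (B : Set V) ≠ C ∧
      ∀ S : Set V, IsBlock G S ↔ S = A ∨ S = B ∨ S = C := by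
  have m1 : ∀ x, (x ∈ A ∧ x ∈ B) ↔ x = v := fun x => by
    rw [← mem_inter, hAB, mem_singleton]
  have m2 : ∀ x, ((x ∈ A ∨ x ∈ B) ∧ x ∈ C) ↔ x = v' := fun x => by
    rw [← mem_union, ← mem_inter, hC, mem_singleton]
  have m3 : ∀ x, (x ∈ A ∨ x ∈ B) ∨ x ∈ C := fun x => by
    rw [← mem_union, ← mem_union, hU]
    exact mem_univ x
  have two : ∀ {D : Finset V}, 2 ≤ D.card → ∀ w, ¬ ∀ x ∈ D, x = w := fun h w hw => by
    have := card_le_card (fun x hx => mem_singleton.2 (hw x hx))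
    rw [card_singleton] at this
    omega
  have nAB : ¬ (A : Set V) ⊆ B := fun h => two cA v fun x hx => (m1 x).1 ⟨hx, h hx⟩
  have nBA : ¬ (B : Set V) ⊆ A := fun h => two cB v fun x hx => (m1 x).1 ⟨h hx, hx⟩
  have nAC : ¬ (A : Set V) ⊆ C := fun h => two cA v' fun x hx => (m2 x).1 ⟨.inl hx, h hx⟩
  have nBC : ¬ (B : Set V) ⊆ C := fun h => two cB v' fun x hx => (m2 x).1 ⟨.inr hx, h hx⟩
  have nCA : ¬ (C : Set V) ⊆ A := fun h => two cC v' fun x hx => (m2 x).1 ⟨.inl (h hx), hx⟩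
  have nCB : ¬ (C : Set V) ⊆ B := fun h => two cC v' fun x hx => (m2 x).1 ⟨.inr (h hx), hx⟩
  have hv := (m1 v).2 rfl
  have hv' := (m2 v').2 rfl
  have sub : ∀ S : Set V, NoCutVertex G S → S ⊆ A ∨ S ⊆ B ∨ S ⊆ C := fun S hS => by
    rcases ncv_split (A := (A : Set V) ∪ B) (B := C) (v := v') hS hv'.1 hv'.2 (fun x _ => m3 x)
      (fun x hx hx' => (m2 x).1 ⟨hx, hx'⟩) (fun x _ y _ h => by
        rcases hE x y h with h | h | h
        · exact .inl ⟨.inl h.1, .inl h.2⟩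
        · exact .inl ⟨.inr h.1, .inr h.2⟩
        · exact .inr h) with h | h
    · refine (ncv_split (A := (A : Set V)) (B := B) (v := v) hS hv.1 hv.2 (fun x hx => h hx)
        (fun x hx hx' => (m1 x).1 ⟨hx, hx'⟩) fun x hx y hy hxy => ?_).imp_right .inl
      rcases hE x y hxy with h' | h' | h'
      · exact .inl h'
      · exact .inr h'
      · exact absurd (((m2 x).1 ⟨h hx, h'.1⟩).trans ((m2 y).1 ⟨h hy, h'.2⟩).symm) hxy.ne
    · exact .inr (.inr h)
  refine ⟨?_, fun h => nAB h.le, fun h => nAC h.le, fun h => nBC h.le, fun S => ⟨fun h => ?_, ?_⟩⟩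
  · have h := (((ncv_iff.1 nA).2.1.union (ncv_iff.1 nB).2.1 hv.1 hv.2).union (ncv_iff.1 nC).2.1
      hv'.1 hv'.2)
    have : Nonempty V := ⟨v⟩
    exact ⟨fun x y => h (fun z => G.Reachable x z) (fun a _ b _ hab ha => ha.trans hab.reachable)
      x (m3 x) y (m3 y) (.refl _)⟩
  · rcases sub S h.1 with h' | h' | h'
    · exact .inl (h'.antisymm (h.2 nA h'))
    · exact .inr (.inl (h'.antisymm (h.2 nB h')))
    · exact .inr (.inr (h'.antisymm (h.2 nC h')))
  · rintro (rfl | rfl | rfl)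
    · refine ⟨nA, fun T hT h => ?_⟩
      rcases sub T hT with h' | h' | h'
      · exact h'
      · exact absurd (h.trans h') nAB
      · exact absurd (h.trans h') nAC
    · refine ⟨nB, fun T hT h => ?_⟩
      rcases sub T hT with h' | h' | h'
      · exact absurd (h.trans h') nBA
      · exact h'
      · exact absurd (h.trans h') nBC
    · refine ⟨nC, fun T hT h => ?_⟩
      rcases sub T hT with h' | h' | h'
      · exact absurd (h.trans h') nCA
      · exact absurd (h.trans h') nCB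
      · exact h'

theorem clique_ncv {Q : Finset V} (h : G.IsClique (Q : Set V)) (hne : Q.Nonempty) :
    NoCutVertex G (Q : Set V) := by
  have key : ∀ S : Set V, S ⊆ Q → PCs G S := fun S hS P hP x hx y hy px => by
    by_cases hxy : x = y
    · exact hxy ▸ px
    · exact hP x hx y hy (h (hS hx) (hS hy) hxy) px
  exact ncv_iff.2 ⟨hne, key _ le_rfl, fun v => key _ Set.sdiff_subset⟩

theorem clique_iso {Q : Finset V} (h : G.IsClique (Q : Set V)) {m : ℕ} (hm : Q.card = m) :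
    Nonempty (G.induce (Q : Set V) ≃g (⊤ : SimpleGraph (Fin m))) := by
  refine ⟨⟨Q.equivFinOfCardEq hm, fun {a b} => ?_⟩⟩
  rw [SimpleGraph.top_adj, (Q.equivFinOfCardEq hm).injective.ne_iff]
  exact ⟨fun hab => h a.2 b.2 fun e => hab (Subtype.ext e), fun hab e => hab.ne e⟩

/-- The two cliques are different blocks, so they share at most one vertex (else their union has
no cut vertex); `gm_super`, `gm_clique`, `gm_mono`. -/
theorem tss_ge {k b n : ℕ} {G : SimpleGraph (Fin n)} (h : IsTss k b n G) :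
    2 * (g (2 * k) + g b) ≤ gm G univ := by
  obtain ⟨-, S₁, S₂, S₃, -, -, h23, hB, -, ⟨e₂⟩, ⟨e₃⟩⟩ := h
  have key : ∀ (S : Set (Fin n)) (m : ℕ), (G.induce S ≃g (⊤ : SimpleGraph (Fin m))) →
      2 * g m ≤ gm G S.toFinset := fun S m e => by
    have hc : S.toFinset.card = m := by
      rw [Set.toFinset_card, Fintype.card_congr e.toEquiv, Fintype.card_fin]
    rw [← hc]
    refine gm_clique fun x hx y hy hxy => ?_
    rw [Set.coe_toFinset] at hx hy
    have : (G.induce S).Adj ⟨x, hx⟩ ⟨y, hy⟩ :=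
      e.map_rel_iff.1 fun h => hxy (congrArg Subtype.val (e.injective h))
    exact this
  have b2 : IsBlock G S₂ := (hB _).2 (.inr (.inl rfl))
  have b3 : IsBlock G S₃ := (hB _).2 (.inr (.inr rfl))
  have h1 : (S₂.toFinset ∩ S₃.toFinset).card ≤ 1 := by
    refine card_le_one.2 fun x hx y hy => ?_
    rw [mem_inter, Set.mem_toFinset, Set.mem_toFinset] at hx hy
    by_contra hxy
    have hu := ncv_union b2.1 b3.1 hxy hx.1 hx.2 hy.1 hy.2
    exact h23 ((Set.subset_union_left.trans (b3.2 hu Set.subset_union_right)).antisymm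
      (Set.subset_union_right.trans (b2.2 hu Set.subset_union_left)))
  have h2 := key _ _ e₂
  have h3 := key _ _ e₃
  have h4 := (gm_super (G := G) h1).trans (gm_mono (subset_univ _))
  omega

end Pool.Agent.Lib.MP_1ed8ce_co.SS
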