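import Pool.Agent.Lib.MP_1ed8ce_co.SS.Cnt
import Pool.Agent.Lib.MP_1ed8ce_co.SS.Paths

namespace Pool.Agent.Lib.MP_1ed8ce_co.SS

open Finset
open scoped Classical

variable {V : Type} [Fintype V] [DecidableEq V] {G : SimpleGraph V}

omit [Fintype V] in
theorem bondy_deg {U : Finset V} {f : ℕ → V} {n : ℕ} (h : Pth G U f n) (v : V) :
    deg G (img f n) v = ((range n).filter fun i => G.Adj v (f i)).card := by
  rw [deg, nb, img, filter_image, card_image_of_injOn]
  intro i hi j hj hij
  simp only [coe_filter, mem_range, Set.mem_ofPred_eq] at hi hj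
  exact h.2.1 i j hi.1 hj.1 hij

omit [Fintype V] in
theorem bondy_sum {U : Finset V} {f : ℕ → V} {n : ℕ} (h : Pth G U f n) (φ : V → ℕ) :
    ∑ v ∈ img f n, φ v = ∑ i ∈ range n, φ (f i) := by
  rw [img, sum_image]
  intro i hi j hj hij
  simp only [coe_range, Set.mem_Iio] at hi hj
  exact h.2.1 i j hi hj hij

omit [Fintype V] [DecidableEq V] in
/-- Two chords that skip one vertex of a cycle. -/
theorem bondy_skip {U : Finset V} {f : ℕ → V} {n d : ℕ} (h : CycF G U f n) (h4 : 4 ≤ n)
    (h1 : 1 ≤ d) (hd : d + 2 ≤ n) (ha : G.Adj (f 0) (f d)) (hb : G.Adj (f 1) (f ((d + 2) % n))) :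
    Cyc G U (n - 1) := by
  obtain ⟨-, ⟨hU, hi, hadj⟩, hcl⟩ := h
  refine ⟨fun i => f (if i < d then i + 1 else if i = d then 0 else n + d - i), by omega,
    ⟨fun i hi' => hU _ (by split_ifs <;> omega), fun i j hi' hj' hij => ?_, fun i hi' => ?_⟩, ?_⟩
  · have := hi _ _ (by split_ifs <;> omega) (by split_ifs <;> omega) hij
    split_ifs at this <;> omega
  · rcases lt_trichotomy (i + 1) d with h2 | h2 | h2
    · simp only [if_pos h2, if_pos (show i < d by omega)]
      exact hadj _ (by omega)
    · simp only [if_pos (show i < d by omega), if_neg (show ¬ i + 1 < d by omega), if_pos h2]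
      rw [h2]
      exact ha.symm
    · simp only [if_neg (show ¬ i < d by omega), if_neg (show ¬ i + 1 < d by omega),
        if_neg (show ¬ i + 1 = d by omega)]
      by_cases h3 : i = d
      · rw [if_pos h3, show n + d - (i + 1) = n - 1 by omega]
        exact hcl.symm
      · rw [if_neg h3, show n + d - i = n + d - (i + 1) + 1 by omega]
        exact (hadj _ (by omega)).symm
  · simp only [if_pos (show 0 < d by omega), if_neg (show ¬ n - 1 - 1 < d by omega), zero_add]
    by_cases h3 : n - 1 - 1 = d
    · rw [if_pos h3]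
      exact hadj 0 (by omega)
    · rw [if_neg h3, show n + d - (n - 1 - 1) = d + 2 by omega]
      rw [Nat.mod_eq_of_lt (by omega)] at hb
      exact hb.symm

/-- Hamilton cycle and no cycle of length `n - 1`. For consecutive `x = f t`, `y = f (t+1)`:
`x` adjacent to position `t + d` and `y` adjacent to position `t + d + 2` (mod n) give a cycle
that skips one vertex. So `deg x + deg y ≤ n`; sum over t. In the case of equality, with
`A t = {d < n | f t adjacent to f (t + d)}`: `d + 1 ∈ A (t+1) ↔ d ∉ A t`, `0 ∉ A t`, so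
`d ∈ A t ↔ d` odd; `n - 1 ∈ A t` makes n even; colour by the parity of the position. -/
theorem bondy_a {U : Finset V} (h : Cyc G U U.card) (h4 : 4 ≤ U.card)
    (hn : ¬ Cyc G U (U.card - 1)) :
    2 * E2 G U ≤ U.card ^ 2 ∧ (2 * E2 G U = U.card ^ 2 → gm G U = 0) := by
  obtain ⟨f, hf⟩ := h
  set n := U.card with hnU
  have hn0 : 0 < n := by omega
  have hUi : img f n = U :=
    eq_of_subset_of_card_le hf.2.1.img_sub (by rw [hf.2.1.card_img])
  let P : ℕ → ℕ → Prop := fun t d => G.Adj (f (t % n)) (f ((d + t) % n))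
  have hdeg : ∀ s v, deg G U v = ((range n).filter fun d => G.Adj v (f ((d + s) % n))).card := by
    intro s v
    rw [← bondy_deg (hf.rot s).2.1 v, img_rot, hUi]
  have h0 : ∀ t, ¬ P t 0 := fun t => by
    simp only [P, zero_add]
    exact G.irrefl
  have hex : ∀ t d, d < n → P t d → ¬ P (t + 1) (d + 1) := by
    intro t d hd h1 h2
    by_cases hd0 : d = 0
    · exact h0 t (hd0 ▸ h1)
    by_cases hd1 : d + 1 = n
    · simp only [P, hd1, Nat.add_mod_left] at h2
      exact G.irrefl h2
    refine hn (bondy_skip (hf.rot t) h4 (d := d) (by omega) (by omega) ?_ ?_)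
    · simpa only [zero_add] using h1
    · simp only [Nat.mod_add_mod]
      simp only [P] at h2
      rw [add_comm 1 t, show d + 2 + t = d + 1 + (t + 1) by omega]
      exact h2
  have hsplit : ∀ t, deg G U (f (t % n)) + deg G U (f ((t + 1) % n)) =
      (((range n).filter fun d => P t d) ∪ (range n).filter fun d => P (t + 1) (d + 1)).card := by
    intro t
    rw [card_union_of_disjoint, hdeg t, hdeg (t + 2)]
    · congr 2
      refine filter_congr fun d _ => ?_
      simp only [P]
      rw [show d + (t + 2) = d + 1 + (t + 1) by omega]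
    · rw [disjoint_filter]
      exact fun d hd => hex t d (mem_range.1 hd)
  have hsub : ∀ t, (((range n).filter fun d => P t d) ∪
      (range n).filter fun d => P (t + 1) (d + 1)) ⊆ range n := fun t =>
    union_subset (filter_subset _ _) (filter_subset _ _)
  have hle : ∀ t, deg G U (f (t % n)) + deg G U (f ((t + 1) % n)) ≤ n := fun t => by
    rw [hsplit]
    exact (card_le_card (hsub t)).trans (card_range n).le
  have hE : 2 * E2 G U = ∑ t ∈ range n, (deg G U (f (t % n)) + deg G U (f ((t + 1) % n))) := by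
    have e1 := bondy_sum (hf.rot 0).2.1 (deg G U)
    have e2 := bondy_sum (hf.rot 1).2.1 (deg G U)
    rw [img_rot, hUi] at e1 e2
    simp only [add_zero] at e1
    rw [sum_add_distrib, ← e1, ← e2, E2, two_mul]
  have hsq : n ^ 2 = ∑ _t ∈ range n, n := by simp [sq]
  refine ⟨by rw [hE, hsq]; exact sum_le_sum fun t _ => hle t, fun he => ?_⟩
  rw [hE, hsq] at he
  have heq := (sum_eq_sum_iff_of_le fun t _ => hle t).1 he
  have hall : ∀ t d, d < n → P t d ∨ P (t + 1) (d + 1) := by
    intro t d hd
    have e1 := heq (t % n) (mem_range.2 (Nat.mod_lt _ hn0))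
    rw [Nat.mod_mod, Nat.mod_add_mod, hsplit] at e1
    have e2 := eq_of_subset_of_card_le (hsub t) (by rw [e1, card_range])
    have e3 := e2.ge (mem_range.2 hd)
    simp only [mem_union, mem_filter] at e3
    exact e3.imp And.right And.right
  have hpar : ∀ d, d < n → ∀ t, (P t d ↔ d % 2 = 1) := by
    intro d
    induction d with
    | zero => exact fun _ t => iff_of_false (h0 t) (by omega)
    | succ d ih =>
      intro hd t
      have e1 : P t (d + 1) ↔ P (t + (n - 1) + 1) (d + 1) := by
        simp only [P]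
        rw [show t + (n - 1) + 1 = t + n by omega, ← add_assoc, Nat.add_mod_right,
          Nat.add_mod_right]
      have e2 := ih (by omega) (t + (n - 1))
      have e3 := hex (t + (n - 1)) d (by omega)
      have e4 := hall (t + (n - 1)) d (by omega)
      rw [e1]
      constructor
      · intro h1
        have : ¬ d % 2 = 1 := fun h2 => e3 (e2.2 h2) h1
        omega
      · intro h1
        exact e4.resolve_left fun h2 => by have := e2.1 h2; omega
  have hodd : ∀ i j, i ≤ j → j < n → G.Adj (f i) (f j) → (j - i) % 2 = 1 := by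
    intro i j hij hj ha
    refine (hpar (j - i) (by omega) i).1 ?_
    simp only [P]
    rwa [Nat.sub_add_cancel hij, Nat.mod_eq_of_lt hj, Nat.mod_eq_of_lt (by omega)]
  let c : V → Bool := fun v => decide (∃ i, i < n ∧ f i = v ∧ i % 2 = 1)
  have hc : ∀ i, i < n → (c (f i) = true ↔ i % 2 = 1) := by
    intro i hi
    simp only [c, decide_eq_true_eq]
    exact ⟨fun ⟨j, hj, e, ho⟩ => hf.2.1.2.1 j i hj hi e ▸ ho, fun ho => ⟨i, hi, rfl, ho⟩⟩
  refine Nat.eq_zero_of_le_zero ((gm_le U c).trans (E2_eq_zero ?_).le)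
  intro x hx y hy hxy
  rw [← hUi] at hx hy
  obtain ⟨i, hi, rfl⟩ := mem_img.1 hx
  obtain ⟨j, hj, rfl⟩ := mem_img.1 hy
  have e1 := hc i hi
  have e2 := hc j hj
  rw [hxy.2, e2] at e1
  rcases le_total i j with hij | hij
  · have := hodd i j hij hj hxy.1
    omega
  · have := hodd j i hij hi hxy.1.symm
    omega

/-- A vertex with more than half of a cycle as neighbours has two neighbours at distance `l - 2`
along the cycle (pigeonhole mod c), which gives a cycle of length `l`. -/
theorem bondy_b {U : Finset V} {f : ℕ → V} {c l : ℕ} (hf : CycF G U f c) {v : V}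
    (hv : v ∈ U \ img f c) (hd : c < 2 * deg G (img f c) v) (h3 : 3 ≤ l) (hl : l ≤ c) :
    Cyc G U l := by
  obtain ⟨hvU, hvf⟩ := mem_sdiff.1 hv
  have e1 := bondy_deg hf.2.1 v
  have e2 := bondy_deg (hf.rot (l - 2)).2.1 v
  rw [img_rot] at e2
  have hnd : ¬ Disjoint ((range c).filter fun i => G.Adj v (f i))
      ((range c).filter fun i => G.Adj v (f ((i + (l - 2)) % c))) := by
    intro hdis
    have e3 := card_le_card (union_subset (filter_subset (fun i => G.Adj v (f i)) (range c))
      (filter_subset (fun i => G.Adj v (f ((i + (l - 2)) % c))) (range c)))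
    rw [card_union_of_disjoint hdis, card_range, ← e1, ← e2] at e3
    omega
  obtain ⟨i, h1, h2⟩ := not_disjoint_iff.1 hnd
  simp only [mem_filter, mem_range] at h1 h2
  have hp := (hf.rot i).2.1.seg (a := 0) (m := l - 1) (by omega)
  have hq := hp.cons hvU (by
    intro hm
    obtain ⟨j, -, hj⟩ := mem_img.1 hm
    exact hvf (mem_img.2 ⟨_, Nat.mod_lt _ (by omega), hj⟩)) (by
    intro _
    simpa only [zero_add, Nat.mod_eq_of_lt h1.1] using h1.2)
  rw [show l - 1 + 1 = l by omega] at hq
  refine ⟨_, h3, hq, ?_⟩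
  simp only [if_neg (show ¬ l - 1 = 0 by omega), if_true, zero_add]
  rw [show l - 1 - 1 + i = i + (l - 2) by omega]
  exact h2.2.symm

/-- Bondy 1971. Induction on `U.card`. `l = n` is impossible. No cycle of length `n - 1`:
`bondy_a`. Else delete the vertex `v` off such a cycle: `2 deg v ≤ n - 1` by `bondy_b`, and
`2 E2 U ≤ (n-1)^2 + 2 (n-1) < n^2`. -/
theorem bondy {l : ℕ} (h3 : 3 ≤ l) {U : Finset V} (h : Cyc G U U.card) (hl : l ≤ U.card)
    (hn : ¬ Cyc G U l) :
    2 * E2 G U ≤ U.card ^ 2 ∧ (2 * E2 G U = U.card ^ 2 → gm G U = 0) := by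
  generalize hm : U.card = n
  induction n generalizing U with
  | zero => omega
  | succ n ih =>
    have hne : l ≠ U.card := fun e => hn (e ▸ h)
    by_cases hc : Cyc G U (U.card - 1)
    · obtain ⟨f, hf⟩ := hc
      rw [hm, Nat.add_sub_cancel] at hf
      have hW := hf.2.1.card_img
      obtain ⟨v, hv⟩ : (U \ img f n).Nonempty := by
        rw [← card_pos, card_sdiff_of_subset hf.2.1.img_sub]
        omega
      obtain ⟨hvU, hvf⟩ := mem_sdiff.1 hv
      have hWe : img f n = U.erase v :=
        eq_of_subset_of_card_le (subset_erase.2 ⟨hf.2.1.img_sub, hvf⟩)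
          (by rw [card_erase_of_mem hvU]; omega)
      have e1 := (ih (U := img f n) (by rw [hW]; exact ⟨f, hf.self⟩) (by omega)
        (fun hc => hn (hc.mono hf.2.1.img_sub)) hW).1
      have e2 : 2 * deg G (img f n) v ≤ n :=
        not_lt.1 fun hd => hn (bondy_b hf hv hd h3 (by omega))
      have e3 := E2_erase (G := G) hvU
      rw [← deg_erase_self, ← hWe] at e3
      have e4 : (n + 1) ^ 2 = n ^ 2 + 2 * n + 1 := by ring
      exact ⟨by omega, fun he => by omega⟩
    · rw [← hm]
      exact bondy_a h (by omega) hc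

end Pool.Agent.Lib.MP_1ed8ce_co.SS
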