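import Pool.Agent.Lib.MP_1ed8ce_co.SS.Base

namespace Pool.Agent.Lib.MP_1ed8ce_co.SS

open Finset
open scoped Classical

variable {V : Type} [Fintype V] [DecidableEq V] {G : SimpleGraph V}

/-! Counting lemmas: degrees, doubled edge counts, doubled gamma2, greedy peeling. -/

theorem mem_nb {U : Finset V} {v w : V} : w ∈ nb G U v ↔ w ∈ U ∧ G.Adj v w := by
  simp [nb]

theorem deg_mono {U W : Finset V} (h : U ⊆ W) (v : V) : deg G U v ≤ deg G W v := by
  unfold deg nb
  exact card_le_card (filter_subset_filter _ h)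

theorem deg_le_card (U : Finset V) (v : V) : deg G U v ≤ U.card := by
  unfold deg nb
  exact card_filter_le _ _

theorem deg_lt_card {U : Finset V} {v : V} (h : v ∈ U) : deg G U v + 1 ≤ U.card := by
  unfold deg
  apply card_lt_card
  refine ⟨fun w hw => (mem_nb.1 hw).1, fun hs => ?_⟩
  exact (mem_nb.1 (hs h)).2.ne rfl

theorem deg_union {A B : Finset V} (h : Disjoint A B) (v : V) :
    deg G (A ∪ B) v = deg G A v + deg G B v := by
  unfold deg nb
  rw [filter_union, card_union_of_disjoint (disjoint_filter_filter h)]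

theorem deg_union_le (A B : Finset V) (v : V) : deg G (A ∪ B) v ≤ deg G A v + deg G B v := by
  unfold deg nb
  rw [filter_union]
  exact card_union_le _ _

theorem deg_erase_self (U : Finset V) (v : V) : deg G (U.erase v) v = deg G U v := by
  unfold deg
  congr 1
  ext w
  simp only [mem_nb, mem_erase]
  exact ⟨fun h => ⟨h.1.2, h.2⟩, fun h => ⟨⟨h.2.ne', h.1⟩, h.2⟩⟩

theorem cross_symm (A B : Finset V) : ∑ v ∈ A, deg G B v = ∑ w ∈ B, deg G A w := by
  unfold deg nb
  simp only [card_filter]
  rw [sum_comm]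
  refine sum_congr rfl fun x _ => sum_congr rfl fun y _ => ?_
  simp only [G.adj_comm]

theorem E2_union {A B : Finset V} (h : Disjoint A B) :
    E2 G (A ∪ B) = E2 G A + E2 G B + 2 * ∑ v ∈ A, deg G B v := by
  unfold E2
  rw [sum_union h]
  simp only [deg_union h, sum_add_distrib]
  rw [cross_symm B A]
  ring

theorem E2_erase {U : Finset V} {v : V} (h : v ∈ U) :
    E2 G U = E2 G (U.erase v) + 2 * deg G U v := by
  have h1 : E2 G (U.erase v ∪ {v}) =
      E2 G (U.erase v) + E2 G {v} + 2 * ∑ w ∈ U.erase v, deg G {v} w :=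
    E2_union (by simp)
  have h2 : U.erase v ∪ {v} = U := by
    ext w
    simp only [mem_union, mem_erase, mem_singleton]
    constructor
    · rintro (h' | rfl)
      · exact h'.2
      · exact h
    · intro h'
      by_cases hw : w = v
      · exact Or.inr hw
      · exact Or.inl ⟨hw, h'⟩
  have h3 : E2 G {v} = 0 := by
    have := deg_lt_card (G := G) (mem_singleton_self v)
    simp only [card_singleton] at this
    simp only [E2, sum_singleton]
    omega
  rw [h2, h3, cross_symm, sum_singleton, deg_erase_self] at h1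
  omega

theorem E2_insert {U : Finset V} {v : V} (h : v ∉ U) :
    E2 G (insert v U) = E2 G U + 2 * deg G U v := by
  have h1 := E2_erase (G := G) (mem_insert_self v U)
  rw [erase_insert h, ← deg_erase_self, erase_insert h] at h1
  exact h1

theorem E2_mono {U W : Finset V} (h : U ⊆ W) : E2 G U ≤ E2 G W := by
  unfold E2
  exact (sum_le_sum fun v _ => deg_mono h v).trans (sum_le_sum_of_subset h)

theorem E2_congr {G' : SimpleGraph V} {U : Finset V}
    (h : ∀ x ∈ U, ∀ y ∈ U, G.Adj x y ↔ G'.Adj x y) : E2 G U = E2 G' U := by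
  unfold E2 deg
  refine sum_congr rfl fun x hx => ?_
  congr 1
  ext y
  simp only [mem_nb]
  exact and_congr_right fun hy => h x hx y hy

theorem E2_eq_zero {U : Finset V} (h : ∀ x ∈ U, ∀ y ∈ U, ¬ G.Adj x y) : E2 G U = 0 := by
  unfold E2 deg
  refine sum_eq_zero fun x hx => ?_
  rw [card_eq_zero, eq_empty_iff_forall_notMem]
  intro y hy
  exact h x hx y (mem_nb.1 hy).1 (mem_nb.1 hy).2

theorem E2_le (U : Finset V) : E2 G U ≤ U.card * (U.card - 1) := by
  unfold E2
  have := sum_le_card_nsmul U (fun v => deg G U v) (U.card - 1)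
    (fun v hv => by have := deg_lt_card (G := G) hv; omega)
  simpa using this

theorem clique_of_E2 {U : Finset V} (h : U.card * (U.card - 1) ≤ E2 G U) :
    G.IsClique (U : Set V) := by
  intro x hx y hy hxy
  by_contra hn
  have hx' : x ∈ U := hx
  have hy' : y ∈ U := hy
  have hlt : deg G U x < U.card - 1 := by
    have h1 : deg G U x = deg G ((U.erase x).erase y) x := by
      unfold deg
      congr 1
      ext w
      simp only [mem_nb, mem_erase]
      refine ⟨fun h => ⟨⟨?_, h.2.ne', h.1⟩, h.2⟩, fun h => ⟨h.1.2.2, h.2⟩⟩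
      rintro rfl
      exact hn h.2
    have h2 := deg_le_card (G := G) ((U.erase x).erase y) x
    have h3 : y ∈ U.erase x := mem_erase.2 ⟨fun e => hxy e.symm, hy'⟩
    have h4 := card_erase_add_one h3
    have h5 := card_erase_add_one hx'
    omega
  have h6 : E2 G U < ∑ _v ∈ U, (U.card - 1) := by
    unfold E2
    exact sum_lt_sum (fun v hv => by have := deg_lt_card (G := G) hv; omega) ⟨x, hx', hlt⟩
  simp only [sum_const, smul_eq_mul] at h6
  omega

theorem E2_ge {U : Finset V} {d : ℕ} (h : ∀ v ∈ U, d ≤ deg G U v) : U.card * d ≤ E2 G U := by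
  unfold E2
  have := card_nsmul_le_sum U (fun v => deg G U v) d h
  simpa using this

theorem M2_congr {U : Finset V} {c c' : V → Bool} (h : ∀ v ∈ U, c v = c' v) :
    M2 G U c = M2 G U c' := by
  refine E2_congr fun x hx y hy => ?_
  show G.Adj x y ∧ c x = c y ↔ G.Adj x y ∧ c' x = c' y
  rw [h x hx, h y hy]

theorem gm_le (U : Finset V) (c : V → Bool) : gm G U ≤ M2 G U c := by
  exact Nat.sInf_le ⟨c, rfl⟩

theorem exists_gm (G : SimpleGraph V) (U : Finset V) : ∃ c, M2 G U c = gm G U := by
  exact Nat.sInf_mem (Set.range_nonempty (M2 G U))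

theorem gm_mono {U W : Finset V} (h : U ⊆ W) : gm G U ≤ gm G W := by
  obtain ⟨c, hc⟩ := exists_gm G W
  exact (gm_le U c).trans (hc ▸ E2_mono h)

/-- Two colourings that disagree about every pair `v, w` share out the neighbours of `v`. -/
theorem deg_flip {U : Finset V} {v : V} {c c' : V → Bool}
    (h : ∀ w ∈ U, c' v = c' w ↔ ¬ c v = c w) :
    deg (mono G c) U v + deg (mono G c') U v = deg G U v := by
  have h1 : nb (mono G c) U v = (nb G U v).filter fun w => c v = c w := by
    ext w
    rw [mem_filter, mem_nb, mem_nb, and_assoc]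
    rfl
  have h2 : nb (mono G c') U v = (nb G U v).filter fun w => ¬ c v = c w := by
    ext w
    rw [mem_filter, mem_nb, mem_nb, and_assoc]
    exact and_congr_right fun hw => and_congr_right fun _ => h w hw
  rw [deg, deg, deg, h1, h2, card_filter_add_card_filter_not]

/-- Greedy step: give the new vertex the colour that is rarer among its neighbours. -/
theorem gm_insert {U : Finset V} {v : V} (h : v ∉ U) :
    gm G (insert v U) ≤ gm G U + 2 * (deg G U v / 2) := by
  obtain ⟨c, hc⟩ := exists_gm G U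
  have u : ∀ b, ∀ w ∈ U, Function.update c v b w = c w := fun b w hw =>
    Function.update_of_ne (by rintro rfl; exact h hw) _ _
  have k : ∀ b, gm G (insert v U) ≤ gm G U + 2 * deg (mono G (Function.update c v b)) U v := by
    intro b
    refine (gm_le _ (Function.update c v b)).trans ?_
    rw [← hc, ← M2_congr (u b), M2, M2, E2_insert h]
  have d := deg_flip (G := G) (U := U) (v := v) (c := Function.update c v true)
    (c' := Function.update c v false) fun w hw => by
      rw [u _ w hw, u _ w hw, Function.update_self, Function.update_self]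
      cases c w <;> simp
  have k1 := k true
  have k2 := k false
  omega

theorem g_succ (m : ℕ) : g (m + 1) = g m + m / 2 := by
  rcases m with _ | n
  · rfl
  · simp only [g, Nat.add_sub_cancel]
    obtain ⟨a, rfl | rfl⟩ := Nat.even_or_odd' n
    · have e1 : (2 * a + 1) ^ 2 = 4 * (a * a) + 4 * a + 1 := by ring
      have e2 : (2 * a) ^ 2 = 4 * (a * a) := by ring
      omega
    · have e1 : (2 * a + 1) ^ 2 = 4 * (a * a) + 4 * a + 1 := by ring
      have e2 : (2 * a + 1 + 1) ^ 2 = 4 * (a * a) + 8 * a + 4 := by ring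
      omega

theorem g_two_mul (k : ℕ) : g (2 * k) = k * (k - 1) := by
  rcases k with _ | j
  · rfl
  · have e : 2 * (j + 1) - 1 = 2 * j + 1 := by omega
    have e1 : (2 * j + 1) ^ 2 = 4 * ((j + 1) * j) + 1 := by ring
    rw [g, e, Nat.add_sub_cancel]
    omega

theorem g_mono {a b : ℕ} (h : a ≤ b) : g a ≤ g b := by
  exact Nat.div_le_div_right (Nat.pow_le_pow_left (Nat.sub_le_sub_right h 1) 2)

theorem gm_le_g (U : Finset V) : gm G U ≤ 2 * g U.card := by
  induction U using Finset.induction_on with
  | empty => exact (gm_le _ fun _ => true).trans (by simp [M2, E2])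
  | insert v U hv ih =>
    have k := gm_insert (G := G) hv
    have d := deg_le_card (G := G) U v
    rw [card_insert_of_notMem hv, g_succ]
    omega

/-- No edge between `A` and `B`. -/
theorem gm_union {A B : Finset V} (h : Disjoint A B) (he : ∀ x ∈ A, ∀ y ∈ B, ¬ G.Adj x y) :
    gm G (A ∪ B) ≤ gm G A + gm G B := by
  obtain ⟨a, ha⟩ := exists_gm G A
  obtain ⟨b, hb⟩ := exists_gm G B
  have e1 : M2 G A (fun v => if v ∈ A then a v else b v) = M2 G A a :=
    M2_congr fun v hv => if_pos hv
  have e2 : M2 G B (fun v => if v ∈ A then a v else b v) = M2 G B b :=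
    M2_congr fun v hv => if_neg fun k => disjoint_left.1 h k hv
  have e3 : ∑ v ∈ A, deg (mono G fun v => if v ∈ A then a v else b v) B v = 0 := by
    refine sum_eq_zero fun v hv => card_eq_zero.2 (eq_empty_of_forall_notMem fun w hw => ?_)
    exact he v hv w (mem_nb.1 hw).1 (mem_nb.1 hw).2.1
  refine (gm_le _ fun v => if v ∈ A then a v else b v).trans ?_
  rw [← ha, ← hb, ← e1, ← e2, M2, M2, M2, E2_union h, e3]
  exact le_rfl

/-- Adding a properly coloured set costs at most half of the cross edges (flip its colours). -/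
theorem gm_add_bip {A S : Finset V} (h : Disjoint A S) (c : V → Bool)
    (hc : ∀ x ∈ S, ∀ y ∈ S, G.Adj x y → c x ≠ c y) :
    gm G (A ∪ S) ≤ gm G A + ∑ v ∈ S, deg G A v := by
  obtain ⟨a, ha⟩ := exists_gm G A
  have n : ∀ v ∈ A, v ∉ S := fun v hv => disjoint_left.1 h hv
  have k : ∀ d : V → Bool, (∀ x ∈ S, ∀ y ∈ S, G.Adj x y → d x ≠ d y) → gm G (A ∪ S) ≤
      gm G A + 2 * ∑ v ∈ S, deg (mono G fun v => if v ∈ S then d v else a v) A v := by
    intro d hd
    have e1 : M2 G A (fun v => if v ∈ S then d v else a v) = M2 G A a :=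
      M2_congr fun v hv => if_neg (n v hv)
    have e2 : E2 (mono G fun v => if v ∈ S then d v else a v) S = 0 := by
      refine E2_eq_zero fun x hx y hy k => hd x hx y hy k.1 ?_
      have k2 : (if x ∈ S then d x else a x) = if y ∈ S then d y else a y := k.2
      rwa [if_pos hx, if_pos hy] at k2
    refine (gm_le _ fun v => if v ∈ S then d v else a v).trans ?_
    rw [← ha, ← e1, M2, M2, E2_union h, e2, cross_symm]
    exact le_rfl
  have k1 := k c hc
  have k2 := k (fun v => !c v) fun x hx y hy e e' => hc x hx y hy e (Bool.not_inj e')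
  have d : ∑ v ∈ S, deg (mono G fun v => if v ∈ S then c v else a v) A v +
      ∑ v ∈ S, deg (mono G fun v => if v ∈ S then !c v else a v) A v = ∑ v ∈ S, deg G A v := by
    rw [← sum_add_distrib]
    refine sum_congr rfl fun v hv => deg_flip fun w hw => ?_
    rw [if_pos hv, if_pos hv, if_neg (n w hw), if_neg (n w hw)]
    cases c v <;> cases a w <;> simp
  omega

theorem E2_clique {U : Finset V} (h : ∀ x ∈ U, ∀ y ∈ U, x ≠ y → G.Adj x y) :
    U.card * (U.card - 1) ≤ E2 G U := by
  refine E2_ge fun v hv => ?_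
  rw [← card_erase_of_mem hv]
  refine card_le_card fun w hw => mem_nb.2 ⟨mem_of_mem_erase hw, ?_⟩
  exact h v hv w (mem_of_mem_erase hw) (ne_of_mem_erase hw).symm

theorem g_add (a b : ℕ) : 2 * g (a + b) ≤ a * (a - 1) + b * (b - 1) := by
  obtain ⟨s, hs⟩ := Nat.even_mul_pred_self a
  obtain ⟨t, ht⟩ := Nat.even_mul_pred_self b
  have k : (a + b - 1) ^ 2 ≤ 2 * (a * (a - 1) + b * (b - 1)) + 1 := by
    rcases a with _ | a <;> rcases b with _ | b
    · simp
    · rw [Nat.zero_add, Nat.add_sub_cancel]
      nlinarith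
    · rw [Nat.add_zero, Nat.add_sub_cancel]
      nlinarith
    · rw [← add_assoc, Nat.add_sub_cancel, Nat.add_sub_cancel, Nat.add_sub_cancel]
      zify
      nlinarith [sq_nonneg ((a : ℤ) - b)]
  rw [g]
  omega

theorem gm_clique {U : Finset V} (h : G.IsClique (U : Set V)) : 2 * g U.card ≤ gm G U := by
  obtain ⟨c, hc⟩ := exists_gm G U
  have k1 := E2_clique (G := mono G c) (U := U.filter fun v => c v = true) fun x hx y hy e =>
    ⟨h (mem_filter.1 hx).1 (mem_filter.1 hy).1 e, (mem_filter.1 hx).2.trans (mem_filter.1 hy).2.symm⟩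
  have k2 := E2_clique (G := mono G c) (U := U.filter fun v => ¬ c v = true) fun x hx y hy e =>
    ⟨h (mem_filter.1 hx).1 (mem_filter.1 hy).1 e,
      (Bool.eq_false_iff.2 (mem_filter.1 hx).2).trans
        (Bool.eq_false_iff.2 (mem_filter.1 hy).2).symm⟩
  have k3 := E2_union (G := mono G c) (disjoint_filter_filter_not U U fun v => c v = true)
  have k4 := g_add (U.filter fun v => c v = true).card (U.filter fun v => ¬ c v = true).card
  rw [filter_union_filter_not_eq] at k3
  rw [card_filter_add_card_filter_not] at k4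
  rw [← hc, M2]
  omega

theorem E2_super {A B : Finset V} (h : (A ∩ B).card ≤ 1) : E2 G A + E2 G B ≤ E2 G (A ∪ B) := by
  by_cases d : Disjoint A B
  · rw [E2_union d]
    exact Nat.le_add_right _ _
  · obtain ⟨s, h1, h2⟩ := not_disjoint_iff.1 d
    have d' : Disjoint A (B.erase s) := disjoint_left.2 fun x hx hx' => ne_of_mem_erase hx'
      (card_le_one.1 h x (mem_inter.2 ⟨hx, mem_of_mem_erase hx'⟩) s (mem_inter.2 ⟨h1, h2⟩))
    have k1 := E2_union (G := G) d'
    have k2 := E2_erase (G := G) h2
    have k3 := deg_erase_self (G := G) B s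
    have k4 : deg G (B.erase s) s ≤ ∑ v ∈ A, deg G (B.erase s) v :=
      single_le_sum (f := fun v => deg G (B.erase s) v) (fun _ _ => Nat.zero_le _) h1
    have k5 := E2_mono (G := G) (union_subset_union (Subset.refl A) (erase_subset s B))
    omega

theorem gm_super {A B : Finset V} (h : (A ∩ B).card ≤ 1) : gm G A + gm G B ≤ gm G (A ∪ B) := by
  obtain ⟨c, hc⟩ := exists_gm G (A ∪ B)
  exact (Nat.add_le_add (gm_le A c) (gm_le B c)).trans (hc ▸ E2_super h)

theorem peel_aux {B O : Finset V} (hd : Disjoint B O) {w : V} (hw : w ∈ O) :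
    B ∪ O = insert w (B ∪ O.erase w) ∧ w ∉ B ∪ O.erase w := by
  refine ⟨by rw [← union_insert, insert_erase hw], fun k => ?_⟩
  rcases mem_union.1 k with k | k
  · exact disjoint_left.1 hd k hw
  · exact notMem_erase _ _ k

/-- Peeling: induction on `O`, remove the vertex given by `h`. -/
theorem peel_gm {B O : Finset V} (hd : Disjoint B O) (φ : ℕ → ℕ)
    (h : ∀ O', O' ⊆ O → O'.Nonempty → ∃ w ∈ O', deg G (B ∪ O') w / 2 ≤ φ (O'.card - 1)) :
    gm G (B ∪ O) ≤ gm G B + 2 * ∑ i ∈ range O.card, φ i := by
  induction hn : O.card generalizing O with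
  | zero => simp [card_eq_zero.1 hn]
  | succ n ih =>
    obtain ⟨w, hw, k⟩ := h O (Subset.refl _) (card_pos.1 (by omega))
    obtain ⟨e, m⟩ := peel_aux hd hw
    have k1 := ih (hd.mono_right (erase_subset w O))
      (fun O' h1 h2 => h O' (h1.trans (erase_subset w O)) h2) (by rw [card_erase_of_mem hw, hn]; rfl)
    have k2 := gm_insert (G := G) m
    have k3 := deg_mono (G := G) (union_subset_union (Subset.refl B) (erase_subset w O)) w
    rw [hn, Nat.add_sub_cancel] at k
    rw [← e] at k2
    rw [sum_range_succ]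
    omega

theorem peel_E2 {B O : Finset V} (hd : Disjoint B O) (φ : ℕ → ℕ)
    (h : ∀ O', O' ⊆ O → O'.Nonempty → ∃ w ∈ O', deg G (B ∪ O') w ≤ φ (O'.card - 1)) :
    E2 G (B ∪ O) ≤ E2 G B + 2 * ∑ i ∈ range O.card, φ i := by
  induction hn : O.card generalizing O with
  | zero => simp [card_eq_zero.1 hn]
  | succ n ih =>
    obtain ⟨w, hw, k⟩ := h O (Subset.refl _) (card_pos.1 (by omega))
    obtain ⟨e, m⟩ := peel_aux hd hw
    have k1 := ih (hd.mono_right (erase_subset w O))
      (fun O' h1 h2 => h O' (h1.trans (erase_subset w O)) h2) (by rw [card_erase_of_mem hw, hn]; rfl)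
    have k2 := E2_insert (G := G) m
    have k3 := deg_mono (G := G) (union_subset_union (Subset.refl B) (erase_subset w O)) w
    rw [hn, Nat.add_sub_cancel] at k
    rw [← e] at k2
    rw [sum_range_succ]
    omega

end Pool.Agent.Lib.MP_1ed8ce_co.SS
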