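import Pool.Agent.Lib.MP_1ed8ce_co.SS.Cnt
import Pool.Agent.Lib.MP_1ed8ce_co.SS.Paths

namespace Pool.Agent.Lib.MP_1ed8ce_co.SS

open Finset
open scoped Classical

variable {V : Type} [Fintype V] [DecidableEq V] {G : SimpleGraph V}

theorem contr_adj {H : Finset V} {z u v : V} (hz : z ∈ H) : (contr G H z).Adj u v ↔
    (u ∉ H ∧ v ∉ H ∧ G.Adj u v) ∨ (u = z ∧ v ∉ H ∧ ∃ h ∈ H, G.Adj v h) ∨
      (v = z ∧ u ∉ H ∧ ∃ h ∈ H, G.Adj u h) := by
  unfold contr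
  rw [SimpleGraph.fromRel_adj]
  constructor
  · rintro ⟨_, ⟨h1, ⟨h2, h3⟩ | ⟨h2, h3⟩⟩ | ⟨h1, ⟨h2, h3⟩ | ⟨h2, h3⟩⟩⟩
    · exact Or.inl ⟨h2, h1, h3⟩
    · exact Or.inr (Or.inl ⟨h2, h1, h3⟩)
    · exact Or.inl ⟨h1, h2, h3.symm⟩
    · exact Or.inr (Or.inr ⟨h2, h1, h3⟩)
  · rintro (⟨h1, h2, h3⟩ | ⟨h1, h2, h3⟩ | ⟨h1, h2, h3⟩)
    · exact ⟨h3.ne, Or.inl ⟨h2, Or.inl ⟨h1, h3⟩⟩⟩
    · exact ⟨fun e => h2 (e ▸ h1 ▸ hz), Or.inl ⟨h2, Or.inr ⟨h1, h3⟩⟩⟩
    · exact ⟨fun e => h2 (e ▸ h1 ▸ hz), Or.inr ⟨h2, Or.inr ⟨h1, h3⟩⟩⟩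

theorem contr_out {H : Finset V} {z u v : V} (hz : z ∈ H) (hu : u ∉ H) (hv : v ∉ H) :
    (contr G H z).Adj u v ↔ G.Adj u v := by
  rw [contr_adj hz]
  constructor
  · rintro (h | h | h)
    · exact h.2.2
    · exact absurd (h.1 ▸ hz) hu
    · exact absurd (h.1 ▸ hz) hv
  · exact fun h => Or.inl ⟨hu, hv, h⟩

theorem contr_z {H : Finset V} {z v : V} {a : V → V} (hz : z ∈ H) (ha : Att G H a) (hv : v ∉ H) :
    (contr G H z).Adj z v ↔ G.Adj v (a v) := by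
  rw [contr_adj hz]
  constructor
  · rintro (h | ⟨_, _, h, hh, hadj⟩ | h)
    · exact absurd hz h.1
    · rw [ha.2.1 v hv h hh hadj]; exact hadj
    · exact absurd hz h.2.1
  · exact fun h => Or.inr (Or.inl ⟨rfl, hv, a v, ha.1 v, h⟩)

theorem contr_mem {H : Finset V} {z x : V} (hx : x ∈ insert z Hᶜ) (hn : x ≠ z) : x ∉ H := by
  rcases mem_insert.1 hx with h | h
  · exact absurd h hn
  · exact mem_compl.1 h

theorem contr_free0 {H : Finset V} {z : V} {a : V → V} (hz : z ∈ H) (ha : Att G H a) {n : ℕ}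
    {f : ℕ → V} (h : CycF (contr G H z) (insert z Hᶜ) f n) (h0 : f 0 = z) : Cyc G univ n := by
  obtain ⟨h3, ⟨hm, hi, hadj⟩, hl⟩ := h
  have ho : ∀ i, 0 < i → i < n → f i ∉ H := fun i h1 h2 =>
    contr_mem (hm i h2) fun e => by
      have := hi i 0 h2 (by omega) (e.trans h0.symm)
      omega
  have hg : ∀ i, 0 < i → i + 1 < n → G.Adj (f i) (f (i + 1)) := fun i h1 h2 =>
    (contr_out hz (ho i h1 (by omega)) (ho _ (by omega) h2)).1 (hadj i h2)
  have hc : ∀ i, 1 ≤ i → i < n → a (f i) = a (f 1) := by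
    intro i h1
    induction i, h1 using Nat.le_induction with
    | base => exact fun _ => rfl
    | succ i h1 ih =>
      intro h2
      rw [← ih (by omega)]
      exact (ha.2.2 _ _ (ho i h1 (by omega)) (ho _ (by omega) h2) (hg i h1 h2)).symm
  have e1 : G.Adj (f 1) (a (f 1)) :=
    (contr_z hz ha (ho 1 (by omega) (by omega))).1 (h0 ▸ hadj 0 (by omega))
  have e2 : G.Adj (f (n - 1)) (a (f 1)) := by
    rw [← hc (n - 1) (by omega) (by omega)]
    exact (contr_z hz ha (ho _ (by omega) (by omega))).1 (h0 ▸ hl.symm)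
  refine ⟨fun i => if i = 0 then a (f 1) else f i, h3, ⟨fun _ _ => mem_univ _, ?_, ?_⟩, ?_⟩
  · intro i j h1 h2 e
    by_cases i0 : i = 0 <;> by_cases j0 : j = 0
    · omega
    · simp only [i0, j0, if_true, if_false] at e
      exact absurd (e ▸ ha.1 (f 1)) (ho j (by omega) h2)
    · simp only [i0, j0, if_true, if_false] at e
      exact absurd (e ▸ ha.1 (f 1)) (ho i (by omega) h1)
    · simp only [i0, j0, if_false] at e
      exact hi i j h1 h2 e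
  · intro i h1
    by_cases i0 : i = 0
    · subst i0
      simpa using e1.symm
    · simp only [i0, if_false, Nat.add_one_ne_zero]
      exact hg i (by omega) h1
  · have : n - 1 ≠ 0 := by omega
    simp only [this, if_false, if_true]
    exact e2

/-- A cycle through z: rotate z to position 0; `a` is constant on the other vertices; replace z
by that value. -/
theorem contr_free {H : Finset V} {z : V} {a : V → V} (hz : z ∈ H) (ha : Att G H a) {n : ℕ}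
    (hf : ¬ Cyc G univ n) : ¬ Cyc (contr G H z) (insert z Hᶜ) n := by
  rintro ⟨f, h⟩
  by_cases hs : ∃ s, s < n ∧ f s = z
  · obtain ⟨s, h1, h2⟩ := hs
    refine hf (contr_free0 hz ha (h.rot s) ?_)
    simp only [zero_add, Nat.mod_eq_of_lt h1, h2]
  · obtain ⟨h3, ⟨hm, hi, hadj⟩, hl⟩ := h
    have ho : ∀ i, i < n → f i ∉ H := fun i h1 => contr_mem (hm i h1) fun e => hs ⟨i, h1, e⟩
    exact hf ⟨f, h3, ⟨fun _ _ => mem_univ _, hi, fun i h1 =>
      (contr_out hz (ho i (by omega)) (ho _ h1)).1 (hadj i h1)⟩,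
      (contr_out hz (ho _ (by omega)) (ho _ (by omega))).1 hl⟩

theorem contr_deg {H : Finset V} {a : V → V} (ha : Att G H a) {w : V} (hw : w ∉ H) :
    deg G H w = if G.Adj w (a w) then 1 else 0 := by
  unfold deg
  split_ifs with h
  · rw [card_eq_one]
    refine ⟨a w, ?_⟩
    ext x
    rw [mem_nb, mem_singleton]
    exact ⟨fun hx => (ha.2.1 w hw x hx.1 hx.2).symm, fun e => e ▸ ⟨ha.1 w, h⟩⟩
  · rw [card_eq_zero, eq_empty_iff_forall_notMem]
    intro x hx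
    rw [mem_nb] at hx
    exact h (ha.2.1 w hw x hx.1 hx.2 ▸ hx.2)

/-- A vertex outside H has at most one neighbour in H. -/
theorem contr_E2 {H : Finset V} {z : V} {a : V → V} (hz : z ∈ H) (ha : Att G H a) :
    E2 G univ = E2 G H + E2 (contr G H z) (insert z Hᶜ) := by
  have h1 : E2 G univ = E2 G H + E2 G Hᶜ + 2 * ∑ v ∈ H, deg G Hᶜ v := by
    rw [← E2_union disjoint_compl_right, union_compl]
  have h2 : E2 (contr G H z) Hᶜ = E2 G Hᶜ :=
    E2_congr fun x hx y hy => contr_out hz (mem_compl.1 hx) (mem_compl.1 hy)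
  have h3 : deg (contr G H z) Hᶜ z = ∑ w ∈ Hᶜ, deg G H w := by
    rw [sum_congr rfl fun w hw => contr_deg ha (mem_compl.1 hw), ← card_filter]
    unfold deg nb
    congr 1
    exact filter_congr fun w hw => contr_z hz ha (mem_compl.1 hw)
  rw [h1, E2_insert (fun h => mem_compl.1 h hz), h2, h3, cross_symm]
  omega

/-- From a best colouring c of the contraction colour `u ∉ H` by
`xor (xor (c u) (c z)) (col (a u))` and H by col; apply `contr_E2` to the monochromatic graphs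
or count directly. -/
theorem contr_gm {H : Finset V} {z : V} {a : V → V} (hz : z ∈ H) (ha : Att G H a)
    {col : V → Bool} (hc : ∀ u ∈ H, ∀ w ∈ H, G.Adj u w → col u ≠ col w) :
    gm G univ ≤ gm (contr G H z) (insert z Hᶜ) := by
  obtain ⟨c, hc0⟩ := exists_gm (contr G H z) (insert z Hᶜ)
  obtain ⟨d, hd1, hd2⟩ : ∃ d : V → Bool, (∀ u ∈ H, d u = col u) ∧
      ∀ u, u ∉ H → d u = xor (xor (c u) (c z)) (col (a u)) :=
    ⟨fun u => if u ∈ H then col u else xor (xor (c u) (c z)) (col (a u)),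
      fun u h => if_pos h, fun u h => if_neg h⟩
  have hm : Att (mono G d) H a :=
    ⟨ha.1, fun u hu h hh e => ha.2.1 u hu h hh e.1, fun u v hu hv e => ha.2.2 u v hu hv e.1⟩
  have hzv : ∀ y, y ∉ H → ((contr (mono G d) H z).Adj z y ↔ (mono (contr G H z) c).Adj z y) := by
    intro y hy
    rw [contr_z hz hm hy]
    change G.Adj y (a y) ∧ d y = d (a y) ↔ (contr G H z).Adj z y ∧ c z = c y
    rw [contr_z hz ha hy, hd2 y hy, hd1 _ (ha.1 y)]
    refine and_congr_right fun _ => ?_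
    cases c y <;> cases c z <;> cases col (a y) <;> simp
  refine (gm_le univ d).trans (le_of_eq ?_)
  rw [← hc0]
  unfold M2
  rw [contr_E2 hz hm, E2_eq_zero (G := mono G d) (U := H) fun x hx y hy e =>
    hc x hx y hy e.1 (by rw [← hd1 x hx, ← hd1 y hy]; exact e.2), zero_add]
  refine E2_congr fun x hx y hy => ?_
  by_cases ex : x = z <;> by_cases ey : y = z
  · rw [ex, ey]
    simp
  · rw [ex]
    exact hzv y (contr_mem hy ey)
  · rw [ey, SimpleGraph.adj_comm, (mono (contr G H z) c).adj_comm]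
    exact hzv x (contr_mem hx ex)
  · have h1 := contr_mem hx ex
    have h2 := contr_mem hy ey
    rw [contr_out hz h1 h2]
    change G.Adj x y ∧ d x = d y ↔ (contr G H z).Adj x y ∧ c x = c y
    rw [contr_out hz h1 h2]
    refine and_congr_right fun e => ?_
    rw [hd2 x h1, hd2 y h2, ha.2.2 x y h1 h2 e]
    cases c x <;> cases c y <;> cases c z <;> cases col (a y) <;> simp

/-- A clique of the contraction through z gives a clique of G of the same size. -/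
theorem contr_rep {H : Finset V} {z : V} {a : V → V} (hz : z ∈ H) (ha : Att G H a)
    {Q : Finset V} (hQ : Q ⊆ insert z Hᶜ) (hzQ : z ∈ Q) (h2 : 2 ≤ Q.card)
    (hc : (contr G H z).IsClique (Q : Set V)) :
    ∃ (w : V) (B : Finset V), w ∈ H ∧ (∀ x, x ∈ B ↔ x = w ∨ (x ∈ Q ∧ x ∉ H)) ∧
      (∀ x ∈ Q, x ∉ H → a x = w) ∧ G.IsClique (B : Set V) ∧ B.card = Q.card := by
  obtain ⟨u, hu, huz⟩ := exists_mem_ne (s := Q) (by omega) z
  have hu' := contr_mem (hQ hu) huz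
  have hne : ∀ x, x ∉ H → x ≠ z := fun x hx e => hx (e ▸ hz)
  have hav : ∀ x ∈ Q, x ∉ H → a x = a u := by
    intro x hx hx'
    by_cases e : x = u
    · rw [e]
    · exact ha.2.2 x u hx' hu' ((contr_out hz hx' hu').1 (hc hx hu e))
  have hadj : ∀ x ∈ Q, x ∉ H → G.Adj x (a u) := fun x hx hx' =>
    hav x hx hx' ▸ (contr_z hz ha hx').1 (hc hzQ hx (hne x hx').symm)
  have hB : ∀ x, x ∈ insert (a u) (Q.erase z) ↔ x = a u ∨ (x ∈ Q ∧ x ∉ H) := by
    intro x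
    rw [mem_insert, mem_erase]
    exact or_congr_right ⟨fun h => ⟨h.2, contr_mem (hQ h.2) h.1⟩, fun h => ⟨hne x h.2, h.1⟩⟩
  refine ⟨a u, insert (a u) (Q.erase z), ha.1 u, hB, hav, ?_, ?_⟩
  · intro x hx y hy e
    rcases (hB x).1 hx with h | h <;> rcases (hB y).1 hy with h' | h'
    · exact absurd (h.trans h'.symm) e
    · exact h ▸ (hadj y h'.1 h'.2).symm
    · exact h' ▸ hadj x h.1 h.2
    · exact (contr_out hz h.2 h'.2).1 (hc h.1 h'.1 e)
  · rw [card_insert_of_notMem, card_erase_add_one hzQ]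
    intro h
    rw [mem_erase] at h
    exact contr_mem (hQ h.2) h.1 (ha.1 u)

theorem contr_two1 {H : Finset V} {z : V} {a : V → V} (hz : z ∈ H) (ha : Att G H a)
    {Q₁ Q₂ : Finset V} {s : V} (hU : Q₁ ∪ Q₂ = insert z Hᶜ) (hI : Q₁ ∩ Q₂ = {s})
    (h1 : 2 ≤ Q₁.card) (h2 : 2 ≤ Q₂.card) (c1 : (contr G H z).IsClique (Q₁ : Set V))
    (c2 : (contr G H z).IsClique (Q₂ : Set V))
    (hx : ∀ x ∈ Q₁, ∀ y ∈ Q₂, (contr G H z).Adj x y → x = s ∨ y = s) (hz1 : z ∈ Q₁) :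
    ∃ (B C : Finset V) (v v' : V), H ∩ B = {v} ∧ (H ∪ B) ∩ C = {v'} ∧ H ∪ B ∪ C = univ ∧
      (∀ x y, G.Adj x y → (x ∈ H ∧ y ∈ H) ∨ (x ∈ B ∧ y ∈ B) ∨ (x ∈ C ∧ y ∈ C)) ∧
      G.IsClique (B : Set V) ∧ G.IsClique (C : Set V) ∧
      B.card = Q₁.card ∧ C.card = Q₂.card := by
  have s1 : Q₁ ⊆ insert z Hᶜ := hU ▸ subset_union_left
  have s2 : Q₂ ⊆ insert z Hᶜ := hU ▸ subset_union_right
  have hs : ∀ x, x ∈ Q₁ ∧ x ∈ Q₂ ↔ x = s := fun x => by rw [← mem_inter, hI, mem_singleton]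
  have hs12 := (hs s).2 rfl
  have hcov : ∀ x, x ∉ H → x ∈ Q₁ ∨ x ∈ Q₂ := fun x h => by
    rw [← mem_union, hU]
    exact mem_insert_of_mem (mem_compl.2 h)
  obtain ⟨w, B, hw, hB, haB, cB, kB⟩ := contr_rep hz ha s1 hz1 h1 c1
  have hHB : H ∩ B = {w} := by
    ext x
    rw [mem_inter, hB, mem_singleton]
    exact ⟨fun h => h.2.elim id fun h' => absurd h.1 h'.2, fun e => ⟨e ▸ hw, Or.inl e⟩⟩
  have key : ∀ C : Finset V, (∀ x ∈ Q₂, x ∉ H → x ∈ C) →
      (∀ x ∈ Q₂, x ∉ H → G.Adj x (a x) → x ∈ Q₁ ∨ a x ∈ C) → H ∪ B ∪ C = univ ∧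
      ∀ x y, G.Adj x y → (x ∈ H ∧ y ∈ H) ∨ (x ∈ B ∧ y ∈ B) ∨ (x ∈ C ∧ y ∈ C) := by
    intro C k1 k2
    have b1 : ∀ x ∈ Q₁, x ∉ H → x ∈ B := fun x h h' => (hB x).2 (Or.inr ⟨h, h'⟩)
    have mix : ∀ x y, x ∉ H → y ∈ H → G.Adj x y → (x ∈ B ∧ y ∈ B) ∨ (x ∈ C ∧ y ∈ C) := by
      intro x y h h' e
      have e' := ha.2.1 x h y h' e
      have q : x ∈ Q₁ → (x ∈ B ∧ y ∈ B) ∨ (x ∈ C ∧ y ∈ C) := fun q =>
        Or.inl ⟨b1 x q h, (hB y).2 (Or.inl (e'.symm.trans (haB x q h)))⟩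
      rcases hcov x h with q' | q'
      · exact q q'
      · exact (k2 x q' h (e' ▸ e)).elim q fun r => Or.inr ⟨k1 x q' h, e' ▸ r⟩
    have out : ∀ x y, x ∉ H → y ∉ H → x ∈ Q₁ → y ∈ Q₂ → G.Adj x y →
        (x ∈ B ∧ y ∈ B) ∨ (x ∈ C ∧ y ∈ C) := by
      intro x y h h' q q' e
      rcases hx x q y q' ((contr_out hz h h').2 e) with r | r
      · exact Or.inr ⟨k1 x (r ▸ hs12.2) h, k1 y q' h'⟩
      · exact Or.inl ⟨b1 x q h, b1 y (r ▸ hs12.1) h'⟩
    refine ⟨eq_univ_iff_forall.2 fun x => ?_, fun x y e => ?_⟩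
    · rw [mem_union, mem_union]
      by_cases h : x ∈ H
      · exact Or.inl (Or.inl h)
      · exact (hcov x h).elim (fun q => Or.inl (Or.inr (b1 x q h))) fun q => Or.inr (k1 x q h)
    · by_cases h : x ∈ H <;> by_cases h' : y ∈ H
      · exact Or.inl ⟨h, h'⟩
      · exact Or.inr ((mix y x h' h e.symm).imp And.symm And.symm)
      · exact Or.inr (mix x y h h' e)
      · refine Or.inr ?_
        rcases hcov x h with q | q <;> rcases hcov y h' with q' | q'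
        · exact Or.inl ⟨b1 x q h, b1 y q' h'⟩
        · exact out x y h h' q q' e
        · exact (out y x h' h q' q e.symm).imp And.symm And.symm
        · exact Or.inr ⟨k1 x q h, k1 y q' h'⟩
  by_cases hz2 : z ∈ Q₂
  · have ezs : z = s := (hs z).1 ⟨hz1, hz2⟩
    obtain ⟨w', C, hw', hC, haC, cC, kC⟩ := contr_rep hz ha s2 hz2 h2 c2
    obtain ⟨k1, k2⟩ := key C (fun x h h' => (hC x).2 (Or.inr ⟨h, h'⟩))
      fun x h h' _ => Or.inr ((hC _).2 (Or.inl (haC x h h')))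
    refine ⟨B, C, w, w', hHB, ?_, k1, k2, cB, cC, kB, kC⟩
    ext x
    rw [mem_inter, mem_union, hB, hC, mem_singleton]
    refine ⟨fun h => h.2.elim id fun h' => absurd ?_ h'.2, fun e => ⟨Or.inl (e ▸ hw'), Or.inl e⟩⟩
    rcases h.1 with r | r | r
    · exact r
    · exact r ▸ hw
    · exact ((hs x).1 ⟨r.1, h'.1⟩).trans ezs.symm ▸ hz
  · have ho : ∀ x ∈ Q₂, x ∉ H := fun x h => contr_mem (s2 h) fun e => hz2 (e ▸ h)
    obtain ⟨k1, k2⟩ := key Q₂ (fun x h _ => h) fun x h h' e => by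
      rcases hx z hz1 x h ((contr_z hz ha h').2 e) with r | r
      · exact absurd (r ▸ hs12.2) hz2
      · exact Or.inl (r ▸ hs12.1)
    refine ⟨B, Q₂, w, s, hHB, ?_, k1, k2, cB,
      fun x h y h' e => (contr_out hz (ho x h) (ho y h')).1 (c2 h h' e), kB, rfl⟩
    ext x
    rw [mem_inter, mem_union, hB, mem_singleton]
    refine ⟨fun h => ?_, fun e => e ▸ ⟨Or.inr (Or.inr ⟨hs12.1, ho s hs12.2⟩), hs12.2⟩⟩
    rcases h.1 with r | r | r
    · exact absurd r (ho x h.2)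
    · exact absurd (r ▸ hw) (ho x h.2)
    · exact (hs x).1 ⟨r.1, h.2⟩

/-- Replace z in a clique of the contraction by the common value of `a`. Cases z = s (both
cliques hang at H), z only in the first, z only in the second clique. -/
theorem contr_two {H : Finset V} {z : V} {a : V → V} (hz : z ∈ H) (ha : Att G H a) {i j : ℕ}
    (hi : 2 ≤ i) (hj : 2 ≤ j) (h : Two (contr G H z) (insert z Hᶜ) i j) :
    ∃ (B C : Finset V) (v v' : V), H ∩ B = {v} ∧ (H ∪ B) ∩ C = {v'} ∧ H ∪ B ∪ C = univ ∧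
      (∀ x y, G.Adj x y → (x ∈ H ∧ y ∈ H) ∨ (x ∈ B ∧ y ∈ B) ∨ (x ∈ C ∧ y ∈ C)) ∧
      G.IsClique (B : Set V) ∧ G.IsClique (C : Set V) ∧
      ((B.card = i ∧ C.card = j) ∨ (B.card = j ∧ C.card = i)) := by
  obtain ⟨Q₁, Q₂, s, hU, hI, k1, k2, c1, c2, hx⟩ := h
  have hzU : z ∈ Q₁ ∪ Q₂ := hU ▸ mem_insert_self _ _
  rcases mem_union.1 hzU with q | q
  · obtain ⟨B, C, v, v', r1, r2, r3, r4, r5, r6, r7, r8⟩ :=
      contr_two1 hz ha hU hI (k1 ▸ hi) (k2 ▸ hj) c1 c2 hx q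
    exact ⟨B, C, v, v', r1, r2, r3, r4, r5, r6, Or.inl ⟨r7.trans k1, r8.trans k2⟩⟩
  · obtain ⟨B, C, v, v', r1, r2, r3, r4, r5, r6, r7, r8⟩ :=
      contr_two1 hz ha ((union_comm _ _).trans hU) ((inter_comm _ _).trans hI) (k2 ▸ hj) (k1 ▸ hi)
        c2 c1 (fun x h y h' e => (hx y h' x h e.symm).symm) q
    exact ⟨B, C, v, v', r1, r2, r3, r4, r5, r6, Or.inr ⟨r7.trans k2, r8.trans k1⟩⟩

end Pool.Agent.Lib.MP_1ed8ce_co.SS
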