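import Pool.Agent.Lib.MP_1ed8ce_co.SS.EG

namespace Pool.Agent.Lib.MP_1ed8ce_co.SS

open Finset
open scoped Classical

variable {V : Type} [Fintype V] [DecidableEq V] {G : SimpleGraph V}

theorem cA_noLong_nb {k : ℕ} (hk : 2 ≤ k) (hf : ¬ Cyc G univ (2 * k + 1)) (v : V) :
    NoLong G (nb G univ v) (2 * k - 1) := by
  rintro m hm ⟨f, -, hp, -⟩
  have hp2 : Pth G univ f (2 * k) :=
    ⟨fun _ _ => mem_univ _, fun i j hi hj h => hp.2.1 i j (by omega) (by omega) h,
      fun i hi => hp.2.2 i (by omega)⟩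
  have hadj : ∀ i, i < 2 * k → G.Adj v (f i) := fun i hi =>
    (mem_nb.1 (hp.1 i (by omega))).2
  have hv : v ∉ img f (2 * k) := by
    intro h
    obtain ⟨i, hi, e⟩ := mem_img.1 h
    exact (hadj i hi).ne e.symm
  refine hf ⟨_, by omega, hp2.cons (mem_univ v) hv (fun h => hadj 0 h), ?_⟩
  have h0 : 2 * k + 1 - 1 ≠ 0 := by omega
  simp only [h0, if_false, if_true]
  exact (hadj _ (by omega)).symm

theorem cA_E2_nb_le {k : ℕ} (hk : 2 ≤ k) (hf : ¬ Cyc G univ (2 * k + 1)) (v : V) :
    E2 G (nb G univ v) ≤ 2 * k * Fintype.card V := by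
  rcases (nb G univ v).eq_empty_or_nonempty with h | h
  · rw [h]
    simp [E2]
  · have h1 := eg (by omega) h (cA_noLong_nb hk hf v)
    have h2 : (nb G univ v).card ≤ Fintype.card V := card_le_univ _
    have h3 : (2 * k - 1) * (nb G univ v).card ≤ 2 * k * Fintype.card V :=
      Nat.mul_le_mul (by omega) h2
    omega

theorem cA_four_mul_le (a b : ℕ) : 4 * (a * b) ≤ (a + b) ^ 2 := by
  nlinarith [sq_nonneg ((a : ℤ) - b)]

theorem cA_bad_le {A B : Finset V} {m ρ d : ℕ}
    (h1 : A.card * B.card ≤ ∑ a ∈ A, deg G B a + m) (hρ : m ≤ ρ * d) :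
    (A.filter fun a => ¬ B.card ≤ deg G B a + d).card ≤ ρ := by
  set W := A.filter fun a => ¬ B.card ≤ deg G B a + d with hW
  have hsub : W ⊆ A := filter_subset _ _
  have e1 : ∑ a ∈ A \ W, deg G B a + ∑ a ∈ W, deg G B a = ∑ a ∈ A, deg G B a := sum_sdiff hsub
  have e2 : ∑ a ∈ A \ W, deg G B a ≤ (A \ W).card * B.card := by
    have := sum_le_card_nsmul (A \ W) (fun a => deg G B a) B.card (fun a _ => deg_le_card B a)
    simpa using this
  have e3 : ∑ a ∈ W, (deg G B a + (d + 1)) ≤ W.card * B.card := by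
    have := sum_le_card_nsmul W (fun a => deg G B a + (d + 1)) B.card (fun a ha => by
      have := (mem_filter.1 ha).2
      omega)
    simpa using this
  rw [sum_add_distrib, sum_const, smul_eq_mul] at e3
  have e4 : (A \ W).card + W.card = A.card := card_sdiff_add_card_eq_card hsub
  have e5 : A.card * B.card = (A \ W).card * B.card + W.card * B.card := by
    rw [← e4, add_mul]
  have e6 : W.card * (d + 1) ≤ ρ * d := by omega
  by_contra hc
  have : (ρ + 1) * (d + 1) ≤ W.card * (d + 1) := Nat.mul_le_mul_right _ (by omega)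
  nlinarith

theorem cA_good_deg {B Y : Finset V} (hY : Y ⊆ B) {x : V} {d : ℕ} (h : B.card ≤ deg G B x + d) :
    Y.card ≤ deg G Y x + d := by
  have e1 : deg G B x ≤ deg G Y x + deg G (B \ Y) x := by
    have := deg_union_le (G := G) Y (B \ Y) x
    rwa [union_sdiff_of_subset hY] at this
  have e2 := deg_le_card (G := G) (B \ Y) x
  have e3 : (B \ Y).card + Y.card = B.card := card_sdiff_add_card_eq_card hY
  omega

/-- `v` of largest degree, `A` its neighbourhood. A cycle of length at least 2k in `A` contains a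
path on 2k vertices, which closes through `v`; so `E2 A ≤ 2 k n` by `eg` (c = 2k - 1).
`E2 univ = E2 A + E2 B + 2 cross` and `E2 B + cross = ∑ b ∈ B, deg univ b ≤ B.card * A.card`;
use `4 A.card B.card ≤ n^2` for the first bound and `cross ≤ A.card B.card` for the second. -/
theorem furedi {k t : ℕ} (hk : 2 ≤ k) (ht : 1 ≤ t) (htn : t ≤ Fintype.card V)
    (hf : ¬ Cyc G univ (2 * k + 1)) (he : (Fintype.card V - t) ^ 2 ≤ 2 * E2 G univ + 1) :
    ∃ A : Finset V,
      A.card * Aᶜ.card ≤ ∑ a ∈ A, deg G Aᶜ a + (t + 2 * k) * Fintype.card V ∧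
      Fintype.card V ^ 2 ≤ 4 * (A.card * Aᶜ.card) + 2 * (t + 2 * k) * Fintype.card V := by
  have hne : (univ : Finset V).Nonempty := by
    rw [← card_pos, card_univ]
    omega
  obtain ⟨v, -, hv⟩ := exists_max_image univ (fun w => deg G univ w) hne
  set A := nb G univ v with hA
  have hE := cA_E2_nb_le hk hf v
  rw [← hA] at hE
  have hd : Disjoint A Aᶜ := disjoint_compl_right
  have hu : A ∪ Aᶜ = univ := union_compl A
  have e1 := E2_union (G := G) hd
  rw [hu] at e1
  have e2 := cross_symm (G := G) A Aᶜ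
  have e3 : E2 G Aᶜ + ∑ w ∈ Aᶜ, deg G A w ≤ Aᶜ.card * A.card := by
    unfold E2
    rw [← sum_add_distrib]
    have := sum_le_card_nsmul Aᶜ (fun w => deg G Aᶜ w + deg G A w) A.card (fun w _ => by
      have h1 := deg_union (G := G) hd w
      rw [hu] at h1
      have h2 : deg G univ w ≤ A.card := hv w (mem_univ w)
      show deg G Aᶜ w + deg G A w ≤ A.card
      omega)
    simpa using this
  have e4 : ∑ a ∈ A, deg G Aᶜ a ≤ A.card * Aᶜ.card := by
    have := sum_le_card_nsmul A (fun a => deg G Aᶜ a) Aᶜ.card (fun a _ => deg_le_card _ a)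
    simpa using this
  have e5 : A.card + Aᶜ.card = Fintype.card V := card_add_card_compl A
  have e6 := cA_four_mul_le A.card Aᶜ.card
  rw [e5] at e6
  rw [mul_comm] at e3
  obtain ⟨s, hs⟩ := Nat.exists_eq_add_of_le htn
  have e7 : Fintype.card V - t = s := by omega
  rw [e7] at he
  have e8 : Fintype.card V ^ 2 + t ^ 2 = s ^ 2 + 2 * (t * Fintype.card V) := by
    rw [hs]
    ring
  have e9 : 1 ≤ t ^ 2 := Nat.one_le_pow _ _ ht
  have e10 : (t + 2 * k) * Fintype.card V = t * Fintype.card V + 2 * k * Fintype.card V :=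
    add_mul _ _ _
  refine ⟨A, by omega, ?_⟩
  rw [mul_assoc 2 (t + 2 * k), e10]
  omega

/-- `X` = vertices of `A` with at most d non-neighbours in the complement, `Y` likewise. Each of
the two bad sets has at most ρ vertices (missing pairs at most `κ n ≤ ρ d`). -/
theorem good_sets {A : Finset V} {κ ρ d : ℕ} (hn : 0 < Fintype.card V)
    (h1 : A.card * Aᶜ.card ≤ ∑ a ∈ A, deg G Aᶜ a + κ * Fintype.card V)
    (h2 : Fintype.card V ^ 2 ≤ 4 * (A.card * Aᶜ.card) + 2 * κ * Fintype.card V)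
    (hρ : κ * Fintype.card V ≤ ρ * d) :
    ∃ X Y : Finset V, Disjoint X Y ∧ (∀ x ∈ X, Y.card ≤ deg G Y x + d) ∧
      (∀ y ∈ Y, X.card ≤ deg G X y + d) ∧ (univ \ (X ∪ Y)).card ≤ 2 * ρ ∧
      Fintype.card V ≤ 4 * X.card + 2 * κ + 4 * ρ ∧
      Fintype.card V ≤ 4 * Y.card + 2 * κ + 4 * ρ := by
  have e5 : A.card + Aᶜ.card = Fintype.card V := card_add_card_compl A
  have b1 := cA_bad_le h1 hρ
  have h1' : Aᶜ.card * A.card ≤ ∑ a ∈ Aᶜ, deg G A a + κ * Fintype.card V := by
    rw [mul_comm, ← cross_symm]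
    exact h1
  have b2 := cA_bad_le h1' hρ
  set X := A.filter fun a => Aᶜ.card ≤ deg G Aᶜ a + d with hX
  set Y := Aᶜ.filter fun a => A.card ≤ deg G A a + d with hY
  have c1 := card_filter_add_card_filter_not (s := A) (fun a => Aᶜ.card ≤ deg G Aᶜ a + d)
  have c2 := card_filter_add_card_filter_not (s := Aᶜ) (fun a => A.card ≤ deg G A a + d)
  rw [← hX] at c1
  rw [← hY] at c2
  have hXA : X ⊆ A := filter_subset _ _
  have hYA : Y ⊆ Aᶜ := filter_subset _ _
  have hdis : Disjoint X Y := disjoint_compl_right.mono hXA hYA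
  have key : ∀ a b : ℕ, a + b = Fintype.card V →
      Fintype.card V ^ 2 ≤ 4 * (a * b) + 2 * κ * Fintype.card V →
      Fintype.card V ≤ 4 * a + 2 * κ := by
    intro a b hab h
    have h3 : a * b ≤ a * Fintype.card V := Nat.mul_le_mul_left _ (by omega)
    have h4 : Fintype.card V * Fintype.card V ≤ (4 * a + 2 * κ) * Fintype.card V := by
      nlinarith
    exact Nat.le_of_mul_le_mul_right h4 hn
  have k1 := key _ _ e5 h2
  have k2 := key Aᶜ.card A.card (by omega) (by rw [mul_comm Aᶜ.card]; exact h2)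
  refine ⟨X, Y, hdis, fun x hx => cA_good_deg hYA (mem_filter.1 hx).2,
    fun y hy => cA_good_deg hXA (mem_filter.1 hy).2, ?_, by omega, by omega⟩
  have c3 : (univ \ (X ∪ Y)).card + (X ∪ Y).card = Fintype.card V := by
    rw [card_sdiff_add_card_eq_card (subset_univ _), card_univ]
  rw [card_union_of_disjoint hdis] at c3
  omega

end Pool.Agent.Lib.MP_1ed8ce_co.SS
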