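import Pool.Agent.Lib.MP_1ed8ce_co.SS.Cnt
import Pool.Agent.Lib.MP_1ed8ce_co.SS.Paths

namespace Pool.Agent.Lib.MP_1ed8ce_co.SS

open Finset
open scoped Classical

variable {V : Type} [Fintype V] [DecidableEq V] {G : SimpleGraph V}

/-- Greedy paths. Length 2 is `p3`. For `3 ≤ l` build `u = q 0, q 1, ..., q (l-2)` with
`q i ∈ Gd` for `1 ≤ i`, alternating colours, avoiding `w` (induction, `p1`, `p2`, `Link.snoc`),
then close with `p2` for `w` and `q (l-2)`. -/
theorem core_of {k : ℕ} {H Gd : Finset V} {col : V → Bool} (hs : Gd ⊆ H)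
    (p1 : ∀ u ∈ H, ∃ x ∈ Gd, col x = col u)
    (p2 : ∀ u ∈ H, ∀ x ∈ Gd, col u = col x → ∀ S : Finset V, S.card ≤ 2 * k + 1 →
      ∃ y ∈ Gd, y ∉ S ∧ G.Adj u y ∧ G.Adj x y ∧ col y ≠ col u)
    (p3 : ∀ u ∈ H, ∀ w ∈ H, u ≠ w → col u = col w → ∃ y ∈ H, G.Adj u y ∧ G.Adj w y) :
    Core G k H col := by
  have key : ∀ u ∈ H, ∀ w, u ≠ w → ∀ m, m + 1 ≤ 2 * k → ∃ (S : Finset V) (x : V), S ⊆ H ∧
      S.card ≤ m + 1 ∧ w ∉ S ∧ Link G S u x m ∧ x ∈ H ∧ (1 ≤ m → x ∈ Gd) ∧
        (col x = col u ↔ Even m) := by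
    intro u hu w huw m
    induction m with
    | zero =>
      intro _
      refine ⟨{u}, u, by simpa using hu, by simp, ?_, Link.refl (by simp), hu, by omega, by simp⟩
      rw [mem_singleton]
      exact fun h => huw h.symm
    | succ m ih =>
      intro hm
      obtain ⟨S, x, hSH, hcard, hwS, hl, hxH, -, hcol⟩ := ih (by omega)
      obtain ⟨x', hx', hcx⟩ := p1 x hxH
      obtain ⟨y, hy, hyS, hxy, -, hcy⟩ := p2 x hxH x' hx' hcx.symm (insert w S)
        ((card_insert_le _ _).trans (by omega))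
      rw [mem_insert, not_or] at hyS
      refine ⟨insert y S, y, insert_subset (hs hy) hSH, (card_insert_le _ _).trans (by omega), ?_,
        hl.snoc hyS.2 hxy, hs hy, fun _ => hy, ?_⟩
      · rw [mem_insert, not_or]
        exact ⟨fun h => hyS.1 h.symm, hwS⟩
      · rw [Nat.even_add_one, ← hcol]
        revert hcy
        cases col y <;> cases col x <;> cases col u <;> simp
  intro u hu w hw huw l h2 hl hpar
  rcases Nat.lt_or_ge l 3 with h3 | h3
  · obtain rfl : l = 2 := by omega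
    obtain ⟨y, hy, h1, h2⟩ := p3 u hu w hw huw (hpar.2 (by decide))
    exact link_two hu hy hw h1 h2.symm huw
  · obtain ⟨m, rfl⟩ : ∃ m, l = m + 1 + 1 := ⟨l - 2, by omega⟩
    obtain ⟨S, x, hSH, hcard, hwS, hlk, -, hxG, hcol⟩ := key u hu w huw m (by omega)
    have hcw : col w = col x := by
      rw [Nat.even_add_one, Nat.even_add_one, not_not, ← hcol] at hpar
      revert hpar
      cases col w <;> cases col x <;> cases col u <;> simp
    obtain ⟨y, hy, hyS, hwy, hxy, -⟩ := p2 w hw x (hxG (by omega)) hcw (insert w S)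
      ((card_insert_le _ _).trans (by omega))
    rw [mem_insert, not_or] at hyS
    have hw' : w ∉ insert y S := by
      rw [mem_insert, not_or]
      exact ⟨fun h => hyS.1 h.symm, hwS⟩
    exact ((hlk.snoc hyS.2 hxy).snoc hw' hwy.symm).mono
      (insert_subset hw (insert_subset (hs hy) hSH))

/-- A wrong path of length `q < 2k` closes through the core (length `2k + 1 - q`). -/
theorem wr_ge {k : ℕ} {H : Finset V} {col : V → Bool} (hc : Core G k H col)
    (hf : ¬ Cyc G univ (2 * k + 1)) {q : ℕ} (h : WrL G H col q) : 2 * k ≤ q := by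
  obtain ⟨S, u, w, hu, hw, huw, hl, hS, hpar⟩ := h
  by_contra hq
  have hq0 : q ≠ 0 := by
    rintro rfl
    obtain ⟨f, -, h0, h1⟩ := hl
    exact huw (h0.symm.trans h1)
  have hpar' : col w = col u ↔ Even (2 * k + 1 - q) := by
    rw [eq_comm, hpar, Nat.odd_iff, Nat.even_iff]
    omega
  have hl' := hc w hw u hu (Ne.symm huw) (2 * k + 1 - q) (by omega) (by omega) hpar'
  have hcyc := hl.cyc hl' huw hS (by omega)
  rw [show q + (2 * k + 1 - q) = 2 * k + 1 by omega] at hcyc
  exact hf (hcyc.mono (subset_univ _))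

theorem wrL_edge {H : Finset V} {col : V → Bool} {u w : V} (hu : u ∈ H) (hw : w ∈ H)
    (ha : G.Adj u w) (hc : col u = col w) : WrL G H col 1 := by
  refine ⟨{u, w}, u, w, hu, hw, ha.ne, Link.edge ha, fun x hx _ => by simpa using hx, ?_⟩
  exact ⟨fun _ => odd_one, fun _ => hc⟩

theorem wrL_two {H : Finset V} {col : V → Bool} {u w x : V} (hu : u ∈ H) (hw : w ∈ H)
    (hx : x ∉ H) (h1 : G.Adj x u) (h2 : G.Adj x w) (hc : col u ≠ col w) : WrL G H col 2 := by
  have huw : u ≠ w := fun h => hc (by rw [h])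
  refine ⟨{u, x, w}, u, w, hu, hw, huw,
    link_two (b := x) (by simp) (by simp) (by simp) h1.symm h2 huw, ?_, ?_⟩
  · intro y hy hyH
    simp only [mem_insert, mem_singleton] at hy
    rcases hy with h | h | h
    · exact Or.inl h
    · exact absurd (h ▸ hyH) hx
    · exact Or.inr h
  · exact ⟨fun h => absurd h hc, fun h => absurd h (by decide)⟩

theorem exists_SW {k : ℕ} {H : Finset V} {col : V → Bool} (hc : Core G k H col)
    (hf : ¬ Cyc G univ (2 * k + 1)) (h : ∃ q, WrL G H col q) : ∃ f p, SW G k H col f p := by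
  have hmin : ∀ q, WrL G H col q → Nat.find h ≤ q := fun q hq => Nat.find_min' h hq
  have hsp := Nat.find_spec h
  generalize Nat.find h = p at hmin hsp
  have hbig := wr_ge hc hf hsp
  obtain ⟨S, u, w, hu, hw, huw, ⟨f, hP, h0, hp⟩, hS, hpar⟩ := hsp
  subst h0 hp
  refine ⟨f, p, hf, hP.mono (subset_univ _), hu, hw, ?_, hpar, hbig, hmin⟩
  intro i hi0 hip hiH
  rcases hS (f i) (hP.1 i (by omega)) hiH with h1 | h1
  · have := hP.2.1 i 0 (by omega) (by omega) h1
    omega
  · have := hP.2.1 i p (by omega) (by omega) h1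
    omega

end Pool.Agent.Lib.MP_1ed8ce_co.SS
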