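import Pool.Agent.Lib.MP_1ed8ce_co.SS.CoreA
import Pool.Agent.Lib.MP_1ed8ce_co.SS.CoreB

namespace Pool.Agent.Lib.MP_1ed8ce_co.SS

open Finset
open scoped Classical

variable {V : Type} [Fintype V] [DecidableEq V] {G : SimpleGraph V}

/-- Two large neighbourhoods in `Y` share a vertex outside `S`. -/
theorem cc_common {Y S : Finset V} {u x : V} (h : Y.card + S.card < deg G Y u + deg G Y x) :
    ∃ y ∈ Y, y ∉ S ∧ G.Adj u y ∧ G.Adj x y := by
  have h1 := card_union_add_card_inter (nb G Y u) (nb G Y x)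
  have h2 : (nb G Y u ∪ nb G Y x).card ≤ Y.card :=
    card_le_card (union_subset (filter_subset _ _) (filter_subset _ _))
  have h3 : S.card < (nb G Y u ∩ nb G Y x).card := by
    unfold deg at h
    omega
  obtain ⟨y, hy, hyS⟩ := exists_mem_notMem_of_card_lt_card h3
  rw [mem_inter, mem_nb, mem_nb] at hy
  exact ⟨y, hy.1.1, hyS, hy.1.2, hy.2.2⟩

/-- Two vertices of the enlarged side have a common neighbour in `Y`. -/
theorem cc_side {k d : ℕ} {X Y X' : Finset V} (hX : ∀ x ∈ X, Y.card ≤ deg G Y x + d)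
    (hX' : ∀ u ∈ X', d + 2 * k + 2 ≤ deg G Y u) {y0 : V} (hy0 : y0 ∈ Y)
    (ha : ∀ u ∈ X', u ∉ X → G.Adj u y0) {u w : V} (hu : u ∈ X') (hw : w ∈ X') :
    ∃ y ∈ Y, G.Adj u y ∧ G.Adj w y := by
  by_cases h1 : w ∈ X
  · have a1 := hX w h1
    have a2 := hX' u hu
    obtain ⟨y, hy, -, b1, b2⟩ := cc_common (G := G) (Y := Y) (S := ∅) (u := u) (x := w)
      (by rw [card_empty]; omega)
    exact ⟨y, hy, b1, b2⟩
  · by_cases h2 : u ∈ X
    · have a1 := hX u h2
      have a2 := hX' w hw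
      obtain ⟨y, hy, -, b1, b2⟩ := cc_common (G := G) (Y := Y) (S := ∅) (u := u) (x := w)
        (by rw [card_empty]; omega)
      exact ⟨y, hy, b1, b2⟩
    · exact ⟨y0, hy0, ha u hu h2, ha w hw h1⟩

/-- The enlarged pair is a core. -/
theorem cc_core {k d : ℕ} {X Y X' Y' : Finset V} (sX : X ⊆ X') (sY : Y ⊆ Y') (hd : Disjoint X' Y')
    (hX : ∀ x ∈ X, Y.card ≤ deg G Y x + d) (hY : ∀ y ∈ Y, X.card ≤ deg G X y + d)
    (hX' : ∀ u ∈ X', d + 2 * k + 2 ≤ deg G Y u) (hY' : ∀ u ∈ Y', d + 2 * k + 2 ≤ deg G X u)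
    {x0 y0 : V} (hx0 : x0 ∈ X) (hy0 : y0 ∈ Y) (ha : ∀ u ∈ X', u ∉ X → G.Adj u y0)
    (hb : ∀ u ∈ Y', u ∉ Y → G.Adj u x0) : Core G k (X' ∪ Y') fun v => decide (v ∈ X') := by
  have nY : ∀ y ∈ Y', y ∉ X' := fun y hy hx => disjoint_left.1 hd hx hy
  refine core_of (Gd := X ∪ Y) (union_subset_union sX sY) ?_ ?_ ?_
  · intro u _
    by_cases h : u ∈ X'
    · exact ⟨x0, mem_union_left _ hx0, by simp [h, sX hx0]⟩
    · exact ⟨y0, mem_union_right _ hy0, by simp [h, nY y0 (sY hy0)]⟩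
  · intro u hu x hx hc S hS
    have hc' : u ∈ X' ↔ x ∈ X' := by simpa using hc
    by_cases h : u ∈ X'
    · have hxX : x ∈ X := (mem_union.1 hx).resolve_right fun hy => nY x (sY hy) (hc'.1 h)
      have a1 := hX x hxX
      have a2 := hX' u h
      obtain ⟨y, hy, b0, b1, b2⟩ := cc_common (G := G) (Y := Y) (S := S) (u := u) (x := x)
        (by omega)
      exact ⟨y, mem_union_right _ hy, b0, b1, b2, by simp [h, nY y (sY hy)]⟩
    · have hxY : x ∈ Y := (mem_union.1 hx).resolve_left fun hy => h (hc'.2 (sX hy))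
      have a1 := hY x hxY
      have a2 := hY' u ((mem_union.1 hu).resolve_left h)
      obtain ⟨y, hy, b0, b1, b2⟩ := cc_common (G := G) (Y := X) (S := S) (u := u) (x := x)
        (by omega)
      exact ⟨y, mem_union_left _ hy, b0, b1, b2, by simp [h, sX hy]⟩
  · intro u hu w hw _ hc
    have hc' : u ∈ X' ↔ w ∈ X' := by simpa using hc
    by_cases h : u ∈ X'
    · obtain ⟨y, hy, b⟩ := cc_side hX hX' hy0 ha h (hc'.1 h)
      exact ⟨y, mem_union_right _ (sY hy), b⟩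
    · obtain ⟨y, hy, b⟩ := cc_side hY hY' hx0 hb ((mem_union.1 hu).resolve_left h)
        ((mem_union.1 hw).resolve_left fun h' => h (hc'.2 h'))
      exact ⟨y, mem_union_left _ (sX hy), b⟩

/-- The edges from `M` to `Y` are bounded through a vertex of `Y` with most neighbours in `M`. -/
theorem cc_cross {M Y : Finset V} {y0 : V} (h : ∀ y ∈ Y, deg G M y ≤ deg G M y0) :
    ∑ r ∈ M, deg G Y r ≤ Y.card * deg G M y0 := by
  rw [cross_symm]
  exact sum_le_card_nsmul _ _ _ h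

theorem cc_num {x y a b : ℕ} : 4 * (x * y + y * a + x * b) ≤ (x + a + (y + b)) ^ 2 := by
  have h : 4 * ((x + a) * (y + b)) ≤ (x + a + (y + b)) ^ 2 := by
    have := two_mul_le_add_sq (x + a) (y + b)
    nlinarith
  nlinarith [Nat.zero_le (a * b)]

theorem cc_final {k t d h s r ρ : ℕ} (hs : 1 ≤ s) (hl : t + s ≤ r) (hr : r ≤ 2 * ρ)
    (hq : 16 * (t + 1) * d ≤ h + (t + s))
    (hn : 32 * ρ * (2 * k + 2) + 32 * ρ ^ 2 + 4 + 4 * ρ < h + (t + s))
    (he : (h + s) ^ 2 ≤ h ^ 2 + 4 * ((t + s) * (d + 2 * k + 2)) + 2 * r ^ 2 + 1) : False := by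
  have a1 : t + s ≤ (t + 1) * s := by nlinarith
  have a2 : 16 * ((t + s) * d) ≤ s * (h + 2 * ρ) := by
    calc 16 * ((t + s) * d) ≤ 16 * ((t + 1) * s * d) := by gcongr
      _ = s * (16 * (t + 1) * d) := by ring
      _ ≤ s * (h + 2 * ρ) := Nat.mul_le_mul_left _ (by omega)
  have a3 : (t + s) * (2 * k + 2) ≤ 2 * ρ * (2 * k + 2) := Nat.mul_le_mul_right _ (by omega)
  have a4 : r ^ 2 ≤ (2 * ρ) ^ 2 := Nat.pow_le_pow_left hr 2
  have a5 : 2 * ρ ≤ h := by omega
  have a6 : s * (2 * ρ) ≤ s * h := Nat.mul_le_mul_left _ a5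
  have a7 : h ≤ s * h := Nat.le_mul_of_pos_left _ hs
  have a8 : 32 * ρ * (2 * k + 2) + 32 * ρ ^ 2 + 4 < h := by omega
  nlinarith [Nat.zero_le (s * s)]

/-- Put `μ = d + 2k + 2`, `R = univ \ (X ∪ Y)`, `Mx` = vertices of R with μ neighbours in Y,
`My` likewise. `core_of` with `H = Gd = X ∪ Y` and `wr_ge`, `wrL_edge`, `wrL_two`: X and Y are
independent, no vertex of R has neighbours in both (so Mx, My are disjoint). Take `y0 ∈ Y` with
most neighbours in Mx, `x0 ∈ X` with most neighbours in My, `X' = X ∪ nb Mx y0`,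
`Y' = Y ∪ nb My x0`, `H = X' ∪ Y'`; `core_of` again. Count with `l = (univ \ H).card`:
`e(Mx, Y) ≤ deg Mx y0 * Y.card`, so `e(X,Y) + e(Mx,Y) + e(My,X) ≤ X'.card * Y'.card`, every other
vertex of R has fewer than μ neighbours in `X ∪ Y` and lies outside H, `E2 R ≤ R.card ^ 2`. -/
theorem core_count {k d : ℕ} (hk : 2 ≤ k) (hf : ¬ Cyc G univ (2 * k + 1)) {X Y : Finset V}
    (hd : Disjoint X Y) (hX : ∀ x ∈ X, Y.card ≤ deg G Y x + d)
    (hY : ∀ y ∈ Y, X.card ≤ deg G X y + d) (cX : 2 * d + 2 * k + 2 ≤ X.card)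
    (cY : 2 * d + 2 * k + 2 ≤ Y.card) :
    ∃ H col, X ∪ Y ⊆ H ∧ Core G k H col ∧
      2 * E2 G univ ≤ H.card ^ 2 + 4 * ((univ \ H).card * (d + 2 * k + 2)) +
        2 * (univ \ (X ∪ Y)).card ^ 2 := by
  have gX : ∀ u ∈ X, d + 2 * k + 2 ≤ deg G Y u := fun u hu => by have := hX u hu; omega
  have gY : ∀ u ∈ Y, d + 2 * k + 2 ≤ deg G X u := fun u hu => by have := hY u hu; omega
  have neX : X.Nonempty := card_pos.1 (by omega)
  have neY : Y.Nonempty := card_pos.1 (by omega)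
  have nY : ∀ y ∈ Y, y ∉ X := fun y hy hx => disjoint_left.1 hd hx hy
  have c0 : Core G k (X ∪ Y) fun v => decide (v ∈ X) :=
    cc_core (Subset.refl _) (Subset.refl _) hd hX hY gX gY neX.choose_spec neY.choose_spec
      (fun u hu h => absurd hu h) (fun u hu h => absurd hu h)
  have iX : ∀ x ∈ X, ∀ y ∈ X, ¬ G.Adj x y := fun x hx y hy ha => by
    have := wr_ge c0 hf (wrL_edge (mem_union_left _ hx) (mem_union_left _ hy) ha (by simp [hx, hy]))
    omega
  have iY : ∀ x ∈ Y, ∀ y ∈ Y, ¬ G.Adj x y := fun x hx y hy ha => by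
    have := wr_ge c0 hf (wrL_edge (mem_union_right _ hx) (mem_union_right _ hy) ha
      (by simp [nY x hx, nY y hy]))
    omega
  have one : ∀ r, r ∉ X ∪ Y → deg G X r = 0 ∨ deg G Y r = 0 := by
    intro r hr
    by_contra hcon
    push Not at hcon
    obtain ⟨x, hx⟩ := card_pos.1 (Nat.pos_of_ne_zero hcon.1)
    obtain ⟨y, hy⟩ := card_pos.1 (Nat.pos_of_ne_zero hcon.2)
    rw [mem_nb] at hx hy
    have := wr_ge c0 hf (wrL_two (mem_union_left _ hx.1) (mem_union_right _ hy.1) hr hx.2 hy.2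
      (by simp [hx.1, nY y hy.1]))
    omega
  obtain ⟨R, hR⟩ : ∃ R : Finset V, R = univ \ (X ∪ Y) := ⟨_, rfl⟩
  have mR : ∀ r, r ∈ R ↔ r ∉ X ∪ Y := fun r => by rw [hR, mem_sdiff]; simp
  obtain ⟨Mx, hMx⟩ : ∃ M : Finset V, M = R.filter fun r => d + 2 * k + 2 ≤ deg G Y r := ⟨_, rfl⟩
  obtain ⟨My, hMy⟩ : ∃ M : Finset V, M = R.filter fun r => d + 2 * k + 2 ≤ deg G X r := ⟨_, rfl⟩
  have mx : ∀ r, r ∈ Mx ↔ r ∈ R ∧ d + 2 * k + 2 ≤ deg G Y r := fun r => by rw [hMx, mem_filter]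
  have my : ∀ r, r ∈ My ↔ r ∈ R ∧ d + 2 * k + 2 ≤ deg G X r := fun r => by rw [hMy, mem_filter]
  obtain ⟨y0, hy0, my0⟩ := exists_max_image Y (fun y => deg G Mx y) neY
  obtain ⟨x0, hx0, mx0⟩ := exists_max_image X (fun x => deg G My x) neX
  have inA : ∀ u ∈ nb G Mx y0, u ∉ X ∪ Y ∧ d + 2 * k + 2 ≤ deg G Y u ∧ G.Adj u y0 := by
    intro u hu
    rw [mem_nb, mx, mR] at hu
    exact ⟨hu.1.1, hu.1.2, hu.2.symm⟩
  have inB : ∀ u ∈ nb G My x0, u ∉ X ∪ Y ∧ d + 2 * k + 2 ≤ deg G X u ∧ G.Adj u x0 := by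
    intro u hu
    rw [mem_nb, my, mR] at hu
    exact ⟨hu.1.1, hu.1.2, hu.2.symm⟩
  have dA : Disjoint X (nb G Mx y0) :=
    disjoint_left.2 fun u hu h => (inA u h).1 (mem_union_left _ hu)
  have dB : Disjoint Y (nb G My x0) :=
    disjoint_left.2 fun u hu h => (inB u h).1 (mem_union_right _ hu)
  have dH : Disjoint (X ∪ nb G Mx y0) (Y ∪ nb G My x0) := by
    refine disjoint_left.2 fun u hu hu' => ?_
    rcases mem_union.1 hu with h1 | h1
    · rcases mem_union.1 hu' with h2 | h2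
      · exact nY u h2 h1
      · exact (inB u h2).1 (mem_union_left _ h1)
    · rcases mem_union.1 hu' with h2 | h2
      · exact (inA u h1).1 (mem_union_right _ h2)
      · have b1 := (inA u h1).2.1
        have b2 := (inB u h2).2.1
        have b3 := one u (inA u h1).1
        omega
  refine ⟨(X ∪ nb G Mx y0) ∪ (Y ∪ nb G My x0), _,
    union_subset_union subset_union_left subset_union_left,
    cc_core subset_union_left subset_union_left dH hX hY ?_ ?_ hx0 hy0 ?_ ?_, ?_⟩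
  · intro u hu
    exact (mem_union.1 hu).elim (gX u) fun h => (inA u h).2.1
  · intro u hu
    exact (mem_union.1 hu).elim (gY u) fun h => (inB u h).2.1
  · intro u hu h
    exact (inA u ((mem_union.1 hu).resolve_left h)).2.2
  · intro u hu h
    exact (inB u ((mem_union.1 hu).resolve_left h)).2.2
  obtain ⟨H, hH⟩ : ∃ H : Finset V, H = (X ∪ nb G Mx y0) ∪ (Y ∪ nb G My x0) := ⟨_, rfl⟩
  have cH : H.card = X.card + deg G Mx y0 + (Y.card + deg G My x0) := by
    rw [hH, card_union_of_disjoint dH, card_union_of_disjoint dA, card_union_of_disjoint dB]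
    rfl
  rw [← hH, ← hR]
  have dR : Disjoint R (X ∪ Y) := disjoint_left.2 fun r hr => (mR r).1 hr
  have uR : R ∪ (X ∪ Y) = univ := by
    rw [hR]
    exact sdiff_union_of_subset (subset_univ _)
  have e1 := E2_union (G := G) dR
  rw [uR, E2_union hd, E2_eq_zero iX, E2_eq_zero iY] at e1
  have e2 : ∑ v ∈ X, deg G Y v ≤ X.card * Y.card :=
    sum_le_card_nsmul _ _ _ fun v _ => deg_le_card Y v
  have e3 : E2 G R ≤ R.card ^ 2 := by
    refine (E2_le R).trans ?_
    rw [sq]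
    exact Nat.mul_le_mul_left _ (Nat.sub_le _ _)
  have e4 := cc_cross (G := G) my0
  have e5 := cc_cross (G := G) mx0
  have e6 : ∑ r ∈ R, deg G (X ∪ Y) r ≤
      ∑ r ∈ Mx, deg G Y r + ∑ r ∈ My, deg G X r + (univ \ H).card * (d + 2 * k + 2) := by
    have p1 : ∀ r ∈ R, deg G (X ∪ Y) r ≤ (if r ∈ Mx then deg G Y r else 0) +
        (if r ∈ My then deg G X r else 0) + if r ∈ univ \ H then d + 2 * k + 2 else 0 := by
      intro r hr
      have b1 := one r ((mR r).1 hr)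
      have b2 := mx r
      have b3 := my r
      rw [deg_union hd]
      by_cases q1 : r ∈ Mx
      · have := (b2.1 q1).2
        rw [if_pos q1]
        omega
      · by_cases q2 : r ∈ My
        · have := (b3.1 q2).2
          rw [if_pos q2]
          omega
        · have q3 : r ∈ univ \ H := by
            rw [mem_sdiff, hH]
            refine ⟨mem_univ _, fun h => ?_⟩
            rcases mem_union.1 h with h | h
            · rcases mem_union.1 h with h | h
              · exact (mR r).1 hr (mem_union_left _ h)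
              · exact q1 (mem_nb.1 h).1
            · rcases mem_union.1 h with h | h
              · exact (mR r).1 hr (mem_union_right _ h)
              · exact q2 (mem_nb.1 h).1
          have n1 : ¬ d + 2 * k + 2 ≤ deg G Y r := fun h => q1 (b2.2 ⟨hr, h⟩)
          have n2 : ¬ d + 2 * k + 2 ≤ deg G X r := fun h => q2 (b3.2 ⟨hr, h⟩)
          rw [if_pos q3]
          omega
    refine (sum_le_sum p1).trans ?_
    rw [sum_add_distrib, sum_add_distrib, sum_ite_mem, sum_ite_mem, sum_ite_mem, sum_const,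
      smul_eq_mul]
    exact add_le_add (add_le_add (sum_le_sum_of_subset inter_subset_right)
      (sum_le_sum_of_subset inter_subset_right))
      (Nat.mul_le_mul_right _ (card_le_card inter_subset_right))
  have e7 := cc_num (x := X.card) (y := Y.card) (a := deg G Mx y0) (b := deg G My x0)
  rw [← cH] at e7
  omega

/-- `κ = t + 2k`, `q = 16 (t+1)`, `d = n / q`, `ρ = 2 κ q` (`n < q (d+1) ≤ 2 q d`). If
`l = (univ \ H).card ≥ t + 1` then `l ≤ 2ρ`, `l ≤ (t+1) (l-t)` and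
`(n-t)^2 - (n-l)^2 ≥ (l-t) (2n - 4ρ)` contradict `core_count` for large n. -/
theorem core_exists (k t : ℕ) (hk : 2 ≤ k) (ht : 1 ≤ t) :
    ∃ n₀ : ℕ, ∀ n, n₀ ≤ n → ∀ G : SimpleGraph (Fin n), ¬ Cyc G univ (2 * k + 1) →
      (n - t) ^ 2 ≤ 2 * E2 G univ + 1 →
        ∃ H col, Core G k H col ∧ (univ \ H).card ≤ t := by
  obtain ⟨ρ, hρ⟩ : ∃ ρ : ℕ, ρ = 2 * (t + 2 * k) * (16 * (t + 1)) := ⟨_, rfl⟩
  obtain ⟨C, hC⟩ : ∃ C : ℕ, C = 32 * ρ * (2 * k + 2) + 32 * ρ ^ 2 + 4 + 4 * ρ := ⟨_, rfl⟩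
  refine ⟨C + 16 * (t + 1) + 2 * (8 * k + 8 + 2 * (t + 2 * k) + 4 * ρ) + t + 1, ?_⟩
  intro n hn G hf he
  have cn : Fintype.card (Fin n) = n := Fintype.card_fin n
  obtain ⟨d, hd⟩ : ∃ d : ℕ, d = n / (16 * (t + 1)) := ⟨_, rfl⟩
  have d1 : 16 * (t + 1) * d ≤ n := by
    rw [hd]
    exact Nat.mul_div_le _ _
  have d2 : n < 16 * (t + 1) * (d + 1) := by
    rw [hd]
    exact Nat.lt_mul_div_succ _ (by omega)
  have d3 : 1 ≤ d := by
    rw [hd]
    exact Nat.div_pos (by omega) (by omega)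
  have d4 : 32 * d ≤ n := le_trans (Nat.mul_le_mul_right _ (by omega)) d1
  have d5 : n ≤ 16 * (t + 1) * (2 * d) := d2.le.trans (Nat.mul_le_mul_left _ (by omega))
  obtain ⟨A, h1, h2⟩ := furedi (G := G) hk ht (by rw [cn]; omega) hf (by rw [cn]; exact he)
  obtain ⟨X, Y, hXY, hX, hY, cR, cX, cY⟩ := good_sets (G := G) (ρ := ρ) (d := d)
    (by rw [cn]; omega) h1 h2 (by
      rw [cn, hρ]
      calc (t + 2 * k) * n ≤ (t + 2 * k) * (16 * (t + 1) * (2 * d)) := Nat.mul_le_mul_left _ d5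
        _ = 2 * (t + 2 * k) * (16 * (t + 1)) * d := by ring)
  rw [cn] at cX cY
  obtain ⟨H, col, sH, hc, hE⟩ := core_count hk hf hXY hX hY (by omega) (by omega)
  refine ⟨H, col, hc, ?_⟩
  by_contra hl
  have l1 : (univ \ H).card ≤ (univ \ (X ∪ Y)).card :=
    card_le_card (sdiff_subset_sdiff (Subset.refl _) sH)
  have l2 : (univ \ H).card + H.card = n := by
    rw [card_sdiff_add_card_eq_card (subset_univ _), card_univ, cn]
  obtain ⟨s, hs⟩ : ∃ s, (univ \ H).card = t + s := ⟨(univ \ H).card - t, by omega⟩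
  have l3 : n - t = H.card + s := by omega
  rw [hs] at hE l1
  rw [l3] at he
  exact cc_final (k := k) (t := t) (d := d) (h := H.card) (s := s) (ρ := ρ) (by omega) l1 cR
    (by omega) (by omega) (by omega)

end Pool.Agent.Lib.MP_1ed8ce_co.SS
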