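import Pool.Agent.Lib.MP_1ed8ce_co.SS.Cnt
import Pool.Agent.Lib.MP_1ed8ce_co.SS.Paths

namespace Pool.Agent.Lib.MP_1ed8ce_co.SS

open Finset
open scoped Classical

variable {V : Type} [Fintype V] [DecidableEq V] {G : SimpleGraph V}

omit [Fintype V] in
theorem eg_img_posa (f : ℕ → V) {i m : ℕ} (hi : i ≤ m) :
    img (fun j => if j < i then f (i - 1 - j) else f j) m = img f m := by
  ext x
  simp only [img, mem_image, mem_range]
  constructor
  · rintro ⟨j, hj, rfl⟩
    split_ifs with h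
    · exact ⟨i - 1 - j, by omega, rfl⟩
    · exact ⟨j, hj, rfl⟩
  · rintro ⟨j, hj, rfl⟩
    by_cases h : j < i
    · refine ⟨i - 1 - j, by omega, ?_⟩
      rw [if_pos (by omega)]
      congr 1
      omega
    · exact ⟨j, hj, by rw [if_neg h]⟩

/-- The set of first vertices that is removed in the induction step. -/
theorem eg_step {U : Finset V} {c : ℕ} (hc : 2 ≤ c) (h : NoLong G U c) {n : ℕ} (hn : 2 ≤ n)
    {f0 : ℕ → V} (h0 : Pth G U f0 n) (hm : ∀ f' n', Pth G U f' n' → n' ≤ n) :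
    ∃ T : Finset V, T ⊆ U ∧ T.Nonempty ∧ (U \ T).Nonempty ∧
      ∀ t ∈ T, deg G U t + deg G (U \ T) t ≤ c := by
  let P : ℕ → Prop := fun a => ∃ f, Pth G U f n ∧ a < n ∧ G.Adj (f 0) (f a)
  have hP1 : P 1 := ⟨f0, h0, by omega, h0.2.2 0 (by omega)⟩
  obtain ⟨a, hPa, hmax⟩ : ∃ a, P a ∧ ∀ b, P b → b ≤ a :=
    ⟨Nat.findGreatest P n, Nat.findGreatest_spec (m := 1) (by omega) hP1,
      fun b hb => Nat.le_findGreatest (by obtain ⟨_, _, hb, _⟩ := hb; omega) hb⟩
  have ha1 : 1 ≤ a := hmax 1 hP1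
  obtain ⟨f, hf, han, hadj⟩ := hPa
  have hseg : ∀ f', Pth G U f' n → Pth G U f' (a + 1) := fun f' hf' =>
    ⟨fun i hi => hf'.1 i (by omega), fun i j hi hj => hf'.2.1 i j (by omega) (by omega),
      fun i hi => hf'.2.2 i (by omega)⟩
  have hac : a + 1 ≤ c := by
    by_contra hlt
    exact h (a + 1) (by omega) ⟨f, by omega, hseg f hf, hadj.symm⟩
  have hS : (img f (a + 1)).card = a + 1 := (hseg f hf).card_img
  let T : Finset V := (img f (a + 1)).filter fun t =>
    ∃ f', Pth G U f' n ∧ img f' (a + 1) = img f (a + 1) ∧ f' a = f a ∧ f' 0 = t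
  have hT : ∀ f', Pth G U f' n → img f' (a + 1) = img f (a + 1) → f' a = f a → f' 0 ∈ T := by
    intro f' h1 h2 h3
    refine mem_filter.2 ⟨?_, f', h1, h2, h3, rfl⟩
    rw [← h2]
    exact mem_img.2 ⟨0, by omega, rfl⟩
  have hTS : T ⊆ img f (a + 1) := filter_subset _ _
  refine ⟨T, hTS.trans (hseg f hf).img_sub, ⟨_, hT f hf rfl rfl⟩, ⟨f a, ?_⟩, ?_⟩
  · refine mem_sdiff.2 ⟨hf.1 a han, fun hmem => ?_⟩
    obtain ⟨-, f', h1, -, h3, h4⟩ := mem_filter.1 hmem
    have := h1.2.1 0 a (by omega) han (h4.trans h3.symm)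
    omega
  intro t ht
  obtain ⟨-, f', h1, h2, h3, rfl⟩ := mem_filter.1 ht
  have hnb : ∀ w ∈ U, G.Adj (f' 0) w → ∃ i, 1 ≤ i ∧ i ≤ a ∧ f' i = w := by
    intro w hw hadj'
    obtain ⟨i, hi1, hin, rfl⟩ := h1.nb_sub (by omega) hm hw hadj'
    exact ⟨i, hi1, hmax i ⟨f', h1, hin, hadj'⟩, rfl⟩
  have hd1 : deg G U (f' 0) ≤ T.card := by
    let I : Finset ℕ := (Icc 1 a).filter fun i => G.Adj (f' 0) (f' i)
    have hI1 : nb G U (f' 0) ⊆ I.image f' := by
      intro w hw
      obtain ⟨hw1, hw2⟩ := mem_nb.1 hw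
      obtain ⟨i, hi1, hi2, rfl⟩ := hnb w hw1 hw2
      exact mem_image.2 ⟨i, mem_filter.2 ⟨mem_Icc.2 ⟨hi1, hi2⟩, hw2⟩, rfl⟩
    have hI2 : I.card ≤ T.card := by
      refine card_le_card_of_injOn (fun i => f' (i - 1)) ?_ ?_
      · intro i hi
        obtain ⟨hi1, hi2⟩ := mem_filter.1 (mem_coe.1 hi)
        obtain ⟨hi3, hi4⟩ := mem_Icc.1 hi1
        have := hT _ (h1.posa (a := i) (by omega) hi2)
          ((eg_img_posa f' (by omega)).trans h2) (by rw [if_neg (by omega)]; exact h3)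
        rw [if_pos (by omega)] at this
        exact mem_coe.2 this
      · intro i hi j hj hij
        obtain ⟨hi3, hi4⟩ := mem_Icc.1 (mem_filter.1 (mem_coe.1 hi)).1
        obtain ⟨hj3, hj4⟩ := mem_Icc.1 (mem_filter.1 (mem_coe.1 hj)).1
        have := h1.2.1 (i - 1) (j - 1) (by omega) (by omega) hij
        omega
    exact ((card_le_card hI1).trans card_image_le).trans hI2
  have hd2 : deg G (U \ T) (f' 0) ≤ (img f (a + 1) \ T).card := by
    refine card_le_card fun w hw => ?_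
    obtain ⟨hw1, hw2⟩ := mem_nb.1 hw
    obtain ⟨hw3, hw4⟩ := mem_sdiff.1 hw1
    obtain ⟨i, -, hi2, rfl⟩ := hnb w hw3 hw2
    refine mem_sdiff.2 ⟨?_, hw4⟩
    rw [← h2]
    exact mem_img.2 ⟨i, by omega, rfl⟩
  have := card_sdiff_add_card_eq_card hTS
  omega

/-- Erdos-Gallai for cycles. Strong induction on `U`. Take a longest path `f` (n vertices) of `U`
for which the last index `a` of a neighbour of `f 0` is largest among all longest paths. If
`n = 1` there is no edge. Else `1 ≤ a`, `S = img f (a+1)` has at most `c` vertices (a cycle if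
`2 ≤ a`). `T` = first vertices of paths `f'` on n vertices with `img f' (a+1) = S` and
`f' i = f i` for `a ≤ i`. For `t ∈ T`: all neighbours lie in `S` (`Pth.nb_sub`, choice of a),
`deg t ≤ T.card` (`Pth.posa`: the predecessor of a neighbour is in `T`), `f a ∉ T`. So
`E2 U - E2 (U \ T) = ∑ t ∈ T, (deg U t + deg (S \ T) t) ≤ T.card * S.card`. -/
theorem eg {U : Finset V} {c : ℕ} (hc : 2 ≤ c) (hU : U.Nonempty) (h : NoLong G U c) :
    E2 G U + c ≤ c * U.card := by
  induction U using Finset.strongInduction with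
  | H U ih =>
  obtain ⟨f, n, hn1, hf, hm⟩ := exists_longest G hU
  by_cases hn : 2 ≤ n
  · obtain ⟨T, hTU, hT, hR, hd⟩ := eg_step hc h hn hf hm
    have h1 := ih (U \ T) (sdiff_ssubset hTU hT) hR (h.mono sdiff_subset)
    have hdj : Disjoint T (U \ T) := disjoint_sdiff
    have hun : T ∪ U \ T = U := union_sdiff_of_subset hTU
    have h2 := E2_union (G := G) hdj
    rw [hun] at h2
    have h3 : ∑ t ∈ T, deg G U t = E2 G T + ∑ t ∈ T, deg G (U \ T) t := by
      rw [E2, ← sum_add_distrib]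
      refine sum_congr rfl fun t _ => ?_
      rw [← deg_union hdj, hun]
    have h4 : ∑ t ∈ T, (deg G U t + deg G (U \ T) t) ≤ T.card * c :=
      (sum_le_card_nsmul _ _ _ hd).trans (by rw [smul_eq_mul])
    rw [sum_add_distrib] at h4
    have h5 := card_sdiff_add_card_eq_card hTU
    rw [← h5, mul_add, mul_comm c T.card]
    omega
  · have h0 : E2 G U = 0 := by
      refine E2_eq_zero fun x hx y hy hxy => ?_
      have hp : Pth G U (fun _ => x) 1 :=
        ⟨fun _ _ => hx, fun i j hi hj _ => by omega, fun i hi => by omega⟩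
      obtain ⟨i, hi1, hi2, -⟩ := hp.nb_sub le_rfl
        (fun f' n' h' => (hm f' n' h').trans (by omega)) hy hxy
      omega
    rw [h0, zero_add]
    exact Nat.le_mul_of_pos_right _ hU.card_pos

end Pool.Agent.Lib.MP_1ed8ce_co.SS
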