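import Pool.Agent.Lib.MP_1ed8ce_co.SS.Cnt
import Pool.Agent.Lib.MP_1ed8ce_co.SS.Paths

namespace Pool.Agent.Lib.MP_1ed8ce_co.SS

open Finset
open scoped Classical

variable {V : Type} [Fintype V] [DecidableEq V] {G : SimpleGraph V}

/-- A path of right parity inside `K` from `x` to `x' ∈ H` that meets `H` only in `x'`. -/
def EArm (G : SimpleGraph V) (H K : Finset V) (c : V → Bool) (x x' : V) (A : Finset V) (a : ℕ) :
    Prop :=
  A ⊆ K ∧ x' ∈ H ∧ Link G A x x' a ∧ (∀ z ∈ A, z ∈ H → z = x') ∧ (c x = c x' ↔ Even a)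

/-- Two disjoint arms. -/
def EArms (G : SimpleGraph V) (H K : Finset V) (c : V → Bool) (x y : V) : Prop :=
  ∃ x' A a y' B b, EArm G H K c x x' A a ∧ EArm G H K c y y' B b ∧ Disjoint A B

theorem EArms.symm {H K : Finset V} {c : V → Bool} {x y : V} (h : EArms G H K c x y) :
    EArms G H K c y x := by
  obtain ⟨x', A, a, y', B, b, h1, h2, h3⟩ := h
  exact ⟨y', B, b, x', A, a, h2, h1, h3.symm⟩

theorem earm_refl {H K : Finset V} (hK : H ⊆ K) (c : V → Bool) {x : V} (hx : x ∈ H) :
    EArm G H K c x x {x} 0 := by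
  refine ⟨?_, hx, Link.refl (mem_singleton_self x), ?_, ?_⟩
  · intro z hz
    rw [mem_singleton] at hz
    exact hz ▸ hK hx
  · intro z hz _
    exact mem_singleton.1 hz
  · simp

theorem ear_parity {p q r s : Bool} {a n b : ℕ} (h1 : q = p ↔ Even a) (h2 : q = r ↔ Odd n)
    (h3 : r = s ↔ Even b) : p = s ↔ Odd (a + n + b) := by
  rw [Nat.even_iff] at h1 h3
  rw [Nat.odd_iff] at h2 ⊢
  cases p <;> cases q <;> cases r <;> cases s <;> simp at h1 h2 h3 ⊢ <;> omega

/-- A wrong path for `K` extends along two disjoint arms to a wrong path for `H`. -/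
theorem wrl_of_arms {H K : Finset V} (hK : H ⊆ K) {c : V → Bool}
    (harm : ∀ x ∈ K, ∀ y ∈ K, x ≠ y → EArms G H K c x y) {n : ℕ} (h : WrL G K c n) :
    ∃ m, WrL G H c m := by
  obtain ⟨S, x, y, hx, hy, hxy, hl, hS, hp⟩ := h
  obtain ⟨x', A, a, y', B, b, ⟨hA, hx', hlA, hAH, hpa⟩, ⟨hB, hy', hlB, hBH, hpb⟩, hd⟩ :=
    harm x hx y hy hxy
  rw [disjoint_left] at hd
  have hxA : x ∈ A := hlA.left
  have hyB : y ∈ B := hlB.left
  have h1 : Link G (A ∪ S) x' y (a + n) := by
    refine hlA.symm.trans hl ?_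
    intro z hz hzS
    rcases hS z hzS (hA hz) with e | e
    · exact e
    · exact absurd hyB (hd (e ▸ hz))
  have h2 : Link G ((A ∪ S) ∪ B) x' y' (a + n + b) := by
    refine h1.trans hlB ?_
    intro z hz hzB
    rcases mem_union.1 hz with hz | hz
    · exact absurd hzB (hd hz)
    · rcases hS z hz (hB hzB) with e | e
      · exact absurd (e ▸ hzB) (hd hxA)
      · exact e
  refine ⟨a + n + b, _, x', y', hx', hy', ?_, h2, ?_, ear_parity hpa hp hpb⟩
  · intro e
    exact hd hlA.right (e ▸ hlB.right)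
  · intro z hz hzH
    rcases mem_union.1 hz with hz | hz
    · rcases mem_union.1 hz with hz | hz
      · exact Or.inl (hAH z hz hzH)
      · rcases hS z hz (hK hzH) with e | e
        · exact Or.inl (hAH z (e ▸ hxA) hzH)
        · exact Or.inr (hBH z (e ▸ hyB) hzH)
    · exact Or.inr (hBH z hz hzH)

theorem wrl_congr {H : Finset V} {c c' : V → Bool} (hc : ∀ x ∈ H, c' x = c x) {n : ℕ}
    (h : WrL G H c' n) : WrL G H c n := by
  obtain ⟨S, x, y, hx, hy, hxy, hl, hS, hp⟩ := h
  rw [hc x hx, hc y hy] at hp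
  exact ⟨S, x, y, hx, hy, hxy, hl, hS, hp⟩

theorem pc_eq_iff (col : V → Bool) (f : ℕ → V) {i j : ℕ} (hij : i ≤ j) :
    pc col f i = pc col f j ↔ Even (j - i) := by
  rw [Nat.even_iff]
  unfold pc
  rcases Nat.mod_two_eq_zero_or_one i with hi | hi <;>
    rcases Nat.mod_two_eq_zero_or_one j with hj | hj <;>
    cases col (f 0) <;> simp [hi, hj] <;> omega

/-- Arms along an ear. -/
theorem ear_arms {H S : Finset V} {col c : V → Bool} {f : ℕ → V} {q : ℕ}
    (hf : Pth G S f (q + 1)) (hq : 2 ≤ q) (h0 : f 0 ∈ H) (h1 : f q ∈ H)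
    (hi : ∀ i, i ≤ q → f i ∈ H → i = 0 ∨ i = q) (hc : ∀ i, i ≤ q → c (f i) = pc col f i) :
    ∀ x ∈ H ∪ img f (q + 1), ∀ y ∈ H ∪ img f (q + 1), x ≠ y →
      EArms G H (H ∪ img f (q + 1)) c x y := by
  have hsub : ∀ i j, j ≤ q → (Icc i j).image f ⊆ H ∪ img f (q + 1) := by
    intro i j hj z hz
    obtain ⟨t, ht, rfl⟩ := mem_image.1 hz
    exact mem_union_right _ (mem_img.2 ⟨t, by have := (mem_Icc.1 ht).2; omega, rfl⟩)
  have hL : ∀ i, i < q →
      EArm G H (H ∪ img f (q + 1)) c (f i) (f 0) ((Icc 0 i).image f) (i - 0) := by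
    intro i hiq
    refine ⟨hsub 0 i hiq.le, h0, (hf.link (Nat.zero_le i) (by omega)).symm, ?_, ?_⟩
    · intro z hz hzH
      obtain ⟨t, ht, rfl⟩ := mem_image.1 hz
      have ht2 := (mem_Icc.1 ht).2
      rcases hi t (by omega) hzH with e | e
      · rw [e]
      · omega
    · rw [hc i hiq.le, hc 0 (Nat.zero_le q), eq_comm]
      exact pc_eq_iff col f (Nat.zero_le i)
  have hR : ∀ i, 0 < i → i ≤ q →
      EArm G H (H ∪ img f (q + 1)) c (f i) (f q) ((Icc i q).image f) (q - i) := by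
    intro i hi0 hiq
    refine ⟨hsub i q le_rfl, h1, hf.link hiq (by omega), ?_, ?_⟩
    · intro z hz hzH
      obtain ⟨t, ht, rfl⟩ := mem_image.1 hz
      have ht2 := mem_Icc.1 ht
      rcases hi t ht2.2 hzH with e | e
      · omega
      · rw [e]
    · rw [hc i hiq, hc q le_rfl]
      exact pc_eq_iff col f hiq
  have hout : ∀ x ∈ H ∪ img f (q + 1), x ∉ H → ∃ i, 0 < i ∧ i < q ∧ f i = x := by
    intro x hx hxH
    rcases mem_union.1 hx with hx | hx
    · exact absurd hx hxH
    · obtain ⟨i, hiq, rfl⟩ := mem_img.1 hx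
      refine ⟨i, ?_, ?_, rfl⟩
      · by_contra hh
        have : i = 0 := by omega
        exact hxH (this ▸ h0)
      · by_contra hh
        have : i = q := by omega
        exact hxH (this ▸ h1)
  have hmix : ∀ x ∈ H, ∀ j, 0 < j → j < q → EArms G H (H ∪ img f (q + 1)) c x (f j) := by
    intro x hx j hj0 hjq
    by_cases e : x = f 0
    · have hr := hR j hj0 hjq.le
      refine ⟨x, {x}, 0, _, _, _, earm_refl subset_union_left c hx, hr, ?_⟩
      rw [disjoint_singleton_left]
      intro hm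
      have e2 := hr.2.2.2.1 x hm hx
      have := hf.2.1 0 q (by omega) (by omega) (e.symm.trans e2)
      omega
    · have hl := hL j hjq
      refine ⟨x, {x}, 0, _, _, _, earm_refl subset_union_left c hx, hl, ?_⟩
      rw [disjoint_singleton_left]
      intro hm
      exact e (hl.2.2.2.1 x hm hx)
  have hin : ∀ i j, 0 < i → i < j → j < q → EArms G H (H ∪ img f (q + 1)) c (f i) (f j) := by
    intro i j hi0 hij hjq
    refine ⟨_, _, _, _, _, _, hL i (by omega), hR j (by omega) hjq.le, ?_⟩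
    rw [disjoint_left]
    intro z hz hz'
    obtain ⟨s, hs, rfl⟩ := mem_image.1 hz
    obtain ⟨t, ht, e⟩ := mem_image.1 hz'
    have hs2 := mem_Icc.1 hs
    have ht2 := mem_Icc.1 ht
    have := hf.2.1 t s (by omega) (by omega) e
    omega
  intro x hx y hy hxy
  by_cases hxH : x ∈ H
  · by_cases hyH : y ∈ H
    · exact ⟨x, {x}, 0, y, {y}, 0, earm_refl subset_union_left c hxH,
        earm_refl subset_union_left c hyH, disjoint_singleton.2 hxy⟩
    · obtain ⟨j, hj0, hjq, rfl⟩ := hout y hy hyH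
      exact hmix x hxH j hj0 hjq
  · obtain ⟨i, hi0, hiq, rfl⟩ := hout x hx hxH
    by_cases hyH : y ∈ H
    · exact (hmix y hyH i hi0 hiq).symm
    · obtain ⟨j, hj0, hjq, rfl⟩ := hout y hy hyH
      rcases lt_trichotomy i j with l | l | l
      · exact hin i j hi0 l hjq
      · exact absurd (congrArg f l) hxy
      · exact (hin j i hj0 l hiq).symm

/-- One ear added. -/
theorem ear_step {H : Finset V} {col : V → Bool} (h : ∀ q, ¬ WrL G H col q) (he : Ear G H) :
    ∃ H' col', H ⊂ H' ∧ ∀ q, ¬ WrL G H' col' q := by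
  obtain ⟨S, u, w, q, hu, hw, huw, hq, hl, hS⟩ := he
  have hpar : ¬ (col u = col w ↔ Odd q) := fun hp => h q ⟨S, u, w, hu, hw, huw, hl, hS, hp⟩
  obtain ⟨f, hf, rfl, rfl⟩ := hl
  have hi : ∀ i, i ≤ q → f i ∈ H → i = 0 ∨ i = q := by
    intro i hiq hm
    rcases hS (f i) (hf.1 i (by omega)) hm with e | e
    · exact Or.inl (hf.2.1 i 0 (by omega) (by omega) e)
    · exact Or.inr (hf.2.1 i q (by omega) (by omega) e)
  obtain ⟨c, hc, hcH⟩ : ∃ c : V → Bool, (∀ i, i ≤ q → c (f i) = pc col f i) ∧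
      ∀ x ∈ H, c x = col x := by
    have key : ∀ i, i ≤ q →
        (if hx : ∃ t, t ≤ q ∧ f t = f i then pc col f hx.choose else col (f i)) =
          pc col f i := by
      intro i hiq
      have hx : ∃ t, t ≤ q ∧ f t = f i := ⟨i, hiq, rfl⟩
      rw [dif_pos hx]
      have hs := hx.choose_spec
      rw [hf.2.1 _ i (by have := hs.1; omega) (by omega) hs.2]
    refine ⟨fun x => if hx : ∃ t, t ≤ q ∧ f t = x then pc col f hx.choose else col x, key, ?_⟩
    intro x hxH
    by_cases hx : ∃ t, t ≤ q ∧ f t = x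
    · obtain ⟨t, ht, rfl⟩ := hx
      refine (key t ht).trans ?_
      rcases hi t ht hxH with e | e
      · subst e
        simp [pc]
      · subst e
        rw [Nat.odd_iff] at hpar
        unfold pc
        rcases Nat.mod_two_eq_zero_or_one t with h2 | h2 <;>
          cases h3 : col (f 0) <;> cases h4 : col (f t) <;> simp_all
    · exact dif_neg hx
  refine ⟨H ∪ img f (q + 1), c, ?_, ?_⟩
  · rw [ssubset_iff_of_subset subset_union_left]
    refine ⟨f 1, mem_union_right _ (mem_img.2 ⟨1, by omega, rfl⟩), ?_⟩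
    intro hm
    rcases hi 1 (by omega) hm with e | e <;> omega
  · intro n hn
    obtain ⟨m, hm⟩ := wrl_of_arms subset_union_left (ear_arms hf hq hu hw hi hc) hn
    exact h m (wrl_congr hcH hm)

theorem card_sdiff_lt {H K : Finset V} (h : H ⊂ K) : (univ \ K).card < (univ \ H).card := by
  have h1 := card_lt_card h
  have h2 := card_le_univ K
  rw [card_univ_diff, card_univ_diff]
  omega

/-- Induction on `(univ \ H).card`. If there is an ear `f 0, ..., f q`, add its interior to H and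
colour `f i` by `pc col f i` (right at `f q` as the ear is not wrong). A wrong path for the larger
set with an end on the ear extends along the ear (`Pth.link`, `Link.trans`) to a wrong path for H:
one end inside the ear: go to whichever of `f 0`, `f q` is not the other end; both ends inside:
go outwards. -/
theorem ear_ext {H : Finset V} {col : V → Bool} (h : ∀ q, ¬ WrL G H col q) :
    ∃ H' col', H ⊆ H' ∧ (∀ q, ¬ WrL G H' col' q) ∧ ¬ Ear G H' := by
  obtain ⟨n, hn⟩ : ∃ n, (univ \ H).card ≤ n := ⟨_, le_rfl⟩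
  induction n generalizing H col with
  | zero =>
    by_cases he : Ear G H
    · obtain ⟨H', _, hs, _⟩ := ear_step h he
      have := card_sdiff_lt hs
      omega
    · exact ⟨H, col, Subset.refl H, h, he⟩
  | succ n ih =>
    by_cases he : Ear G H
    · obtain ⟨H', c, hs, hw⟩ := ear_step h he
      have := card_sdiff_lt hs
      obtain ⟨K, c', h1, h2, h3⟩ := ih hw (by omega)
      exact ⟨K, c', hs.subset.trans h1, h2, h3⟩
    · exact ⟨H, col, Subset.refl H, h, he⟩

theorem link_step {H : Finset V} {u v w : V} {n : ℕ} (h : Link G Hᶜ u v n) (hw : w ∉ H)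
    (ha : G.Adj v w) : ∃ m, Link G Hᶜ u w m := by
  obtain ⟨f, hf, rfl, rfl⟩ := h
  have hsub : ∀ i, i ≤ n → (Icc 0 i).image f ⊆ Hᶜ := by
    intro i hi z hz
    obtain ⟨t, ht, rfl⟩ := mem_image.1 hz
    exact hf.1 t (by have := (mem_Icc.1 ht).2; omega)
  by_cases hm : w ∈ (Icc 0 n).image f
  · obtain ⟨t, ht, rfl⟩ := mem_image.1 hm
    have ht2 := (mem_Icc.1 ht).2
    exact ⟨_, (hf.link (Nat.zero_le t) (by omega)).mono (hsub t ht2)⟩
  · refine ⟨_, ((hf.link (Nat.zero_le n) (by omega)).snoc hm ha).mono ?_⟩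
    exact insert_subset (mem_compl.2 hw) (hsub n le_rfl)

theorem link_of_reach {H : Finset V} {u v : V} (hu : u ∉ H)
    (h : Relation.ReflTransGen (fun x y => G.Adj x y ∧ x ∉ H ∧ y ∉ H) u v) :
    ∃ m, Link G Hᶜ u v m := by
  induction h with
  | refl => exact ⟨0, Link.refl (mem_compl.2 hu)⟩
  | tail _ hr ih =>
    obtain ⟨m, hm⟩ := ih
    exact link_step hm hr.2.2 hr.1

theorem att_unique {H : Finset V} (h : ¬ Ear G H) {v v' x y : V} (hv : v ∉ H)
    (hr : Relation.ReflTransGen (fun x y => G.Adj x y ∧ x ∉ H ∧ y ∉ H) v v') (hx : x ∈ H)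
    (hy : y ∈ H) (hvx : G.Adj v x) (hvy : G.Adj v' y) : x = y := by
  by_contra hxy
  obtain ⟨m, hm⟩ := link_of_reach hv hr
  have h1 : Link G (insert x Hᶜ) v' x (m + 1) :=
    hm.symm.snoc (fun hh => mem_compl.1 hh hx) hvx
  have h2 : Link G (insert y (insert x Hᶜ)) x y (m + 1 + 1) := by
    refine h1.symm.snoc ?_ hvy
    intro hh
    rcases mem_insert.1 hh with e | e
    · exact hxy e.symm
    · exact mem_compl.1 e hy
  refine h ⟨_, x, y, m + 1 + 1, hx, hy, hxy, by omega, h2, ?_⟩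
  intro z hz hzH
  rcases mem_insert.1 hz with e | e
  · exact Or.inr e
  · rcases mem_insert.1 e with e | e
    · exact Or.inl e
    · exact absurd hzH (mem_compl.1 e)

/-- For `u ∉ H` at most one `h ∈ H` is adjacent to a vertex joined to u by a path outside H (use
`Link G Hᶜ`, or reachability in the graph of edges outside H and `Walk.bypass`); `a u` is that
vertex, or `z`. -/
theorem exists_att {H : Finset V} {z : V} (hz : z ∈ H) (h : ¬ Ear G H) : ∃ a, Att G H a := by
  obtain ⟨F, hF1, hF2⟩ : ∃ F : (V → Prop) → V, (∀ P, F P ∈ H) ∧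
      ∀ P : V → Prop, (∃ x ∈ H, P x) → P (F P) := by
    refine ⟨fun P => if hP : ∃ x ∈ H, P x then hP.choose else z, ?_, ?_⟩
    · intro P
      by_cases hP : ∃ x ∈ H, P x
      · simp only [dif_pos hP]
        exact hP.choose_spec.1
      · simp only [dif_neg hP]
        exact hz
    · intro P hP
      simp only [dif_pos hP]
      exact hP.choose_spec.2
  refine ⟨fun u => F fun x => ∃ v,
    Relation.ReflTransGen (fun x y => G.Adj x y ∧ x ∉ H ∧ y ∉ H) u v ∧ G.Adj v x,
    fun u => hF1 _, ?_, ?_⟩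
  · intro u hu x hx hux
    obtain ⟨v, hv, hva⟩ := hF2 (fun x => ∃ v,
      Relation.ReflTransGen (fun x y => G.Adj x y ∧ x ∉ H ∧ y ∉ H) u v ∧ G.Adj v x)
      ⟨x, hx, u, Relation.ReflTransGen.refl, hux⟩
    exact (att_unique h hu hv hx (hF1 _) hux hva).symm
  · intro u v hu hv huv
    refine congrArg F (funext fun x => propext ⟨?_, ?_⟩)
    · rintro ⟨t, ht, hx⟩
      exact ⟨t, Relation.ReflTransGen.head ⟨huv.symm, hv, hu⟩ ht, hx⟩
    · rintro ⟨t, ht, hx⟩
      exact ⟨t, Relation.ReflTransGen.head ⟨huv, hu, hv⟩ ht, hx⟩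

end Pool.Agent.Lib.MP_1ed8ce_co.SS
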