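import Pool.Agent.Lib.MP_1ed8ce_co.SS.Cnt
import Pool.Agent.Lib.MP_1ed8ce_co.SS.Paths

namespace Pool.Agent.Lib.MP_1ed8ce_co.SS

open Finset
open scoped Classical

variable {V : Type} [Fintype V] [DecidableEq V] {G : SimpleGraph V}

/-- An induced star whose removal keeps the set connected. -/
theorem exists_star {U : Finset V} (h : Conn G U) (h2 : 2 ≤ U.card) :
    ∃ (S : Finset V) (c : V → Bool), S ⊆ U ∧ S.Nonempty ∧ (∀ v ∈ S, 1 ≤ deg G S v) ∧
      (∀ x ∈ S, ∀ y ∈ S, G.Adj x y → c x ≠ c y) ∧ Conn G (U \ S) := by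
  have hne : U.Nonempty := card_pos.1 (by omega)
  obtain ⟨f, n, hn1, hf, hm⟩ := exists_longest G hne
  have hn : 2 ≤ n := by
    obtain ⟨u, hu⟩ := hne
    obtain ⟨a, ha, b, hb, hab⟩ := h {u} (singleton_subset_iff.2 hu) (singleton_nonempty u)
      (by rintro rfl; simp at h2)
    rw [mem_singleton] at ha
    subst ha
    refine hm (fun i => if i = 0 then a else b) 2 ⟨fun i _ => ?_, fun i j hi hj => ?_,
      fun i hi => ?_⟩
    · by_cases h0 : i = 0
      · simpa [h0] using hu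
      · simpa [h0] using (mem_sdiff.1 hb).1
    · have := hab.ne
      have := hab.ne.symm
      interval_cases i <;> interval_cases j <;> simp_all
    · have : i = 0 := by omega
      subst this
      simpa using hab
  obtain ⟨T, mT⟩ : ∃ T : Finset V,
      ∀ w, w ∈ T ↔ w ∈ U ∧ G.Adj (f 1) w ∧ ∀ i, 2 ≤ i → i < n → f i ≠ w :=
    ⟨U.filter fun w => G.Adj (f 1) w ∧ ∀ i, 2 ≤ i → i < n → f i ≠ w, fun w => by simp⟩
  have h0T : f 0 ∈ T := (mT _).2 ⟨hf.1 0 (by omega), (hf.2.2 0 (by omega)).symm,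
    fun i h1 h3 e => by have := hf.2.1 i 0 h3 (by omega) e; omega⟩
  have nbT : ∀ t ∈ T, ∀ w ∈ U, G.Adj t w → ∃ i, 1 ≤ i ∧ i < n ∧ f i = w := by
    intro t ht w hw ha
    obtain ⟨t1, t2, t3⟩ := (mT t).1 ht
    have t4 : ∀ i, i ≠ 0 → i < n → f i ≠ t := fun i h1 h3 => by
      by_cases h4 : i = 1
      · rw [h4]; exact t2.ne
      · exact t3 i (by omega) h3
    have hp : Pth G U (fun i => if i = 0 then t else f i) n := by
      refine ⟨fun i hi => ?_, fun i j hi hj => ?_, fun i hi => ?_⟩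
      · by_cases h0 : i = 0
        · simpa [h0] using t1
        · simpa [h0] using hf.1 i hi
      · by_cases a : i = 0 <;> by_cases b : j = 0
        · intro _; omega
        · simp only [a, b, if_true, if_false]
          exact fun e => (t4 j b hj e.symm).elim
        · simp only [a, b, if_true, if_false]
          exact fun e => (t4 i a hi e).elim
        · simp only [a, b, if_false]
          exact hf.2.1 i j hi hj
      · by_cases a : i = 0
        · subst a
          simpa using t2.symm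
        · simpa [a] using hf.2.2 i hi
    obtain ⟨i, i1, i2, i3⟩ := hp.nb_sub hn1 hm hw (by simpa using ha)
    refine ⟨i, i1, i2, ?_⟩
    rwa [if_neg (by omega)] at i3
  have h1U : f 1 ∈ U := hf.1 1 (by omega)
  have hiS : ∀ i, 2 ≤ i → i < n → f i ∈ U \ insert (f 1) T := fun i h1 h3 => by
    refine mem_sdiff.2 ⟨hf.1 i h3, fun h4 => ?_⟩
    rcases mem_insert.1 h4 with e | e
    · have := hf.2.1 i 1 h3 (by omega) e; omega
    · exact ((mT _).1 e).2.2 i h1 h3 rfl
  have key : ∀ Q, Q ⊆ U \ insert (f 1) T → Q.Nonempty → (∀ i, 2 ≤ i → i < n → f i ∉ Q) →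
      ∃ a ∈ Q, ∃ b ∈ (U \ insert (f 1) T) \ Q, G.Adj a b := by
    intro Q q1 q2 q3
    obtain ⟨a, ha, b, hb, hab⟩ := h Q (q1.trans sdiff_subset) q2 (by
      rintro rfl
      exact (mem_sdiff.1 (q1 h1U)).2 (mem_insert_self _ _))
    obtain ⟨a1, a2⟩ := mem_sdiff.1 (q1 ha)
    obtain ⟨b1, b2⟩ := mem_sdiff.1 hb
    refine ⟨a, ha, b, mem_sdiff.2 ⟨mem_sdiff.2 ⟨b1, fun hS => ?_⟩, b2⟩, hab⟩
    rcases mem_insert.1 hS with e | e
    · refine a2 (mem_insert_of_mem ((mT a).2 ⟨a1, e ▸ hab.symm, fun i h1 h3 e' => ?_⟩))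
      exact q3 i h1 h3 (e' ▸ ha)
    · obtain ⟨i, i1, i2, i3⟩ := nbT b e a a1 hab.symm
      by_cases h4 : i = 1
      · exact a2 (by rw [← i3, h4]; exact mem_insert_self _ _)
      · exact q3 i (by omega) i2 (i3 ▸ ha)
  refine ⟨insert (f 1) T, fun v => decide (v = f 1),
    insert_subset h1U fun w hw => ((mT w).1 hw).1, insert_nonempty _ _,
    fun v hv => ?_, fun x hx y hy hxy e => ?_, fun P p1 p2 p3 => ?_⟩
  · refine card_pos.2 ?_
    rcases mem_insert.1 hv with e | e
    · exact ⟨f 0, mem_nb.2 ⟨mem_insert_of_mem h0T, e ▸ ((mT _).1 h0T).2.1⟩⟩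
    · exact ⟨f 1, mem_nb.2 ⟨mem_insert_self _ _, ((mT _).1 e).2.1.symm⟩⟩
  · rw [decide_eq_decide] at e
    by_cases hx1 : x = f 1
    · exact hxy.ne (hx1.trans (e.1 hx1).symm)
    · have hy1 : y ≠ f 1 := fun a => hx1 (e.2 a)
      have xT := (mem_insert.1 hx).resolve_left hx1
      have yT := (mem_insert.1 hy).resolve_left hy1
      obtain ⟨i, i1, i2, i3⟩ := nbT x xT y ((mT _).1 yT).1 hxy
      by_cases h4 : i = 1
      · exact hy1 (by rw [← i3, h4])
      · exact ((mT _).1 yT).2.2 i (by omega) i2 i3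
  · by_contra hno
    have step : ∀ i, 2 ≤ i → i + 1 < n → (f i ∈ P ↔ f (i + 1) ∈ P) := by
      intro i h1 h3
      have ad := hf.2.2 i h3
      constructor
      · intro a
        by_contra b
        exact hno ⟨_, a, _, mem_sdiff.2 ⟨hiS _ (by omega) h3, b⟩, ad⟩
      · intro a
        by_contra b
        exact hno ⟨_, a, _, mem_sdiff.2 ⟨hiS _ h1 (by omega), b⟩, ad.symm⟩
    have all : ∀ i, 2 ≤ i → i < n → (f i ∈ P ↔ f 2 ∈ P) := by
      intro i h1
      induction i, h1 using Nat.le_induction with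
      | base => exact fun _ => Iff.rfl
      | succ i h1 ih => exact fun h3 => (step i h1 h3).symm.trans (ih (by omega))
    by_cases h5 : f 2 ∈ P
    · obtain ⟨a, ha, b, hb, hab⟩ := key ((U \ insert (f 1) T) \ P) sdiff_subset
        (sdiff_nonempty.2 fun hle => p3 (Subset.antisymm p1 hle))
        (fun i h1 h3 hi => (mem_sdiff.1 hi).2 ((all i h1 h3).2 h5))
      refine hno ⟨b, ?_, a, ha, hab.symm⟩
      by_contra hbP
      exact (mem_sdiff.1 hb).2 (mem_sdiff.2 ⟨(mem_sdiff.1 hb).1, hbP⟩)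
    · exact hno (key P p1 p2 fun i h1 h3 hi => h5 ((all i h1 h3).1 hi))

theorem four_g_le (m : ℕ) : 4 * g (m + 1) ≤ m ^ 2 := by
  rw [g, Nat.add_sub_cancel]; omega

theorem le_four_g (m : ℕ) : m ^ 2 + 1 ≤ 4 * g m + 1 + 2 * m := by
  rcases m with _ | m
  · simp
  · rw [g, Nat.add_sub_cancel]
    obtain ⟨q, rfl | rfl⟩ := Nat.even_or_odd' m
    · have : (2 * q) ^ 2 = 4 * q ^ 2 := by ring
      have h2 : (2 * q + 1) ^ 2 = 4 * q ^ 2 + 4 * q + 1 := by ring
      omega
    · have : (2 * q + 1) ^ 2 = 4 * q ^ 2 + 4 * q + 1 := by ring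
      have h2 : (2 * q + 1 + 1) ^ 2 = 4 * q ^ 2 + 8 * q + 4 := by ring
      omega

/-- Edwards. Strong induction. If `2 ≤ U.card` take a longest path `f` (n ≥ 2 vertices),
`T` = neighbours of `f 1` in `U` other than `f 2, ..., f (n-1)`; each `t ∈ T` starts a longest
path, so its neighbours are among `f 1, ..., f (n-1)`. `S = insert (f 1) T` is an induced star
with at least 2 vertices, `U \ S` is `Conn` (a part without `f 2, ...` and without an edge to
the rest of `U \ S` has no edge to the rest of `U`), then `gm_add_bip` and `E2_union`. -/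
theorem edwards {U : Finset V} (h : Conn G U) : 2 * gm G U + U.card ≤ E2 G U + 1 := by
  induction U using Finset.strongInduction with
  | H U ih =>
    by_cases h2 : 2 ≤ U.card
    · obtain ⟨S, c, s1, s2, s3, s4, s5⟩ := exists_star h h2
      have a1 := ih (U \ S) (sdiff_ssubset s1 s2) s5
      have a2 := gm_add_bip (G := G) (A := U \ S) (S := S) sdiff_disjoint c s4
      have a3 := E2_union (G := G) (A := U \ S) (B := S) sdiff_disjoint
      have a4 := E2_ge s3
      have a5 := card_sdiff_add_card_eq_card s1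
      rw [cross_symm] at a3
      rw [sdiff_union_of_subset s1] at a2 a3
      omega
    · have a1 := gm_le_g (G := G) U
      have a2 : g U.card = 0 := by
        rw [g, show U.card - 1 = 0 by omega]; rfl
      omega

/-- Both parts have at least `j + 1` vertices; `gm_union`, `gm_le_g`,
`4 g m ≤ (m-1)^2 ≤ 4 g m + 1`. -/
theorem disc {U : Finset V} {k j : ℕ} (hk : 3 ≤ k) (hj : j ≤ 2 * k)
    (hc : U.card + 1 = 2 * k + j) (hd : ∀ v ∈ U, j ≤ deg G U v) (h : ¬ Conn G U) :
    gm G U < 2 * (g (2 * k) + g j) := by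
  rw [Conn] at h
  push Not at h
  obtain ⟨S, s1, s2, s3, s4⟩ := h
  have big : ∀ A B : Finset V, Disjoint A B → A ∪ B = U → A.Nonempty →
      (∀ x ∈ A, ∀ y ∈ B, ¬ G.Adj x y) → j + 1 ≤ A.card := by
    rintro A B d e ⟨v, hv⟩ hn
    have a1 := hd v (e ▸ mem_union_left _ hv)
    have a2 : deg G B v = 0 := card_eq_zero.2 (eq_empty_of_forall_notMem fun w hw =>
      hn v hv w (mem_nb.1 hw).1 (mem_nb.1 hw).2)
    have a3 := deg_lt_card (G := G) hv
    rw [← e, deg_union d] at a1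
    omega
  have b1 := big S (U \ S) disjoint_sdiff (union_sdiff_of_subset s1) s2 s4
  have b2 := big (U \ S) S sdiff_disjoint (sdiff_union_of_subset s1)
    (sdiff_nonempty.2 fun hle => s3 (Subset.antisymm s1 hle))
    (fun x hx y hy a => s4 y hy x hx a.symm)
  have b3 := gm_union (G := G) disjoint_sdiff s4
  rw [union_sdiff_of_subset s1] at b3
  have b4 := gm_le_g (G := G) S
  have b5 := gm_le_g (G := G) (U \ S)
  have b6 := card_sdiff_add_card_eq_card s1
  obtain ⟨a, ha⟩ : ∃ a, S.card = j + a + 1 := ⟨S.card - j - 1, by omega⟩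
  obtain ⟨b, hb⟩ : ∃ b, (U \ S).card = j + b + 1 := ⟨(U \ S).card - j - 1, by omega⟩
  obtain ⟨k, rfl⟩ : ∃ k', k = k' + 3 := ⟨k - 3, by omega⟩
  rw [ha] at b4
  rw [hb] at b5
  have c1 := four_g_le (j + a)
  have c2 := four_g_le (j + b)
  have c3 := le_four_g j
  have c4 : g (2 * (k + 3)) = (k + 3) * (k + 2) := g_two_mul _
  have c5 : j + a + b = 2 * k + 3 := by omega
  have c6 : (j + a) ^ 2 + (j + b) ^ 2 ≤ j ^ 2 + (j + a + b) ^ 2 := by nlinarith [Nat.zero_le (a * b)]
  rw [c5] at c6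
  nlinarith

end Pool.Agent.Lib.MP_1ed8ce_co.SS
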