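import Pool.Agent.Lib.MP_1ed8ce_co.SS.Cnt
import Pool.Agent.Lib.MP_1ed8ce_co.SS.Paths

namespace Pool.Agent.Lib.MP_1ed8ce_co.SS

open Finset
open scoped Classical

variable {V : Type} [Fintype V] [DecidableEq V] {G : SimpleGraph V}

theorem gap_pre {U : Finset V} {f : ℕ → V} {n m : ℕ} (h : Pth G U f n) (hm : m ≤ n) :
    Pth G U f m :=
  ⟨fun i hi => h.1 i (by omega), fun i j hi hj => h.2.1 i j (by omega) (by omega),
    fun i hi => h.2.2 i (by omega)⟩

theorem gap_join {U : Finset V} {f q : ℕ → V} {m n : ℕ} (hf : Pth G U f m) (hq : Pth G U q n)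
    (hd : ∀ i j, i < m → j < n → f i ≠ q j) (hm : 2 ≤ m) (hn : 1 ≤ n)
    (h1 : G.Adj (f (m - 1)) (q 0)) (h2 : G.Adj (q (n - 1)) (f 0)) : Cyc G U (m + n) := by
  refine ⟨_, by omega, hf.app hq hd (fun _ _ => h1), ?_⟩
  have e1 : ¬ (m + n - 1 < m) := by omega
  have e2 : m + n - 1 - m = n - 1 := by omega
  have e3 : 0 < m := by omega
  simp only [e1, e3, if_true, if_false, e2]
  exact h2

/-- An arc of the cycle closed up by a path outside the cycle is not longer than the cycle. -/
theorem gap_arc {U : Finset V} {f q : ℕ → V} {c n : ℕ} (hf : CycF G U f c) (hl : NoLong G U c)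
    (hq : Pth G U q n) (hn : 1 ≤ n) (hd : ∀ j, j < n → q j ∉ img f c) {s m : ℕ} (hm : 2 ≤ m)
    (hmc : m ≤ c) (h1 : G.Adj (f ((m - 1 + s) % c)) (q 0))
    (h2 : G.Adj (q (n - 1)) (f ((0 + s) % c))) : m + n ≤ c := by
  by_contra hlt
  have hc : 0 < c := by omega
  refine hl (m + n) (by omega) (gap_join (gap_pre (hf.rot s).2.1 hmc) hq ?_ hm hn h1 h2)
  intro i j _ hj he
  exact hd j hj (mem_img.2 ⟨_, Nat.mod_lt _ hc, he⟩)

theorem gap_deg {U : Finset V} {f : ℕ → V} {n : ℕ} (h : Pth G U f n) (w : V) :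
    deg G (img f n) w = ((range n).filter fun a => G.Adj w (f a)).card := by
  unfold deg
  symm
  refine card_bij (fun a _ => f a) ?_ ?_ ?_
  · intro a ha
    rw [mem_filter, mem_range] at ha
    exact mem_nb.2 ⟨mem_img.2 ⟨a, ha.1, rfl⟩, ha.2⟩
  · intro a ha b hb he
    rw [mem_filter, mem_range] at ha hb
    exact h.2.1 a b ha.1 hb.1 he
  · intro x hx
    obtain ⟨hx1, hx2⟩ := mem_nb.1 hx
    obtain ⟨a, ha, rfl⟩ := mem_img.1 hx1
    exact ⟨a, mem_filter.2 ⟨mem_range.2 ha, hx2⟩, rfl⟩

theorem gap_count {S : Finset ℕ} {lo hi : ℕ} (h : ∀ a ∈ S, lo ≤ a ∧ a ≤ hi)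
    (hc : ∀ a ∈ S, a + 1 ∉ S) : 2 * S.card ≤ hi + 2 - lo := by
  have hd : Disjoint S (S.image (· + 1)) := by
    rw [disjoint_right]
    intro x hx
    obtain ⟨a, ha, rfl⟩ := mem_image.1 hx
    exact hc a ha
  have hs : S ∪ S.image (· + 1) ⊆ Icc lo (hi + 1) := by
    intro x hx
    rw [mem_Icc]
    rcases mem_union.1 hx with hx | hx
    · have := h x hx
      omega
    · obtain ⟨a, ha, rfl⟩ := mem_image.1 hx
      have := h a ha
      omega
  have h1 := card_le_card hs
  rw [card_union_of_disjoint hd, card_image_of_injective _ (add_left_injective 1),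
    Nat.card_Icc] at h1
  omega

/-- The gap count when the far end of the path is adjacent to position `0`. -/
theorem gap_core {U : Finset V} {f q : ℕ → V} {c n : ℕ} (hf : CycF G U f c) (hl : NoLong G U c)
    (hq : Pth G U q n) (hn : 1 ≤ n) (hd : ∀ j, j < n → q j ∉ img f c)
    (h0 : G.Adj (q (n - 1)) (f 0)) (h2 : 2 ≤ deg G (img f c) (q 0)) :
    2 * deg G (img f c) (q 0) + 2 * (n - 1) ≤ c := by
  have hc3 : 3 ≤ c := hf.1
  rw [gap_deg hf.2.1] at h2 ⊢
  set T := (range c).filter fun a => G.Adj (q 0) (f a) with hT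
  have hmem : ∀ a, a ∈ T.erase 0 → a ≠ 0 ∧ a < c ∧ G.Adj (q 0) (f a) := by
    intro a ha
    rw [mem_erase, hT, mem_filter, mem_range] at ha
    exact ha
  have hb : ∀ a ∈ T.erase 0, n + 1 ≤ a ∧ a + 1 + n ≤ c := by
    intro a ha
    obtain ⟨ha0, hac, hadj⟩ := hmem a ha
    constructor
    · have h := gap_arc (s := a) (m := c - a + 1) hf hl hq.rev hn
        (fun j hj => hd _ (by omega)) (by omega) (by omega) ?_ ?_
      · omega
      · have e : (c - a + 1 - 1 + a) % c = 0 := by
          have : c - a + 1 - 1 + a = c := by omega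
          rw [this, Nat.mod_self]
        rw [e]
        simpa using h0.symm
      · have e : (0 + a) % c = a := by rw [Nat.zero_add, Nat.mod_eq_of_lt hac]
        rw [e]
        simpa using hadj
    · refine gap_arc (s := 0) (m := a + 1) hf hl hq hn hd (by omega) (by omega) ?_ ?_
      · have e : (a + 1 - 1 + 0) % c = a := by
          rw [Nat.add_zero, Nat.add_sub_cancel, Nat.mod_eq_of_lt hac]
        rw [e]
        exact hadj.symm
      · simpa using h0
  have hcons : ∀ a ∈ T.erase 0, a + 1 ∉ T.erase 0 := by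
    intro a ha ha'
    obtain ⟨_, hac, hadj⟩ := hmem a ha
    obtain ⟨_, hac', hadj'⟩ := hmem _ ha'
    have h := gap_arc (s := a + 1) (m := c) hf hl (gap_pre hq hn) le_rfl
      (fun j hj => hd _ (by omega)) (by omega) le_rfl ?_ ?_
    · omega
    · have e : (c - 1 + (a + 1)) % c = a := by
        have : c - 1 + (a + 1) = c + a := by omega
        rw [this, Nat.add_mod_left, Nat.mod_eq_of_lt hac]
      rw [e]
      exact hadj.symm
    · have e : (0 + (a + 1)) % c = a + 1 := by rw [Nat.zero_add, Nat.mod_eq_of_lt hac']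
      rw [e]
      exact hadj'
  have hcard : T.card ≤ (T.erase 0).card + 1 := by
    have := pred_card_le_card_erase (s := T) (a := 0)
    omega
  have hne : (T.erase 0).Nonempty := card_pos.1 (by omega)
  obtain ⟨a, ha⟩ := hne
  have hab := hb a ha
  have hk := gap_count (S := T.erase 0) (lo := n + 1) (hi := c - n - 1)
    (fun a ha => by have := hb a ha; omega) hcons
  omega

/-- The two successors in normal position: `f 0` and `f s`. -/
theorem gap_pair {U : Finset V} {f : ℕ → V} {c s : ℕ} (hf : CycF G U f c) (hl : NoLong G U c)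
    {w : V} (hwU : w ∈ U) (hw : w ∉ img f c) (hs : 1 ≤ s) (hsc : s < c)
    (h1 : G.Adj w (f (c - 1))) (h2 : G.Adj w (f (s - 1))) :
    ¬ G.Adj (f 0) (f s) ∧ deg G (img f c) (f 0) + deg G (img f c) (f s) ≤ c := by
  have hc3 : 3 ≤ c := hf.1
  obtain ⟨hU, hi, ha⟩ := hf.2.1
  have hne : ∀ i, i < c → f i ≠ w := fun i h e => hw (mem_img.2 ⟨i, h, e⟩)
  let P : ℕ → V := fun i => if i < s then f i else if i = s then w else f (c + s - i)
  have hP1 : ∀ i, i < s → P i = f i := fun i h => if_pos h
  have hP2 : P s = w := by simp [P]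
  have hP3 : ∀ i, s < i → P i = f (c + s - i) := fun i h => by
    simp only [P]
    rw [if_neg (by omega), if_neg (by omega)]
  have hP : Pth G U P (c + 1) := by
    refine ⟨?_, ?_, ?_⟩
    · intro i h
      rcases lt_trichotomy i s with h' | h' | h'
      · rw [hP1 i h']
        exact hU i (by omega)
      · rw [h', hP2]
        exact hwU
      · rw [hP3 i h']
        exact hU _ (by omega)
    · intro i j h h' he
      rcases lt_trichotomy i s with a | a | a <;> rcases lt_trichotomy j s with b | b | b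
      · rw [hP1 i a, hP1 j b] at he
        exact hi i j (by omega) (by omega) he
      · rw [hP1 i a, b, hP2] at he
        exact absurd he (hne i (by omega))
      · rw [hP1 i a, hP3 j b] at he
        have := hi _ _ (by omega) (by omega) he
        omega
      · rw [hP1 j b, a, hP2] at he
        exact absurd he.symm (hne j (by omega))
      · omega
      · rw [hP3 j b, a, hP2] at he
        exact absurd he.symm (hne _ (by omega))
      · rw [hP3 i a, hP1 j b] at he
        have := hi _ _ (by omega) (by omega) he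
        omega
      · rw [hP3 i a, b, hP2] at he
        exact absurd he (hne _ (by omega))
      · rw [hP3 i a, hP3 j b] at he
        have := hi _ _ (by omega) (by omega) he
        omega
    · intro i h
      rcases lt_trichotomy (i + 1) s with a | a | a
      · rw [hP1 i (by omega), hP1 _ a]
        exact ha i (by omega)
      · rw [hP1 i (by omega), a, hP2]
        have e : i = s - 1 := by omega
        rw [e]
        exact h2.symm
      · rcases Nat.eq_or_lt_of_le (Nat.le_of_lt_succ a) with b | b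
        · rw [hP3 _ a, ← b, hP2]
          have e : c + s - (s + 1) = c - 1 := by omega
          rw [e]
          exact h1
        · rw [hP3 _ a, hP3 _ b]
          have e : c + s - i = c + s - (i + 1) + 1 := by omega
          rw [e]
          exact (ha _ (by omega)).symm
  have e0 : P 0 = f 0 := hP1 0 (by omega)
  have ec : P (c + 1 - 1) = f s := by
    rw [hP3 _ (by omega)]
    congr 1
    omega
  have hsub : img f c ⊆ img P (c + 1) := by
    intro x hx
    obtain ⟨i, h, rfl⟩ := mem_img.1 hx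
    by_cases h' : i < s
    · exact mem_img.2 ⟨i, by omega, hP1 i h'⟩
    · refine mem_img.2 ⟨c + s - i, by omega, ?_⟩
      rw [hP3 _ (by omega)]
      congr 1
      omega
  constructor
  · intro hadj
    refine hl (c + 1) (by omega) ⟨P, by omega, hP, ?_⟩
    rw [e0, ec]
    exact hadj.symm
  · by_contra hlt
    refine hl (c + 1) (by omega) (hP.ore (by omega) ?_)
    rw [e0, ec]
    have a1 := deg_mono (G := G) hsub (f 0)
    have a2 := deg_mono (G := G) hsub (f s)
    omega

theorem gap_pair' {U : Finset V} {f : ℕ → V} {c a b : ℕ} (hf : CycF G U f c)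
    (hl : NoLong G U c) {w : V} (hwU : w ∈ U) (hw : w ∉ img f c) (ha : a < c) (hb : b < c)
    (hab : a ≠ b) (h1 : G.Adj w (f a)) (h2 : G.Adj w (f b)) :
    ¬ G.Adj (f ((a + 1) % c)) (f ((b + 1) % c)) ∧
      deg G (img f c) (f ((a + 1) % c)) + deg G (img f c) (f ((b + 1) % c)) ≤ c := by
  have hc3 : 3 ≤ c := hf.1
  obtain ⟨s, hs1, hsc, hs⟩ : ∃ s, 1 ≤ s ∧ s < c ∧ (s + a = b ∨ s + a = c + b) := by
    rcases Nat.lt_or_gt_of_ne hab with h | h
    · exact ⟨b - a, by omega, by omega, Or.inl (by omega)⟩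
    · exact ⟨c + b - a, by omega, by omega, Or.inr (by omega)⟩
  have e1 : (c - 1 + (a + 1)) % c = a := by
    have : c - 1 + (a + 1) = c + a := by omega
    rw [this, Nat.add_mod_left, Nat.mod_eq_of_lt ha]
  have e2 : (s - 1 + (a + 1)) % c = b := by
    rcases hs with h | h
    · have : s - 1 + (a + 1) = b := by omega
      rw [this, Nat.mod_eq_of_lt hb]
    · have : s - 1 + (a + 1) = c + b := by omega
      rw [this, Nat.add_mod_left, Nat.mod_eq_of_lt hb]
  have e3 : (s + (a + 1)) % c = (b + 1) % c := by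
    rcases hs with h | h
    · have : s + (a + 1) = b + 1 := by omega
      rw [this]
    · have : s + (a + 1) = c + (b + 1) := by omega
      rw [this, Nat.add_mod_left]
  have h := gap_pair (s := s) (hf.rot (a + 1)) hl hwU (by rw [img_rot]; exact hw) hs1 hsc
    (by simpa only [e1] using h1) (by simpa only [e2] using h2)
  rw [img_rot] at h
  simpa only [e3, Nat.zero_add] using h

/-- Gap lemma. Take a longest path `q` of `O'` with `t + 1` vertices, `w = q 0`, so
`deg O' w ≤ t`. The other end has a neighbour on the cycle; rotate it to position 0. A neighbour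
of `w` at position `a ≠ 0` has `t + 2 ≤ a ≤ c - t - 2` (else a longer cycle through `q`), no two
neighbours of `w` are consecutive; so `2 * deg C w + 2 * t ≤ c`. -/
theorem gap_peel {U : Finset V} {f : ℕ → V} {c : ℕ} (hf : CycF G U f c) (hl : NoLong G U c)
    (h2 : ∀ w ∈ U \ img f c, 2 ≤ deg G (img f c) w) {O' : Finset V} (hO : O' ⊆ U \ img f c)
    (hne : O'.Nonempty) : ∃ w ∈ O', 2 * (deg G (img f c) w + deg G O' w) ≤ c := by
  obtain ⟨q, n, hn, hq, hmax⟩ := exists_longest G hne
  have hin : ∀ j, j < n → q j ∈ U \ img f c := fun j hj => hO (hq.1 j hj)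
  have hqU : Pth G U q n := hq.mono (hO.trans sdiff_subset)
  refine ⟨q 0, hq.1 0 (by omega), ?_⟩
  have hdeg : deg G O' (q 0) ≤ n - 1 := by
    have hs : nb G O' (q 0) ⊆ (Ico 1 n).image q := by
      intro x hx
      obtain ⟨hx1, hx2⟩ := mem_nb.1 hx
      obtain ⟨i, h1, h2, rfl⟩ := hq.nb_sub hn hmax hx1 hx2
      exact mem_image.2 ⟨i, mem_Ico.2 ⟨h1, h2⟩, rfl⟩
    have h1 := (card_le_card hs).trans card_image_le
    rw [Nat.card_Ico] at h1
    exact h1
  have hend := h2 _ (hin (n - 1) (by omega))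
  have hpos : (nb G (img f c) (q (n - 1))).Nonempty := card_pos.1 (by unfold deg at hend; omega)
  obtain ⟨x, hx⟩ := hpos
  obtain ⟨hx1, hx2⟩ := mem_nb.1 hx
  obtain ⟨s, hs, rfl⟩ := mem_img.1 hx1
  have h := gap_core (hf.rot s) hl hqU hn
    (fun j hj => by rw [img_rot]; exact (mem_sdiff.1 (hin j hj)).2)
    (by simpa only [Nat.zero_add, Nat.mod_eq_of_lt hs] using hx2)
    (by rw [img_rot]; exact h2 _ (hin 0 (by omega)))
  rw [img_rot] at h
  omega

/-- `A` = successors on the cycle of the neighbours of `w`. For `x = f (a+1)`, `y = f (b+1)` the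
path `x ... f b, w, f a, ... (backwards) ... y` has `c + 1` vertices; an edge `x y` or degree sum
above `c` (`Pth.ore`; `w` is adjacent to neither) gives a cycle of length `c + 1`. -/
theorem gap_succ {U : Finset V} {f : ℕ → V} {c : ℕ} (hf : CycF G U f c) (hl : NoLong G U c)
    {w : V} (hw : w ∈ U \ img f c) :
    ∃ A, A ⊆ img f c ∧ A.card = deg G (img f c) w ∧ (∀ x ∈ A, ∀ y ∈ A, ¬ G.Adj x y) ∧
      ∀ x ∈ A, ∀ y ∈ A, x ≠ y → deg G (img f c) x + deg G (img f c) y ≤ c := by
  have hc3 : 3 ≤ c := hf.1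
  obtain ⟨hwU, hwC⟩ := mem_sdiff.1 hw
  have hmem : ∀ x ∈ ((range c).filter fun a => G.Adj w (f a)).image fun a => f ((a + 1) % c),
      ∃ a, a < c ∧ G.Adj w (f a) ∧ f ((a + 1) % c) = x := by
    intro x hx
    obtain ⟨a, ha, rfl⟩ := mem_image.1 hx
    rw [mem_filter, mem_range] at ha
    exact ⟨a, ha.1, ha.2, rfl⟩
  refine ⟨((range c).filter fun a => G.Adj w (f a)).image fun a => f ((a + 1) % c), ?_, ?_, ?_, ?_⟩
  · intro x hx
    obtain ⟨a, _, _, rfl⟩ := hmem x hx
    exact mem_img.2 ⟨_, Nat.mod_lt _ (by omega), rfl⟩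
  · rw [gap_deg hf.2.1]
    refine card_image_of_injOn ?_
    intro a ha b hb he
    rw [mem_coe, mem_filter, mem_range] at ha hb
    have h := hf.2.1.2.1 _ _ (Nat.mod_lt _ (by omega)) (Nat.mod_lt _ (by omega)) he
    have key : ∀ a, a < c → (a + 1) % c = a + 1 ∨ ((a + 1) % c = 0 ∧ a + 1 = c) := by
      intro a ha
      rcases Nat.eq_or_lt_of_le (Nat.succ_le_of_lt ha) with h | h
      · refine Or.inr ⟨?_, h⟩
        have h' : a + 1 = c := h
        rw [h', Nat.mod_self]
      · exact Or.inl (Nat.mod_eq_of_lt h)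
    have k1 := key a ha.1
    have k2 := key b hb.1
    omega
  · intro x hx y hy
    obtain ⟨a, ha, ha', rfl⟩ := hmem x hx
    obtain ⟨b, hb, hb', rfl⟩ := hmem y hy
    by_cases hab : a = b
    · rw [hab]
      exact G.irrefl
    · exact (gap_pair' hf hl hwU hwC ha hb hab ha' hb').1
  · intro x hx y hy hxy
    obtain ⟨a, ha, ha', rfl⟩ := hmem x hx
    obtain ⟨b, hb, hb', rfl⟩ := hmem y hy
    have hab : a ≠ b := fun h => hxy (by rw [h])
    exact (gap_pair' hf hl hwU hwC ha hb hab ha' hb').2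

end Pool.Agent.Lib.MP_1ed8ce_co.SS
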