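import Pool.Agent.Lib.MP_1ed8ce_co.SS.Wood
import Pool.Agent.Lib.MP_1ed8ce_co.SS.Edw

namespace Pool.Agent.Lib.MP_1ed8ce_co.SS

open Finset
open scoped Classical

variable {V : Type} [Fintype V] [DecidableEq V] {G : SimpleGraph V}

/-- `v` has at most one neighbour in the big clique (`clique_link` of length 2k - 1), so it is
adjacent to all of `Q₂` without `s` and to one `t ∈ Q₁`. If `j = 1` take `{t, v}`. Else `t = s`,
since `t ≠ s` gives the cycle t ... s (length 2k - 2), w, v. -/
theorem two_step {U : Finset V} {k j : ℕ} (hk : 2 ≤ k) (h1 : 1 ≤ j) {v : V} (hv : v ∉ U)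
    (h : Two G U (2 * k) j) (hd : deg G U v = j) (hf : ¬ Cyc G (insert v U) (2 * k + 1)) :
    Two G (insert v U) (2 * k) (j + 1) := by
  obtain ⟨Q₁, Q₂, s, hu, hi, c1, c2, k1, k2, hx⟩ := h
  have hs : s ∈ Q₁ ∩ Q₂ := hi ▸ mem_singleton_self s
  obtain ⟨s1, s2⟩ := mem_inter.1 hs
  have sb1 : Q₁ ⊆ U := hu ▸ subset_union_left
  have sb2 : Q₂ ⊆ U := hu ▸ subset_union_right
  have v1 : v ∉ Q₁ := fun h => hv (sb1 h)
  have v2 : v ∉ Q₂ := fun h => hv (sb2 h)
  have es : ∀ x ∈ Q₁, x ∈ Q₂ → x = s := fun x a b => mem_singleton.1 (hi ▸ mem_inter.2 ⟨a, b⟩)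
  have uq : ∀ a ∈ Q₁, ∀ b ∈ Q₁, G.Adj v a → G.Adj v b → a = b := fun a ha b hb va vb => by
    by_contra ne
    have l1 := (clique_link k1 ha hb ne (l := 2 * k - 1) (by omega) (by omega)).snoc v1 vb.symm
    have l2 := (l1.close (by omega) va).mono (insert_subset_insert v sb1)
    exact hf (by rwa [show 2 * k - 1 + 1 + 1 = 2 * k + 1 by omega] at l2)
  have d1 : deg G Q₁ v ≤ 1 := card_le_one.2 fun a ha b hb =>
    uq a (mem_nb.1 ha).1 b (mem_nb.1 hb).1 (mem_nb.1 ha).2 (mem_nb.1 hb).2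
  have eu : U = Q₁ ∪ Q₂.erase s := by
    rw [← hu]
    ext x
    simp only [mem_union, mem_erase]
    by_cases e : x = s
    · simp [e, s1]
    · simp [e]
  have d2 := deg_union_le (G := G) Q₁ (Q₂.erase s) v
  have d3 := deg_le_card (G := G) (Q₂.erase s) v
  have c3 : (Q₂.erase s).card = j - 1 := by rw [card_erase_of_mem s2, c2]
  rw [← eu, hd] at d2
  have al : ∀ w ∈ Q₂, w ≠ s → G.Adj v w := fun w hw ne => by
    have e : nb G (Q₂.erase s) v = Q₂.erase s :=
      eq_of_subset_of_card_le (filter_subset _ _) (by change _ ≤ deg G _ v; omega)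
    exact (mem_nb.1 (e.symm ▸ mem_erase.2 ⟨ne, hw⟩ : w ∈ nb G (Q₂.erase s) v)).2
  obtain ⟨t, ht⟩ : (nb G Q₁ v).Nonempty := card_pos.1 (by change 0 < deg G _ v; omega)
  obtain ⟨t1, vt⟩ := mem_nb.1 ht
  by_cases ts : t = s
  · subst ts
    refine ⟨Q₁, insert v Q₂, t, by rw [union_insert, hu], by rw [inter_insert_of_notMem v1, hi],
      c1, by rw [card_insert_of_notMem v2, c2], k1, ?_, fun x a y b xy => ?_⟩
    · rw [coe_insert]
      refine k2.insert fun b hb _ => ?_
      by_cases e : b = t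
      · exact e ▸ vt
      · exact al b hb e
    · rcases mem_insert.1 b with rfl | b
      · exact Or.inl (uq x a t t1 xy.symm vt)
      · exact hx x a y b xy
  by_cases hw : ∃ w ∈ Q₂, w ≠ s
  · obtain ⟨w, w2, ws⟩ := hw
    have w1 : w ∉ Q₁ := fun h => ws (es w h w2)
    have l1 := (clique_link k1 t1 s1 ts (l := 2 * k - 2) (by omega) (by omega)).snoc w1
      (k2 s2 w2 ws.symm)
    have l2 := l1.snoc (w := v) (by
      rw [mem_insert, not_or]
      exact ⟨fun e => v2 (e ▸ w2), v1⟩) (al w w2 ws).symm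
    have l3 := (l2.close (by omega) vt).mono
      (insert_subset_insert v (insert_subset (sb2 w2) sb1))
    exact (hf (by rwa [show 2 * k - 2 + 1 + 1 + 1 = 2 * k + 1 by omega] at l3)).elim
  push Not at hw
  have e2 : Q₂ = {s} := eq_singleton_iff_unique_mem.2 ⟨s2, hw⟩
  have j1 : j = 1 := by rw [← c2, e2, card_singleton]
  have e1 : U = Q₁ := by rw [← hu, e2]; exact union_eq_left.2 (singleton_subset_iff.2 s1)
  refine ⟨Q₁, {v, t}, t, ?_, ?_, c1, by rw [card_pair vt.ne, j1], k1, ?_, fun x a y b xy => ?_⟩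
  · rw [union_insert, e1, union_eq_left.2 (singleton_subset_iff.2 t1)]
  · rw [inter_insert_of_notMem v1, inter_singleton_of_mem t1]
  · rw [coe_pair]
    exact SimpleGraph.isClique_pair.2 fun _ => vt
  · rcases mem_insert.1 b with rfl | b
    · exact Or.inl (uq x a t t1 xy.symm vt)
    · exact Or.inr (mem_singleton.1 b)

theorem ws_sq (m : ℕ) : m * m ≤ 4 * g (m + 1) + 1 := by
  rw [g, Nat.add_sub_cancel]
  obtain ⟨y, rfl | rfl⟩ := m.even_or_odd'
  · rw [show (2 * y) ^ 2 = 4 * (y * y) by ring, show 2 * y * (2 * y) = 4 * (y * y) by ring]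
    omega
  · rw [show (2 * y + 1) ^ 2 = 4 * (y * y + y) + 1 by ring,
      show (2 * y + 1) * (2 * y + 1) = 4 * (y * y + y) + 1 by ring]
    omega

/-- Induction on j. `j = 1`: `gm_le_g`, `E2_le`, `clique_of_E2` (second clique one vertex). Step:
a vertex of degree below j is deleted (`gm_insert`, `g_succ`, `E2_insert`, `two_step`). Else
`mpp`, or (fewer edges) `edwards`, `disc`. -/
theorem wstar {k : ℕ} (hk : 3 ≤ k) (j : ℕ) (U : Finset V) (h1 : 1 ≤ j) (hj : j ≤ 2 * k)
    (hc : U.card + 1 = 2 * k + j) (hf : ¬ Cyc G U (2 * k + 1)) :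
    gm G U ≤ 2 * (g (2 * k) + g j) ∧ (gm G U = 2 * (g (2 * k) + g j) →
      E2 G U ≤ 2 * k * (2 * k - 1) + j * (j - 1) ∧
        (E2 G U = 2 * k * (2 * k - 1) + j * (j - 1) → Two G U (2 * k) j)) := by
  induction j, h1 using Nat.le_induction generalizing U with
  | base =>
    have c : U.card = 2 * k := by omega
    have a1 := gm_le_g (G := G) U
    have a2 := E2_le (G := G) U
    rw [c] at a1 a2
    refine ⟨by omega, fun _ => ⟨by omega, fun e => ?_⟩⟩
    obtain ⟨s, hs⟩ : U.Nonempty := card_pos.1 (by omega)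
    refine ⟨U, {s}, s, union_eq_left.2 (singleton_subset_iff.2 hs), inter_singleton_of_mem hs, c,
      card_singleton s, clique_of_E2 (by rw [c]; omega), ?_,
      fun x _ y b _ => Or.inr (mem_singleton.1 b)⟩
    rw [coe_singleton]
    exact SimpleGraph.isClique_singleton s
  | succ j h1 ih =>
    have q : (j + 1) * (j + 1 - 1) = j * (j - 1) + 2 * j := by
      obtain ⟨i, rfl⟩ := Nat.exists_eq_add_of_le' h1
      simp only [Nat.add_sub_cancel]
      ring
    by_cases hv : ∃ v ∈ U, deg G U v ≤ j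
    · obtain ⟨v, vU, hv⟩ := hv
      have c := card_erase_add_one vU
      obtain ⟨i1, i2⟩ := ih (U.erase v) (by omega) (by omega)
        fun h => hf (h.mono (erase_subset v U))
      have a1 := gm_insert (G := G) (notMem_erase v U)
      have a2 := E2_erase (G := G) vU
      have a3 := g_succ j
      rw [insert_erase vU, deg_erase_self] at a1
      refine ⟨by omega, fun e => ?_⟩
      obtain ⟨i3, i4⟩ := i2 (by omega)
      refine ⟨by omega, fun e' => ?_⟩
      have := two_step (by omega) h1 (notMem_erase v U) (i4 (by omega))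
        (by rw [deg_erase_self]; omega) (by rwa [insert_erase vU])
      rwa [insert_erase vU] at this
    push Not at hv
    by_cases he : 2 * k * (2 * k - 1) + (j + 1) * (j + 1 - 1) ≤ E2 G U
    · have := mpp hk (by omega) hj hc hv hf he
      exact ⟨this.le, fun e => (this.ne e).elim⟩
    refine ⟨?_, fun _ => ⟨by omega, fun e => (he e.ge).elim⟩⟩
    by_cases hn : Conn G U
    · have a1 := edwards hn
      have a2 := ws_sq j
      have a3 := g_two_mul k
      have a4 : 2 * k * (2 * k - 1) = 4 * (k * (k - 1)) + 2 * k := by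
        obtain ⟨i, rfl⟩ := Nat.exists_eq_add_of_le' (show 1 ≤ k by omega)
        rw [show 2 * (i + 1) - 1 = 2 * i + 1 by omega, Nat.add_sub_cancel]
        ring
      have a5 : (j + 1) * (j + 1 - 1) = j * j + j := by
        rw [Nat.add_sub_cancel]
        ring
      omega
    · exact (disc hk hj hc hv hn).le

/-- At most 2k vertices: `gm_le_g`. Else `wstar` with `j < b`. -/
theorem wsmall {k b : ℕ} (hk : 3 ≤ k) (h3 : 3 ≤ b) (hb : b ≤ 2 * k) {U : Finset V}
    (hc : U.card + 2 ≤ 2 * k + b) (hf : ¬ Cyc G U (2 * k + 1)) :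
    gm G U < 2 * (g (2 * k) + g b) := by
  by_cases h : U.card ≤ 2 * k
  · have a1 := gm_le_g (G := G) U
    have a2 := g_mono h
    have a3 := g_mono h3
    have a4 : g 3 = 1 := by simp [g]
    omega
  · have a1 := (wstar hk (U.card + 1 - 2 * k) U (by omega) (by omega) (by omega) hf).1
    have a2 := g_succ (U.card + 1 - 2 * k)
    have a3 := g_mono (show U.card + 1 - 2 * k + 1 ≤ b by omega)
    omega

end Pool.Agent.Lib.MP_1ed8ce_co.SS
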