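import Pool.Agent.Lib.MP_1ed8ce_co.SS.WrC

namespace Pool.Agent.Lib.MP_1ed8ce_co.SS

open Finset
open scoped Classical

variable {V : Type} [Fintype V] [DecidableEq V] {G : SimpleGraph V}

/-! k = 3, p = 6. By `detour` the distance of an anchor of w and an anchor of w' joined in `Zs`
by a path with s edges avoids: s = 1: 4, 5; s = 2: 3, 6; s = 3: 2; s = 4: 1. -/

variable {H : Finset V} {col : V → Bool} {f : ℕ → V}

omit [Fintype V] [DecidableEq V] in
theorem mem_an {w : V} {p i : ℕ} : i ∈ an G f p w ↔ i ≤ p ∧ G.Adj w (f i) := by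
  simp [an]

theorem SW.dist (h : SW G 3 H col f 6) {w w' : V} {s i j : ℕ} (hl : Link G (Zs H f 6) w w' s)
    (hi : i ∈ an G f 6 w) (hj : j ∈ an G f 6 w') :
    i ≤ 6 ∧ j ≤ 6 ∧ (i < j → j - i + s ≠ 5 ∧ ((j - i + s) % 2 = 0 → j - i ≤ s + 2)) ∧
      (j < i → i - j + s ≠ 5 ∧ ((i - j + s) % 2 = 0 → i - j ≤ s + 2)) := by
  rw [mem_an] at hi hj
  refine ⟨hi.1, hj.1, fun hij => ?_, fun hij => ?_⟩
  · have := h.detour (by norm_num) hl hi.2 hj.2 hij hj.1
    rw [Nat.even_iff] at this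
    omega
  · have := h.detour (by norm_num) hl.symm hj.2 hi.2 hij hi.1
    rw [Nat.even_iff] at this
    omega

theorem SW.four (h : SW G 3 H col f 6) {w : V} (hw : w ∈ Z0 G H f 6)
    (h4 : deg G (Bs H f 6) w = 4) : ∃ a, a ≤ 3 ∧ ∀ i, a ≤ i → i ≤ a + 3 → i ∈ an G f 6 w := by
  have c4 := (h.alpha_le le_rfl hw).2 h4
  have hd := (h.heavy hw (by omega)).1
  obtain ⟨a, ha, hm⟩ := exists_min_image (an G f 6 w) id (card_pos.1 (by omega))
  have e : an G f 6 w = Icc a (a + 3) := eq_of_subset_of_card_le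
    (fun i hi => mem_Icc.2 ⟨hm i hi, hd a ha i hi⟩) (by rw [Nat.card_Icc]; omega)
  have := (mem_an.1 (e ▸ mem_Icc.2 ⟨by omega, le_rfl⟩ : a + 3 ∈ an G f 6 w)).1
  exact ⟨a, by omega, fun i h1 h2 => e ▸ mem_Icc.2 ⟨h1, h2⟩⟩

theorem SW.hv3 (h : SW G 3 H col f 6) {w : V} (hw : w ∈ Z0 G H f 6)
    (h3 : 3 ≤ deg G (Bs H f 6) w) : ∃ x ∈ an G f 6 w, ∃ y ∈ an G f 6 w, ∃ z ∈ an G f 6 w,
      (x < y ∧ y < z ∧ z ≤ x + 3) ∨ (x = 1 ∧ y = 4 ∧ z = 4) ∨ (x = 2 ∧ y = 5 ∧ z = 5) := by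
  obtain ⟨hd, h1 | h1 | h1⟩ := h.heavy hw h3
  · obtain ⟨a, ha, b, hb, c, hc, ab, ac, bc⟩ := two_lt_card.1 h1
    have := hd a ha b hb
    have := hd b hb a ha
    have := hd a ha c hc
    have := hd c hc a ha
    have := hd b hb c hc
    have := hd c hc b hb
    rcases lt_or_gt_of_ne ab with e1 | e1 <;> rcases lt_or_gt_of_ne ac with e2 | e2 <;>
      rcases lt_or_gt_of_ne bc with e3 | e3
    · exact ⟨a, ha, b, hb, c, hc, by omega⟩
    · exact ⟨a, ha, c, hc, b, hb, by omega⟩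
    · omega
    · exact ⟨c, hc, a, ha, b, hb, by omega⟩
    · exact ⟨b, hb, a, ha, c, hc, by omega⟩
    · omega
    · exact ⟨b, hb, c, hc, a, ha, by omega⟩
    · exact ⟨c, hc, b, hb, a, ha, by omega⟩
  · exact ⟨1, by simp [h1], 4, by simp [h1], 4, by simp [h1], by simp⟩
  · exact ⟨2, by simp [h1], 5, by simp [h1], 5, by simp [h1], by simp⟩

/-- Four anchors are four consecutive positions; two such sets have a distance 3. -/
theorem SW.q1 (h : SW G 3 H col f 6) {w w' : V} (hw : w ∈ Z0 G H f 6) (hw' : w' ∈ Z0 G H f 6)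
    (h4 : deg G (Bs H f 6) w = 4) (h4' : deg G (Bs H f 6) w' = 4) :
    ¬ Link G (Zs H f 6) w w' 2 ∧ (Link G (Zs H f 6) w w' 1 →
      ¬ Link G (Zs H f 6) w w' 3 ∧ ¬ Link G (Zs H f 6) w w' 4) := by
  obtain ⟨a, a3, ha⟩ := h.four hw h4
  obtain ⟨b, b3, hb⟩ := h.four hw' h4'
  have key : ∀ d, 1 ≤ d → d ≤ 3 → ¬ Link G (Zs H f 6) w w' (5 - d) := fun d d1 d3 l => by
    rcases le_total a b with e | e
    · rcases le_total (a + d) b with e' | e'
      · have := h.dist l (ha (b - d) (by omega) (by omega)) (hb b le_rfl (by omega))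
        omega
      · have := h.dist l (ha a le_rfl (by omega)) (hb (a + d) e' (by omega))
        omega
    · rcases le_total (b + d) a with e' | e'
      · have := h.dist l (ha a le_rfl (by omega)) (hb (a - d) (by omega) (by omega))
        omega
      · have := h.dist l (ha (b + d) e' (by omega)) (hb b le_rfl (by omega))
        omega
  exact ⟨key 3 (by norm_num) le_rfl, fun _ =>
    ⟨key 2 (by norm_num) (by norm_num), key 1 le_rfl (by norm_num)⟩⟩

/-- Two heavy vertices: distances only 0, 4, 5 is impossible. -/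
theorem SW.q2 (h : SW G 3 H col f 6) {w w' : V} (hw : w ∈ Z0 G H f 6) (hw' : w' ∈ Z0 G H f 6)
    (h3 : 3 ≤ deg G (Bs H f 6) w) (h3' : 3 ≤ deg G (Bs H f 6) w')
    (l2 : Link G (Zs H f 6) w w' 2) (l3 : Link G (Zs H f 6) w w' 3)
    (l4 : Link G (Zs H f 6) w w' 4) : False := by
  obtain ⟨x, hx, y, hy, z, hz, e⟩ := h.hv3 hw h3
  obtain ⟨j, hj, -⟩ := h.hv3 hw' h3'
  have key : ∀ i ∈ an G f 6 w, i ≤ 6 ∧ j ≤ 6 ∧
      (i = j ∨ i + 4 = j ∨ i + 5 = j ∨ j + 4 = i ∨ j + 5 = i) := fun i hi => by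
    have := h.dist l2 hi hj
    have := h.dist l3 hi hj
    have := h.dist l4 hi hj
    omega
  have := key x hx
  have := key y hy
  have := key z hz
  omega

/-- Two heavy vertices: distances only 0, 1 is impossible. -/
theorem SW.q3 (h : SW G 3 H col f 6) {w w' : V} (hw : w ∈ Z0 G H f 6) (hw' : w' ∈ Z0 G H f 6)
    (h3 : 3 ≤ deg G (Bs H f 6) w) (h3' : 3 ≤ deg G (Bs H f 6) w')
    (l1 : Link G (Zs H f 6) w w' 1) (l2 : Link G (Zs H f 6) w w' 2)
    (l3 : Link G (Zs H f 6) w w' 3) : False := by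
  obtain ⟨x, hx, y, -, z, hz, e⟩ := h.hv3 hw h3
  obtain ⟨x', hx', y', -, z', hz', e'⟩ := h.hv3 hw' h3'
  have key : ∀ i ∈ an G f 6 w, ∀ j ∈ an G f 6 w', i ≤ j + 1 ∧ j ≤ i + 1 := fun i hi j hj => by
    have := h.dist l1 hi hj
    have := h.dist l2 hi hj
    have := h.dist l3 hi hj
    omega
  have := key x hx x' hx'
  have := key x hx z' hz'
  have := key z hz x' hx'
  have := key z hz z' hz'
  omega

/-- All distances are 0, so each has one anchor, the same i, and w has a core neighbour x off the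
path; `alpha` for w against `reachL`, `reachR` with s = 1 from w' to w. -/
theorem SW.q5 (h : SW G 3 H col f 6) {w w' : V} (hw : w ∈ Z0 G H f 6) (hw' : w' ∈ Z0 G H f 6)
    (h2 : 2 ≤ deg G (Bs H f 6) w) (h2' : 2 ≤ deg G (Bs H f 6) w')
    (l1 : Link G (Zs H f 6) w w' 1) (l2 : Link G (Zs H f 6) w w' 2)
    (l3 : Link G (Zs H f 6) w w' 3) (l4 : Link G (Zs H f 6) w w' 4) : False := by
  have key : ∀ i ∈ an G f 6 w, ∀ j ∈ an G f 6 w', i = j := fun i hi j hj => by
    obtain ⟨i6, j6, a1, b1⟩ := h.dist l1 hi hj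
    obtain ⟨-, -, a2, b2⟩ := h.dist l2 hi hj
    obtain ⟨-, -, a3, b3⟩ := h.dist l3 hi hj
    obtain ⟨-, -, a4, b4⟩ := h.dist l4 hi hj
    rcases lt_trichotomy i j with e | e | e
    · have := a1 e
      have := a2 e
      have := (a3 e).1
      have := (a4 e).1
      clear a1 a2 a3 a4 b1 b2 b3 b4
      omega
    · exact e
    · have := b1 e
      have := b2 e
      have := (b3 e).1
      have := (b4 e).1
      clear a1 a2 a3 a4 b1 b2 b3 b4
      omega
  obtain ⟨j, hj⟩ : (an G f 6 w').Nonempty := card_pos.1 (by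
    rcases h.alpha le_rfl hw' with e | ⟨x, -, -, -, -, e, -⟩ <;> omega)
  have c1 : (an G f 6 w).card ≤ 1 :=
    card_le_one.2 fun a ha b hb => (key a ha j hj).trans (key b hb j hj).symm
  rcases h.alpha le_rfl hw with e | ⟨x, xH, x0, x6, wx, e, hx⟩
  · omega
  obtain ⟨i, hi⟩ : (an G f 6 w).Nonempty := card_pos.1 (by omega)
  obtain rfl := key i hi j hj
  obtain ⟨i0, i6, hc⟩ := hx i hi
  have r1 := h.reachL l1.symm (mem_an.1 hj).2 wx xH x0 i6
  have r2 := h.reachR l1.symm (mem_an.1 hj).2 wx xH x6 i0 i6.le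
  have e1 : pc col f (i + 1) = !pc col f i := by
    rcases Nat.mod_two_eq_zero_or_one i with e2 | e2 <;> simp [pc, Nat.add_mod, e2]
  rw [e1] at r1 r2
  rcases hc with ⟨h1, h2⟩ | ⟨h1, h2⟩
  · rcases r1 with r1 | r1
    · rw [h1] at r1
      simp at r1
    · omega
  · rcases r2 with r2 | r2
    · rw [Bool.not_not] at r2
      exact h1 r2.symm
    · omega

theorem link_three {U : Finset V} {a b c d : V} (ha : a ∈ U) (hb : b ∈ U) (hc : c ∈ U)
    (hd : d ∈ U) (hab : G.Adj a b) (hbc : G.Adj b c) (hcd : G.Adj c d) (hac : a ≠ c) (had : a ≠ d)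
    (hbd : b ≠ d) : Link G U a d 3 := by
  have l := (link_two (U := {a, b, c}) (by simp) (by simp) (by simp) hab hbc hac).snoc
    (w := d) (by simp [had.symm, hbd.symm, hcd.ne.symm]) hcd
  exact l.mono (by simp [insert_subset_iff, *])

theorem link_four {U : Finset V} {a b c d e : V} (ha : a ∈ U) (hb : b ∈ U) (hc : c ∈ U)
    (hd : d ∈ U) (he : e ∈ U) (hab : G.Adj a b) (hbc : G.Adj b c) (hcd : G.Adj c d)
    (hde : G.Adj d e) (hac : a ≠ c) (had : a ≠ d) (hbd : b ≠ d) (hae : a ≠ e) (hbe : b ≠ e)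
    (hce : c ≠ e) : Link G U a e 4 := by
  have l := (link_three (U := {a, b, c, d}) (by simp) (by simp) (by simp) (by simp) hab hbc hcd hac
    had hbd).snoc (w := e) (by simp [hae.symm, hbe.symm, hce.symm, hde.ne.symm]) hde
  exact l.mono (by simp [insert_subset_iff, *])

theorem nb_sub_sdiff {U T : Finset V} {u : V} (hn : ∀ x ∈ T, ¬ G.Adj u x) : nb G U u ⊆ U \ T :=
  fun x hx => mem_sdiff.2 ⟨(mem_nb.1 hx).1, fun h => hn x h (mem_nb.1 hx).2⟩

theorem deg_add_le {U T : Finset V} {u : V} (hT : T ⊆ U) (hn : ∀ x ∈ T, ¬ G.Adj u x) :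
    deg G U u + T.card ≤ U.card := by
  have h1 := card_le_card (nb_sub_sdiff (U := U) hn)
  have h2 := card_sdiff_add_card_eq_card hT
  unfold deg
  omega

theorem adj_of_full {U T : Finset V} {u : V} (hT : T ⊆ U) (hn : ∀ x ∈ T, ¬ G.Adj u x)
    (hc : U.card ≤ deg G U u + T.card) {x : V} (hx : x ∈ U) (hx' : x ∉ T) : G.Adj u x := by
  have h2 := card_sdiff_add_card_eq_card hT
  have e := eq_of_subset_of_card_le (nb_sub_sdiff (U := U) hn) (by unfold deg at hc; omega)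
  exact (mem_nb.1 (e ▸ mem_sdiff.2 ⟨hx, hx'⟩ : x ∈ nb G U u)).2

theorem adj_of_full2 {U : Finset V} {u v : V} (hu : u ∈ U) (hv : v ∈ U) (ne : u ≠ v)
    (hn : ¬ G.Adj u v) (hc : U.card ≤ deg G U u + 2) {x : V} (hx : x ∈ U) (h1 : x ≠ u)
    (h2 : x ≠ v) : G.Adj u x :=
  adj_of_full (T := {u, v}) (by simp [insert_subset_iff, hu, hv]) (by simp [hn])
    (by rwa [card_pair ne]) hx (by simp [h1, h2])

theorem deg_add_two {U : Finset V} {u v : V} (hu : u ∈ U) (hv : v ∈ U) (ne : u ≠ v)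
    (hn : ¬ G.Adj u v) : deg G U u + 2 ≤ U.card := by
  have := deg_add_le (G := G) (U := U) (T := {u, v}) (u := u)
    (by simp [insert_subset_iff, hu, hv]) (by simp [hn])
  rwa [card_pair ne] at this

theorem exists_nb {U T : Finset V} {u : V} (h : T.card < deg G U u) :
    ∃ x ∈ U, G.Adj u x ∧ x ∉ T := by
  obtain ⟨x, h1, h2⟩ := exists_mem_notMem_of_card_lt_card h
  exact ⟨x, (mem_nb.1 h1).1, (mem_nb.1 h1).2, h2⟩

/-- Suppose all sums are at least 6; degrees in Z' are at least 2 (`alpha_le`). 3 vertices: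
triangle, `q1`. 4 vertices: K4 by `q3`, else a non-adjacent pair with a common neighbour, `q1`.
5 vertices: at most one vertex of degree 2 (`q1`); K5 by `q5`; else a vertex of least degree and
a non-neighbour are joined by paths with 2, 3, 4 edges, `q2`. -/
theorem SW.dg (h : SW G 3 H col f 6) {Z' : Finset V} (hZ : Z' ⊆ Z0 G H f 6) (hne : Z'.Nonempty)
    (h5 : Z'.card ≤ 5) : ∃ w ∈ Z', deg G (Bs H f 6) w + deg G Z' w ≤ 5 := by
  by_contra hc
  push Not at hc
  have zs : Z' ⊆ Zs H f 6 := fun w hw => (mem_filter.1 (hZ hw)).1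
  have a4 : ∀ w ∈ Z', deg G (Bs H f 6) w ≤ 4 := fun w hw => (h.alpha_le le_rfl (hZ hw)).1
  have d2 : ∀ w ∈ Z', 2 ≤ deg G Z' w := fun w hw => by
    have := hc w hw
    have := a4 w hw
    omega
  have e4 : ∀ w ∈ Z', deg G Z' w ≤ 2 → deg G (Bs H f 6) w = 4 := fun w hw e => by
    have := hc w hw
    have := a4 w hw
    omega
  have e3 : ∀ w ∈ Z', deg G Z' w ≤ 3 → 3 ≤ deg G (Bs H f 6) w := fun w hw e => by
    have := hc w hw
    omega
  have com : ∀ w ∈ Z', ∀ w' ∈ Z', w ≠ w' → deg G Z' w ≤ 2 → deg G Z' w' ≤ 2 → ∀ u ∈ Z',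
      G.Adj w u → ¬ G.Adj w' u := fun w hw w' hw' ne h1 h2 u hu a1 a2 =>
    (h.q1 (hZ hw) (hZ hw') (e4 w hw h1) (e4 w' hw' h2)).1
      ((link_two hw hu hw' a1 a2.symm ne).mono zs)
  by_cases hq : G.IsClique (Z' : Set V)
  · obtain ⟨w, hw⟩ := hne
    obtain ⟨w', hw', a, -⟩ := exists_nb (G := G) (U := Z') (T := ∅) (u := w)
      (by have := d2 w hw; simp; omega)
    have l : ∀ s, 1 ≤ s → s + 1 ≤ Z'.card → Link G (Zs H f 6) w w' s := fun s h1 h2 =>
      (clique_link hq hw hw' a.ne h1 h2).mono zs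
    have b1 := deg_lt_card (G := G) hw
    have b2 := deg_lt_card (G := G) hw'
    have b3 := d2 w hw
    have b4 := hc w hw
    have b5 := hc w' hw'
    rcases (by omega : Z'.card = 3 ∨ Z'.card = 4 ∨ Z'.card = 5) with e | e | e
    · exact (h.q1 (hZ hw) (hZ hw') (e4 w hw (by omega)) (e4 w' hw' (by omega))).1
        (l 2 (by omega) (by omega))
    · exact h.q3 (hZ hw) (hZ hw') (by omega) (by omega) (l 1 le_rfl (by omega))
        (l 2 (by omega) (by omega)) (l 3 (by omega) (by omega))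
    · exact h.q5 (hZ hw) (hZ hw') (by omega) (by omega) (l 1 le_rfl (by omega))
        (l 2 (by omega) (by omega)) (l 3 (by omega) (by omega)) (l 4 (by omega) (by omega))
  obtain ⟨x, hx, y, hy, xy, nxy⟩ : ∃ x ∈ Z', ∃ y ∈ Z', x ≠ y ∧ ¬ G.Adj x y := by
    by_contra h1
    push Not at h1
    exact hq fun x hx y hy ne => h1 x hx y hy ne
  have nyx : ¬ G.Adj y x := fun a => nxy a.symm
  have b1 := deg_add_two hx hy xy nxy
  have b2 := deg_add_two hy hx xy.symm nyx
  have b3 := d2 x hx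
  rcases (by omega : Z'.card = 4 ∨ Z'.card = 5) with e | e
  · obtain ⟨u, hu, a, -⟩ := exists_nb (G := G) (U := Z') (T := ∅) (u := x) (by simp; omega)
    exact com x hx y hy xy (by omega) (by omega) u hu a (adj_of_full2 hy hx xy.symm nyx
      (by have := d2 y hy; omega) hu (fun e => nxy (e ▸ a)) a.ne')
  by_cases t2 : ∃ w ∈ Z', deg G Z' w ≤ 2
  swap
  · push Not at t2
    have fx := fun {u : V} => adj_of_full2 (x := u) hx hy xy nxy (by have := t2 x hx; omega)
    have fy := fun {u : V} => adj_of_full2 (x := u) hy hx xy.symm nyx (by have := t2 y hy; omega)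
    obtain ⟨a, ha, xa, -⟩ := exists_nb (G := G) (U := Z') (T := ∅) (u := x) (by simp; omega)
    have ay : a ≠ y := fun e => nxy (e ▸ xa)
    have ya := fy ha ay xa.ne'
    obtain ⟨b, hb, ab, nb⟩ := exists_nb (G := G) (U := Z') (T := {x, y}) (u := a)
      (by rw [card_pair xy]; exact t2 a ha)
    simp only [mem_insert, mem_singleton, not_or] at nb
    have xb := fx hb nb.1 nb.2
    have yb := fy hb nb.2 nb.1
    obtain ⟨c, hc', nc⟩ := exists_mem_notMem_of_card_lt_card (s := {x, y, a, b}) (t := Z')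
      (lt_of_le_of_lt card_le_four (by omega))
    simp only [mem_insert, mem_singleton, not_or] at nc
    have yc := fy hc' nc.2.1 nc.1
    refine h.q2 (hZ hx) (hZ hy) (e3 x hx (by omega)) (e3 y hy (by omega))
      ((link_two hx ha hy xa ya.symm xy).mono zs)
      ((link_three hx ha hb hy xa ab yb.symm xb.ne xy ay).mono zs) (Link.mono ?_ zs)
    by_cases cb : G.Adj c b
    · exact link_four hx ha hb hc' hy xa ab cb.symm yc.symm xb.ne (Ne.symm nc.1)
        (Ne.symm nc.2.2.1) xy ay nb.2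
    by_cases ca : G.Adj c a
    · exact link_four hx hb ha hc' hy xb ab.symm ca.symm yc.symm xa.ne (Ne.symm nc.1)
        (Ne.symm nc.2.2.2) xy nb.2 ay
    have h1 := deg_add_le (G := G) (U := Z') (T := {c, a, b}) (u := c)
      (by simp [insert_subset_iff, ha, hb, hc']) (by simp [ca, cb])
    rw [card_eq_three.2 ⟨c, a, b, nc.2.2.1, nc.2.2.2, ab.ne, rfl⟩] at h1
    have := t2 c hc'
    omega
  obtain ⟨w, hw, w2⟩ := t2
  have w3 := d2 w hw
  by_cases t3 : ∃ w' ∈ Z', w ≠ w' ∧ deg G Z' w' ≤ 2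
  · obtain ⟨w', hw', ne, w2'⟩ := t3
    have cm := com w hw w' hw' ne w2 w2'
    have w3' := d2 w' hw'
    obtain ⟨u, hu, wu, nu⟩ := exists_nb (G := G) (U := Z') (T := {w'}) (u := w) (by simp; omega)
    rw [mem_singleton] at nu
    have n1 := cm u hu wu
    by_cases ad : G.Adj w w'
    swap
    · obtain ⟨v, hv, wv, nv⟩ := exists_nb (G := G) (U := Z') (T := {u}) (u := w) (by simp; omega)
      rw [mem_singleton] at nv
      have n2 := cm v hv wv
      have vw : v ≠ w' := fun e => ad (e ▸ wv)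
      have h1 := deg_add_le (G := G) (U := Z') (T := {w', w, u, v}) (u := w')
        (by simp [insert_subset_iff, hw, hw', hu, hv]) (by simp [n1, n2, G.adj_comm w' w, ad])
      rw [card_insert_of_notMem (by simp [ne.symm, Ne.symm nu, vw.symm]),
        card_eq_three.2 ⟨w, u, v, wu.ne, wv.ne, Ne.symm nv, rfl⟩] at h1
      omega
    obtain ⟨u', hu', wu', nu'⟩ := exists_nb (G := G) (U := Z') (T := {w}) (u := w')
      (by simp; omega)
    rw [mem_singleton] at nu'
    have n2 : ¬ G.Adj w u' := fun a => cm u' hu' a wu'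
    have uu : u ≠ u' := fun e => n2 (e ▸ wu)
    have q := (h.q1 (hZ hw) (hZ hw') (e4 w hw w2) (e4 w' hw' w2')).2
      ((Link.edge ad).mono (by simp [insert_subset_iff, zs hw, zs hw']))
    by_cases au : G.Adj u u'
    · exact q.1 ((link_three hw hu hu' hw' wu au wu'.symm (Ne.symm nu') ne nu).mono zs)
    obtain ⟨v, hv, uv, nv⟩ := exists_nb (G := G) (U := Z') (T := {w}) (u := u)
      (by have := d2 u hu; simp; omega)
    rw [mem_singleton] at nv
    have vu : v ≠ u' := fun e => au (e ▸ uv)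
    have vw : v ≠ w' := fun e => n1 (e ▸ uv.symm)
    have a5 : G.Adj u' v := adj_of_full (U := Z') (T := {u', w, u})
      (by simp [insert_subset_iff, hw, hu, hu']) (by simp [G.adj_comm u', n2, au])
      (by
        rw [card_eq_three.2 ⟨u', w, u, nu', uu.symm, wu.ne, rfl⟩]
        have := d2 u' hu'
        omega) hv (by simp [vu, nv, uv.ne'])
    exact q.2 ((link_four hw hu hv hu' hw' wu uv a5.symm wu'.symm (Ne.symm nv) (Ne.symm nu') uu ne
      nu vw).mono zs)
  push Not at t3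
  obtain ⟨a, ha, b, hb, ab⟩ := one_lt_card.1 (show 1 < (nb G Z' w).card from w3)
  rw [mem_nb] at ha hb
  have c2 : 1 < (Z' \ insert w (nb G Z' w)).card := by
    have h1 := le_card_sdiff (insert w (nb G Z' w)) Z'
    have h2 := card_insert_le w (nb G Z' w)
    unfold deg at w2
    omega
  obtain ⟨v, hv, c, hc', vc⟩ := one_lt_card.1 c2
  simp only [mem_sdiff, mem_insert, mem_nb, not_or, not_and] at hv hc'
  have nv : ¬ G.Adj v w := fun a => hv.2.2 hv.1 a.symm
  have nc : ¬ G.Adj c w := fun a => hc'.2.2 hc'.1 a.symm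
  have fv := fun {u : V} => adj_of_full2 (x := u) hv.1 hw hv.2.1 nv
    (by have := t3 v hv.1 (Ne.symm hv.2.1); omega)
  have fc := fun {u : V} => adj_of_full2 (x := u) hc'.1 hw hc'.2.1 nc
    (by have := t3 c hc'.1 (Ne.symm hc'.2.1); omega)
  have av : a ≠ v := fun e => nv (e ▸ ha.2.symm)
  have ac : a ≠ c := fun e => nc (e ▸ ha.2.symm)
  have bv : b ≠ v := fun e => nv (e ▸ hb.2.symm)
  have bc : b ≠ c := fun e => nc (e ▸ hb.2.symm)
  have b4 := deg_add_two hv.1 hw hv.2.1 nv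
  exact h.q2 (hZ hw) (hZ hv.1) (e3 w hw (by omega)) (e3 v hv.1 (by omega))
    ((link_two hw ha.1 hv.1 ha.2 (fv ha.1 av ha.2.ne').symm (Ne.symm hv.2.1)).mono zs)
    ((link_three hw ha.1 hc'.1 hv.1 ha.2 (fc ha.1 ac ha.2.ne').symm
      (fc hv.1 vc hv.2.1) (Ne.symm hc'.2.1) (Ne.symm hv.2.1) av).mono zs)
    ((link_four hw ha.1 hc'.1 hb.1 hv.1 ha.2 (fc ha.1 ac ha.2.ne').symm (fc hb.1 bc hb.2.ne')
      (fv hb.1 bv hb.2.ne').symm (Ne.symm hc'.2.1) hb.2.ne ab (Ne.symm hv.2.1) av vc.symm).mono zs)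

end Pool.Agent.Lib.MP_1ed8ce_co.SS
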