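import Pool.Agent.Lib.MP_1ed8ce_co.SS.WrB
import Pool.Agent.Lib.MP_1ed8ce_co.SS.WrD

namespace Pool.Agent.Lib.MP_1ed8ce_co.SS

open Finset
open scoped Classical

variable {V : Type} [Fintype V] [DecidableEq V] {G : SimpleGraph V}

variable {k p : ℕ} {H : Finset V} {col : V → Bool} {f : ℕ → V}

theorem Z0_sub : Z0 G H f p ⊆ Zs H f p := filter_subset _ _

theorem Z0_union_Z1 : Z0 G H f p ∪ Z1 G H f p = Zs H f p := by
  ext w
  simp only [Z0, Z1, mem_union, mem_filter]
  constructor
  · rintro (h | h) <;> exact h.1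
  · intro h
    by_cases h' : deg G H w ≤ 1
    · exact Or.inl ⟨h, h'⟩
    · exact Or.inr ⟨h, by omega⟩

theorem Z0_disj_Z1 : Disjoint (Z0 G H f p) (Z1 G H f p) := by
  rw [disjoint_left]
  intro w h0 h1
  have a := (mem_filter.1 h0).2
  have b := (mem_filter.1 h1).2
  omega

theorem BZ_disj : Disjoint (Bs H f p ∪ Z1 G H f p) (Z0 G H f p) := by
  rw [disjoint_union_left]
  refine ⟨?_, Z0_disj_Z1.symm⟩
  rw [disjoint_left]
  intro w hw h0
  exact (mem_sdiff.1 (Z0_sub h0)).2 hw

theorem BZ_union : Bs H f p ∪ Z1 G H f p ∪ Z0 G H f p = univ := by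
  rw [union_assoc, union_comm (Z1 G H f p), Z0_union_Z1, Zs, union_sdiff_self_eq_union,
    union_eq_right.2 (subset_univ _)]

theorem deg_BZ_le {O : Finset V} {w : V} (hw : w ∈ O) :
    deg G (Bs H f p ∪ Z1 G H f p ∪ O) w ≤ deg G (Bs H f p ∪ Z1 G H f p) w + (O.card - 1) := by
  have a := deg_union_le (G := G) (Bs H f p ∪ Z1 G H f p) O w
  have b := deg_lt_card (G := G) hw
  omega

theorem sum_half (d n : ℕ) : ∑ i ∈ range n, (d + i) / 2 + g d = g (n + d) := by
  induction n with
  | zero => simp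
  | succ n ih =>
    rw [sum_range_succ, show n + 1 + d = n + d + 1 by omega, g_succ, ← ih, add_comm d n]
    omega

/-- Greedy peeling of a part of `Z0` whose vertices have at most `d` neighbours in `Bs ∪ Z1`. -/
theorem peel_d {O : Finset V} (hO : O ⊆ Z0 G H f p) {d : ℕ}
    (hd : ∀ w ∈ O, deg G (Bs H f p ∪ Z1 G H f p) w ≤ d) :
    gm G (Bs H f p ∪ Z1 G H f p ∪ O) + 2 * g d ≤
      gm G (Bs H f p ∪ Z1 G H f p) + 2 * g (O.card + d) := by
  have a := peel_gm (G := G) (BZ_disj.mono_right hO) (fun i => (d + i) / 2) fun O' h1 h2 => by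
    obtain ⟨w, hw⟩ := h2
    have b := deg_BZ_le (G := G) (H := H) (f := f) (p := p) hw
    have c := hd w (h1 hw)
    exact ⟨w, hw, Nat.div_le_div_right (by omega)⟩
  have b := sum_half d O.card
  omega

theorem add_last {x : V} (hx : x ∈ Z0 G H f p) :
    gm G univ ≤ gm G (Bs H f p ∪ Z1 G H f p ∪ (Z0 G H f p).erase x) + 2 * (deg G univ x / 2) := by
  have hn : x ∉ Bs H f p ∪ Z1 G H f p ∪ (Z0 G H f p).erase x := by
    rw [mem_union, not_or]
    exact ⟨fun h => disjoint_left.1 BZ_disj h hx, notMem_erase _ _⟩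
  have e : insert x (Bs H f p ∪ Z1 G H f p ∪ (Z0 G H f p).erase x) = univ := by
    rw [← union_insert, insert_erase hx, BZ_union]
  have a := gm_insert (G := G) hn
  rw [e] at a
  have b := deg_mono (G := G) (subset_univ (Bs H f p ∪ Z1 G H f p ∪ (Z0 G H f p).erase x)) x
  have c := Nat.div_le_div_right (c := 2) b
  omega

/-- The p - 1 inner vertices and `Zs` lie outside H. -/
theorem SW.card_Z (h : SW G k H col f p) (hk : 1 ≤ k) :
    (Z0 G H f p).card + (Z1 G H f p).card + (p - 1) = (univ \ H).card := by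
  have hb := h.big
  have e : univ \ H = Zs H f p ∪ (Ioo 0 p).image f := by
    ext w
    simp only [Zs, Bs, mem_sdiff, mem_univ, true_and, mem_union, mem_image, mem_Ioo, mem_img,
      not_or]
    constructor
    · intro hw
      by_cases h' : ∃ i, i < p + 1 ∧ f i = w
      · obtain ⟨i, hi, rfl⟩ := h'
        refine Or.inr ⟨i, ⟨?_, ?_⟩, rfl⟩
        · by_contra h0
          rw [show i = 0 by omega] at hw
          exact hw h.h0
        · by_contra h0
          rw [show i = p by omega] at hw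
          exact hw h.hp
      · exact Or.inl ⟨hw, h'⟩
    · rintro (h' | ⟨i, hi, rfl⟩)
      · exact h'.1
      · exact h.hi i hi.1 hi.2
  have d : Disjoint (Zs H f p) ((Ioo 0 p).image f) := by
    rw [disjoint_left]
    intro w hw hw'
    obtain ⟨i, hi, rfl⟩ := mem_image.1 hw'
    have := (mem_Ioo.1 hi).2
    exact (mem_sdiff.1 hw).2 (mem_union_right _ (mem_img.2 ⟨i, by omega, rfl⟩))
  have c : ((Ioo 0 p).image f).card = p - 1 := by
    rw [card_image_of_injOn, Nat.card_Ioo]
    · omega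
    · intro i hi j hj hij
      have a := (mem_Ioo.1 (mem_coe.1 hi)).2
      have b := (mem_Ioo.1 (mem_coe.1 hj)).2
      exact h.pth.2.1 i j (by omega) (by omega) hij
  rw [e, card_union_of_disjoint d, c, ← Z0_union_Z1 (G := G), card_union_of_disjoint Z0_disj_Z1]

/-- `forced`, then `peel_gm` on Z0 with `φ i = (4 + f + i) / 2` (`alpha_le`), `g_succ`. -/
theorem SW.greedy (h : SW G k H col f p) (hk : 3 ≤ k) :
    gm G univ + 2 * g ((Z1 G H f p).card + 4) ≤ 2 + 2 * (Z1 G H f p).card +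
      2 * g ((Z0 G H f p).card + (Z1 G H f p).card + 4) := by
  have a := peel_d (G := G) (H := H) (f := f) (p := p) (Subset.refl _)
    (d := (Z1 G H f p).card + 4) fun w hw => by
      have b := deg_union_le (G := G) (Bs H f p) (Z1 G H f p) w
      have c := (h.alpha_le hk hw).1
      have d := deg_le_card (G := G) (Z1 G H f p) w
      omega
  have b := h.forced hk
  rw [BZ_union, ← add_assoc] at a
  omega

theorem SW.deg_q6 (h : SW G 3 H col f 6) {w : V} (hw : w ∈ Z0 G H f 6) {d : ℕ} (h4 : 4 ≤ d)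
    (hd : 3 + (Z1 G H f 6).card ≤ d) : deg G (Bs H f 6 ∪ Z1 G H f 6) w ≤ d := by
  have b := deg_union_le (G := G) (Bs H f 6) (Z1 G H f 6) w
  have c := (h.alpha_le le_rfl hw).1
  have e := deg_le_card (G := G) (Z1 G H f 6) w
  by_cases h0 : deg G (Z1 G H f 6) w = 0
  · omega
  · obtain ⟨u, hu⟩ := card_pos.1 (Nat.pos_of_ne_zero h0)
    have := h.q6 hw (mem_nb.1 hu).1 (mem_nb.1 hu).2
    omega

theorem SW.three0 (h : SW G 3 H col f 6) (h1 : (Z1 G H f 6).card = 0)
    (h5 : (Z0 G H f 6).card ≤ 5) : gm G univ ≤ 2 + 4 * (Z0 G H f 6).card := by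
  have a := peel_gm (G := G) (BZ_disj (G := G) (H := H) (f := f) (p := 6)) (fun _ => 2)
    fun O' h2 h3 => by
      obtain ⟨w, hw, hd⟩ := h.dg h2 h3 ((card_le_card h2).trans h5)
      have b := deg_union_le (G := G) (Bs H f 6 ∪ Z1 G H f 6) O' w
      have c := deg_union_le (G := G) (Bs H f 6) (Z1 G H f 6) w
      have d := deg_le_card (G := G) (Z1 G H f 6) w
      exact ⟨w, hw, by omega⟩
  have b := h.forced le_rfl
  rw [BZ_union, sum_const, card_range, smul_eq_mul] at a
  omega

theorem SW.three_x (h : SW G 3 H col f 6) (h1 : (Z1 G H f 6).card = 1)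
    (h4 : (Z0 G H f 6).card = 4) : ∃ x ∈ Z0 G H f 6, ∃ w ∈ (Z0 G H f 6).erase x,
      deg G (Bs H f 6 ∪ Z1 G H f 6) w + deg G ((Z0 G H f 6).erase x) w ≤ 5 := by
  by_cases hA : ∃ w ∈ Z0 G H f 6, deg G (Bs H f 6 ∪ Z1 G H f 6) w ≤ 3
  · obtain ⟨w, hw, hd⟩ := hA
    obtain ⟨x, hx, hxw⟩ := exists_mem_ne (s := Z0 G H f 6) (by omega) w
    have hw' : w ∈ (Z0 G H f 6).erase x := mem_erase.2 ⟨hxw.symm, hw⟩
    have a := deg_lt_card (G := G) hw'
    rw [card_erase_of_mem hx] at a
    exact ⟨x, hx, w, hw', by omega⟩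
  by_cases hB : G.IsClique (Z0 G H f 6 : Set V)
  · exfalso
    obtain ⟨w, hw, w', hw', hne⟩ := one_lt_card.1 (show 1 < (Z0 G H f 6).card by omega)
    have hv : ∀ v ∈ Z0 G H f 6, 3 ≤ deg G (Bs H f 6) v := fun v hv => by
      have a : ¬ deg G (Bs H f 6 ∪ Z1 G H f 6) v ≤ 3 := fun a => hA ⟨v, hv, a⟩
      have b := deg_union_le (G := G) (Bs H f 6) (Z1 G H f 6) v
      have c := deg_le_card (G := G) (Z1 G H f 6) v
      omega
    exact h.q3 hw hw' (hv w hw) (hv w' hw')
      ((clique_link hB hw hw' hne (by omega) (by omega)).mono Z0_sub)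
      ((clique_link hB hw hw' hne (by omega) (by omega)).mono Z0_sub)
      ((clique_link hB hw hw' hne (by omega) (by omega)).mono Z0_sub)
  · obtain ⟨w, hw, w', hw', hne, hna⟩ : ∃ w ∈ Z0 G H f 6, ∃ w' ∈ Z0 G H f 6, w ≠ w' ∧
        ¬ G.Adj w w' := by
      by_contra hc
      exact hB fun a ha b hb hab => by
        by_contra hn
        exact hc ⟨a, ha, b, hb, hab, hn⟩
    have hw2 : w' ∈ (Z0 G H f 6).erase w := mem_erase.2 ⟨hne.symm, hw'⟩
    have c2 : (((Z0 G H f 6).erase w).erase w').card = 2 := by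
      rw [card_erase_of_mem hw2, card_erase_of_mem hw, h4]
    obtain ⟨x, hx⟩ := card_pos.1 (show 0 < (((Z0 G H f 6).erase w).erase w').card by omega)
    have hx1 := mem_erase.1 hx
    have hx2 := mem_erase.1 hx1.2
    refine ⟨x, hx2.2, w, mem_erase.2 ⟨hx2.1.symm, hw⟩, ?_⟩
    have a : nb G ((Z0 G H f 6).erase x) w ⊆ (((Z0 G H f 6).erase w).erase w').erase x := by
      intro y hy
      have b := mem_nb.1 hy
      have c := mem_erase.1 b.1
      refine mem_erase.2 ⟨c.1, mem_erase.2 ⟨?_, mem_erase.2 ⟨b.2.ne.symm, c.2⟩⟩⟩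
      rintro rfl
      exact hna b.2
    have b := card_le_card a
    rw [card_erase_of_mem hx, c2] at b
    have c := h.deg_q6 hw (d := 4) le_rfl (by omega)
    unfold deg at c ⊢
    omega

theorem SW.three1 (h : SW G 3 H col f 6) (h1 : (Z1 G H f 6).card = 1)
    (h4 : (Z0 G H f 6).card = 4) : gm G univ ≤ 22 := by
  obtain ⟨x, hx, w, hw, hd⟩ := h.three_x h1 h4
  have c3 : ((Z0 G H f 6).erase x).card = 3 := by rw [card_erase_of_mem hx, h4]
  have a := peel_gm (G := G) ((BZ_disj (G := G) (H := H) (f := f) (p := 6)).mono_right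
    (erase_subset x _)) (fun _ => 2) fun O' h2 h3 => by
      by_cases hc : O'.card ≤ 2
      · obtain ⟨v, hv⟩ := h3
        have b := deg_BZ_le (G := G) (H := H) (f := f) (p := 6) hv
        have c := h.deg_q6 (mem_of_mem_erase (h2 hv)) (d := 4) le_rfl (by omega)
        exact ⟨v, hv, by omega⟩
      · have e : O' = (Z0 G H f 6).erase x := eq_of_subset_of_card_le h2 (by omega)
        have b := deg_union_le (G := G) (Bs H f 6 ∪ Z1 G H f 6) O' w
        rw [e] at b ⊢
        exact ⟨w, hw, by omega⟩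
  have b := h.forced le_rfl
  have c := add_last hx
  have d := deg_BZ_le (G := G) (H := H) (f := f) (p := 6) hx
  have e := h.deg_q6 hx (d := 4) le_rfl (by omega)
  rw [BZ_union] at d
  rw [sum_const, card_range, smul_eq_mul, c3] at a
  omega

/-- k = 3, p = 6, z = Z0.card + Z1.card, f = Z1.card. f = 0: `dg`, `peel_gm` with `φ = 2`.
(z, f) = (4, 1), (5, 2): `q6` gives `deg (Bs ∪ Z1) w ≤ max 4 (3 + f)`. (5, 1): if Z0 is a K4 with
all `deg (Bs ∪ Z1) = 4` use `q3`; else choose x in Z0 off a vertex of degree at most 3 or off a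
non-adjacent pair, peel `Z0.erase x` with `φ = 2`, add x by `gm_insert` (degree at most 7).
All other pairs: `greedy`. -/
theorem SW.three (h : SW G 3 H col f 6) {b : ℕ} (h3 : 3 ≤ b) (hb : b ≤ 6)
    (hz : (Z0 G H f 6).card + (Z1 G H f 6).card + 1 ≤ b) : gm G univ < 2 * (g 6 + g b) := by
  have a0 := h.greedy le_rfl
  have a1 := h.three0
  have a2 := h.three1
  have a3 := h.forced le_rfl
  have a4 : (Z1 G H f 6).card ≤ 1 → _ := fun hf =>
    peel_d (G := G) (H := H) (f := f) (p := 6) (Subset.refl _) (d := 4) fun w hw =>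
      h.deg_q6 hw le_rfl (by omega)
  have a5 : (Z1 G H f 6).card ≤ 2 → _ := fun hf =>
    peel_d (G := G) (H := H) (f := f) (p := 6) (Subset.refl _) (d := 5) fun w hw =>
      h.deg_q6 hw (by omega) (by omega)
  rw [BZ_union] at a4 a5
  generalize gm G univ = x at *
  generalize gm G (Bs H f 6 ∪ Z1 G H f 6) = y at *
  generalize (Z0 G H f 6).card = z0 at *
  generalize (Z1 G H f 6).card = z1 at *
  have b0 : z0 ≤ 5 := by omega
  have b1 : z1 ≤ 5 := by omega
  interval_cases b <;> interval_cases z0 <;> interval_cases z1 <;>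
    simp only [g, true_implies] at * <;> omega

/-- `z + 1 + (p - 2k) ≤ b` by `card_Z`. `greedy` and `g (f+4) ≥ f + 2` give
`gm ≤ 2 (g (z+4) - 1)`, enough for `5 ≤ k`; k = 4 except z = 7, f = 0, p = 8 (`small4`: peel the
other six greedily, add w by `gm_insert`); k = 3, `7 ≤ p`; k = 3, p = 6 is `three`. -/
theorem SW.main (h : SW G k H col f p) (hk : 3 ≤ k) {b : ℕ} (h3 : 3 ≤ b) (hb : b ≤ 2 * k)
    (hl : (univ \ H).card + 2 ≤ 2 * k + b) : gm G univ < 2 * (g (2 * k) + g b) := by
  have hc := h.card_Z (by omega)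
  have hbig := h.big
  have a0 := h.greedy hk
  have g1 : ∀ m, m + 2 ≤ g (m + 4) := fun m => by
    rw [g, show m + 4 - 1 = m + 3 by omega, Nat.le_div_iff_mul_le (by omega)]
    nlinarith
  have g2 : ∀ m, 1 ≤ m → m + 3 ≤ g (m + 4) := fun m hm => by
    rw [g, show m + 4 - 1 = m + 3 by omega, Nat.le_div_iff_mul_le (by omega)]
    nlinarith
  have s1 := g_succ b
  have s2 := g_succ (b + 1)
  have s3 := g_succ (b + 1 + 1)
  have a1 := g1 (Z1 G H f p).card
  have m3 := g_mono (show (Z0 G H f p).card + (Z1 G H f p).card + 4 ≤ b + 1 + 1 + 1 by omega)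
  by_cases h5 : 5 ≤ k
  · have : 3 * k + 1 ≤ g (2 * k) := by
      rw [g_two_mul]
      obtain ⟨j, rfl⟩ := Nat.exists_eq_add_of_le h5
      rw [show 5 + j - 1 = 4 + j by omega]
      nlinarith
    omega
  by_cases hz : (Z0 G H f p).card + (Z1 G H f p).card + 2 ≤ b
  · have m2 := g_mono (show (Z0 G H f p).card + (Z1 G H f p).card + 4 ≤ b + 1 + 1 by omega)
    have : 2 * k ≤ g (2 * k) := by
      rw [g_two_mul, mul_comm 2 k]
      exact Nat.mul_le_mul_left _ (by omega)
    omega
  have hp : p = 2 * k := by omega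
  subst hp
  by_cases h4 : k = 4
  · subst h4
    have e8 : g (2 * 4) = 12 := by simp [g]
    by_cases hb7 : b ≤ 7
    · omega
    by_cases hf : 1 ≤ (Z1 G H f (2 * 4)).card
    · have := g2 _ hf
      omega
    have hb8 : b = 8 := by omega
    subst hb8
    have e0 : (Z1 G H f 8).card = 0 := by
      change ¬ 1 ≤ (Z1 G H f 8).card at hf
      omega
    have e7 : (Z0 G H f 8).card = 7 := by
      change (Z0 G H f 8).card + (Z1 G H f 8).card + _ = _ at hc
      change ¬ (Z0 G H f 8).card + (Z1 G H f 8).card + 2 ≤ 8 at hz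
      omega
    have h' : SW G 4 H col f 8 := h
    have eZ : Zs H f 8 = Z0 G H f 8 := by
      rw [← Z0_union_Z1 (G := G), card_eq_zero.1 e0, union_empty]
    obtain ⟨w, hw, hd⟩ := h'.small4 (card_eq_zero.1 e0) (by rw [eZ, e7])
    rw [eZ] at hw
    have b1 := add_last hw
    have b2 := peel_d (G := G) (H := H) (f := f) (p := 8) (erase_subset w _) (d := 4)
      fun v hv => by
        have b := deg_union_le (G := G) (Bs H f 8) (Z1 G H f 8) v
        have c := (h'.alpha_le hk (mem_of_mem_erase hv)).1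
        have d := deg_le_card (G := G) (Z1 G H f 8) v
        omega
    have b3 := h'.forced hk
    rw [card_erase_of_mem hw, e7] at b2
    simp only [g] at b2 ⊢
    omega
  · have h3' : k = 3 := by omega
    subst h3'
    have h' : SW G 3 H col f 6 := h
    refine h'.three h3 hb ?_
    change (Z0 G H f 6).card + (Z1 G H f 6).card + _ = _ at hc
    omega

end Pool.Agent.Lib.MP_1ed8ce_co.SS
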