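import Pool.Agent.Lib.MP_1ed8ce_co.SS.CoreC
import Pool.Agent.Lib.MP_1ed8ce_co.SS.WStar
import Pool.Agent.Lib.MP_1ed8ce_co.SS.Ear
import Pool.Agent.Lib.MP_1ed8ce_co.SS.Contr
import Pool.Agent.Lib.MP_1ed8ce_co.SS.Blocks
import Pool.Agent.Lib.MP_1ed8ce_co.SS.Bip
import Pool.Agent.Lib.MP_1ed8ce_co.SS.WrE

namespace Pool.Agent.Lib.MP_1ed8ce_co.SS

open Finset
open scoped Classical

variable {V : Type} [Fintype V] [DecidableEq V] {G : SimpleGraph V}

/-- The case without a wrong path. -/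
theorem no_wrong {k b n : ℕ} (hk : 3 ≤ k) (h3 : 3 ≤ b) (hb : b ≤ 2 * k) (hn : 2 * k + b + 2 ≤ n)
    {G : SimpleGraph (Fin n)} (hf : ¬ Cyc G univ (2 * k + 1))
    (he : 2 * ((n - (2 * k + b) + 2) ^ 2 / 4) + (2 * k * (2 * k - 1) + b * (b - 1)) ≤ E2 G univ)
    {H : Finset (Fin n)} {col : Fin n → Bool} (hl : (univ \ H).card + 2 ≤ 2 * k + b)
    (hw : ∀ q, ¬ WrL G H col q) :
    gm G univ ≤ 2 * (g (2 * k) + g b) ∧ (gm G univ = 2 * (g (2 * k) + g b) → IsTss k b n G) := by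
  obtain ⟨H', col', hsub, hw', hE⟩ := ear_ext hw
  have hcomp : (H'ᶜ).card + 2 ≤ 2 * k + b := by
    have h1 : H'ᶜ ⊆ univ \ H := by
      intro x hx
      simp only [mem_compl] at hx
      simp only [mem_sdiff, mem_univ, true_and]
      exact fun h => hx (hsub h)
    have := card_le_card h1
    omega
  have hcard : H'.card + (H'ᶜ).card = n := by
    simp
  have hne : H'.Nonempty := by
    rw [← card_pos]; omega
  obtain ⟨z, hz⟩ := hne
  obtain ⟨a, ha⟩ := exists_att hz hE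
  have hc : ∀ u ∈ H', ∀ w ∈ H', G.Adj u w → col' u ≠ col' w :=
    fun u hu w hw2 hadj hcc => hw' 1 (wrL_edge hu hw2 hadj hcc)
  have hU : (insert z H'ᶜ).card = (H'ᶜ).card + 1 :=
    card_insert_of_notMem (by simpa using hz)
  have hF := contr_free hz ha hf
  have hgm := contr_gm hz ha hc
  by_cases hs : (insert z H'ᶜ).card + 2 ≤ 2 * k + b
  · have := wsmall hk h3 hb hs hF
    exact ⟨by omega, fun h => by omega⟩
  · have hc1 : (insert z H'ᶜ).card + 1 = 2 * k + b := by omega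
    obtain ⟨w1, w2⟩ := wstar hk b _ (by omega) hb hc1 hF
    refine ⟨le_trans hgm w1, fun heq => ?_⟩
    obtain ⟨w3, w4⟩ := w2 (by omega)
    have hH : H'.card = n - (2 * k + b) + 2 := by omega
    have e1 := contr_E2 hz ha
    have e2 := bip_E2 hc
    rw [← hH] at he
    have hT := w4 (by omega)
    obtain ⟨n1, n2⟩ := bip_eq hc (by omega) (by omega)
    rw [hH] at n2
    obtain ⟨B, C, v, v', i1, i2, i3, i4, qB, qC, hBC⟩ :=
      contr_two hz ha (by omega) (by omega) hT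
    have cB : 2 ≤ B.card := by rcases hBC with h | h <;> omega
    have cC : 2 ≤ C.card := by rcases hBC with h | h <;> omega
    obtain ⟨b1, b2, b3, b4, b5⟩ := blocks3 i1 i2 i3 i4 n1
      (clique_ncv qB (by rw [← card_pos]; omega)) (clique_ncv qC (by rw [← card_pos]; omega))
      (by omega) cB cC
    rcases hBC with h | h
    · exact ⟨b1, H', B, C, b2, b3, b4, b5, n2, clique_iso qB h.1, clique_iso qC h.2⟩
    · refine ⟨b1, H', C, B, b3, b2, b4.symm, fun S => ?_, n2, clique_iso qC h.2, clique_iso qB h.1⟩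
      rw [b5 S]; tauto

theorem two_choose (m : ℕ) : 2 * m.choose 2 = m * (m - 1) := by
  rw [Nat.choose_two_right]
  exact Nat.mul_div_cancel' (Nat.even_mul_pred_self m).two_dvd

theorem main (k b : ℕ) (hk : 3 ≤ k) (h3 : 3 ≤ b) (hb : b ≤ 2 * k) :
    ∃ n₀ : ℕ, ∀ n, n₀ ≤ n → ∀ G : SimpleGraph (Fin n),
      (SimpleGraph.cycleGraph (2 * k + 1)).Free G →
      (n - (2 * k + b) + 2) ^ 2 / 4 + (2 * k).choose 2 + b.choose 2 ≤ G.edgeSet.ncard →
      gamma2 G ≤ 2 * k.choose 2 + (b / 2).choose 2 + ((b + 1) / 2).choose 2 ∧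
        (gamma2 G = 2 * k.choose 2 + (b / 2).choose 2 + ((b + 1) / 2).choose 2 ↔
          IsTss k b n G) := by
  obtain ⟨n₀, hn₀⟩ := core_exists k (2 * k + b - 2) (by omega) (by omega)
  refine ⟨max n₀ (2 * k + b + 2), fun n hn G hfree he => ?_⟩
  have hn1 : n₀ ≤ n := le_trans (le_max_left _ _) hn
  have hn2 : 2 * k + b + 2 ≤ n := le_trans (le_max_right _ _) hn
  have hf : ¬ Cyc G univ (2 * k + 1) := not_cyc hfree
  have e1 := E2_univ G
  have e2 := two_choose (2 * k)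
  have e3 := two_choose b
  have he' : 2 * ((n - (2 * k + b) + 2) ^ 2 / 4) + (2 * k * (2 * k - 1) + b * (b - 1))
      ≤ E2 G univ := by omega
  have hpos : 2 ≤ 2 * k * (2 * k - 1) := by
    calc 2 = 2 * 1 * 1 := by norm_num
      _ ≤ 2 * k * (2 * k - 1) := Nat.mul_le_mul (by omega) (by omega)
  have hsq : (n - (2 * k + b - 2)) ^ 2 ≤ 2 * E2 G univ + 1 := by
    have : n - (2 * k + b - 2) = n - (2 * k + b) + 2 := by omega
    rw [this]; omega
  obtain ⟨H, col, hcore, hl⟩ := hn₀ n hn1 G hf hsq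
  have key : gm G univ ≤ 2 * (g (2 * k) + g b) ∧
      (gm G univ = 2 * (g (2 * k) + g b) → IsTss k b n G) := by
    by_cases hw : ∃ q, WrL G H col q
    · obtain ⟨f, p, hsw⟩ := exists_SW hcore hf hw
      have := hsw.main hk h3 hb (by omega)
      exact ⟨by omega, fun h => by omega⟩
    · exact no_wrong hk h3 hb hn2 hf he' (by omega) (fun q hq => hw ⟨q, hq⟩)
  have g1 := gamma2_eq G
  have g2 := g_eq b
  have g3 := g_two_mul k
  have g4 := two_choose k
  refine ⟨by omega, fun h => key.2 (by omega), fun h => ?_⟩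
  have := tss_ge h
  omega

end Pool.Agent.Lib.MP_1ed8ce_co.SS
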