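import Pool.Agent.Lib.MP_1ed8ce_co.SS.Gap

namespace Pool.Agent.Lib.MP_1ed8ce_co.SS

open Finset
open scoped Classical

variable {V : Type} [Fintype V] [DecidableEq V] {G : SimpleGraph V}

theorem xs0 (e u : ℕ) : 2 * ∑ i ∈ range u, (e - i) ≤ e * (e + 1) := by
  induction e generalizing u with
  | zero => simp
  | succ e ih =>
    rcases u with _ | u
    · simp
    · rw [sum_range_succ']
      have h := ih u
      have h' : ∑ i ∈ range u, (e + 1 - (i + 1)) = ∑ i ∈ range u, (e - i) :=
        sum_congr rfl fun i _ => by omega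
      rw [h', Nat.sub_zero]
      nlinarith

theorem xs1 (m e u : ℕ) :
    2 * ∑ i ∈ range u, min (m + e - i) e ≤ 2 * m * e + e * (e + 1) := by
  induction m generalizing u with
  | zero =>
    have h' : ∑ i ∈ range u, min (0 + e - i) e = ∑ i ∈ range u, (e - i) :=
      sum_congr rfl fun i _ => by omega
    rw [h']
    have := xs0 e u
    omega
  | succ m ih =>
    rcases u with _ | u
    · simp
    · rw [sum_range_succ']
      have h := ih u
      have h' : ∑ i ∈ range u, min (m + 1 + e - (i + 1)) e = ∑ i ∈ range u, min (m + e - i) e :=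
        sum_congr rfl fun i _ => by omega
      have h'' : min (m + 1 + e - 0) e = e := by omega
      rw [h', h'']
      nlinarith

theorem xs2 (u : ℕ) : 2 * ∑ i ∈ range u, (i + 1) = (u + 1) * u := by
  induction u with
  | zero => simp
  | succ u ih => rw [sum_range_succ]; nlinarith

theorem xs3 (m e u : ℕ) : 2 * ∑ i ∈ range u, min (m + e + 1) (e + 1 + i) ≤
    (u + 1) * u + (2 * m * e + e * (e + 1)) := by
  have h : ∑ i ∈ range u, min (m + e + 1) (e + 1 + i) ≤
      ∑ i ∈ range u, ((i + 1) + min (m + e - i) e) := sum_le_sum fun i _ => by omega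
  rw [sum_add_distrib] at h
  have h1 := xs1 m e u
  have h2 := xs2 u
  omega

omit [Fintype V] in
theorem xs4 {A : Finset V} (d : V → ℕ) {c : ℕ} (hA : 2 ≤ A.card)
    (h : ∀ x ∈ A, ∀ y ∈ A, x ≠ y → d x + d y ≤ c) : 2 * ∑ x ∈ A, d x ≤ A.card * c := by
  obtain ⟨e, he⟩ : ∃ e, A.card = e + 1 := ⟨A.card - 1, by omega⟩
  have h1 : ∀ x ∈ A, e * d x + ∑ y ∈ A, d y ≤ e * c + d x := by
    intro x hx
    have hc : (A.erase x).card = e := by rw [card_erase_of_mem hx]; omega
    have h2 : ∑ y ∈ A.erase x, (d x + d y) ≤ ∑ _y ∈ A.erase x, c :=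
      sum_le_sum fun y hy => h x hx y (mem_of_mem_erase hy) (ne_of_mem_erase hy).symm
    rw [sum_add_distrib, sum_const, sum_const, hc, smul_eq_mul, smul_eq_mul] at h2
    have h3 := sum_erase_add A d hx
    omega
  have h4 := sum_le_sum h1
  rw [sum_add_distrib, sum_add_distrib, sum_const, sum_const, ← mul_sum, he, smul_eq_mul,
    smul_eq_mul] at h4
  rw [he]
  have he1 : 0 < e := by omega
  refine Nat.le_of_mul_le_mul_left ?_ he1
  nlinarith

theorem x_peel {U : Finset V} {f : ℕ → V} {c : ℕ} (hf : CycF G U f c) (hl : NoLong G U c)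
    (h2 : ∀ w ∈ U \ img f c, 2 ≤ deg G (img f c) w) {O' : Finset V} (hO : O' ⊆ U \ img f c)
    (hne : O'.Nonempty) : ∃ w ∈ O', 2 * deg G (img f c ∪ O') w ≤ c ∧
      deg G (img f c ∪ O') w ≤ deg G (img f c) w + (O'.card - 1) := by
  obtain ⟨w, hw, h⟩ := gap_peel hf hl h2 hO hne
  have hd : Disjoint (img f c) O' := disjoint_sdiff.mono_right hO
  have h1 := deg_union (G := G) hd w
  have h3 := deg_lt_card (G := G) hw
  exact ⟨w, hw, by omega, by omega⟩

/-- `D` = largest `deg C w` over `w` outside (`2 ≤ D`, `2 D ≤ c` by `gap_peel` on one vertex),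
`h = c / 2`, `u = U.card - c`. `peel_E2` with `φ i = min h (D + i)`; the sum is at most
`u (u+1) / 2 + (h - D + 1) (D - 1) + (D-1) (D-2) / 2`. With `A` of `gap_succ`:
`2 * ∑ x ∈ A, deg C x ≤ D c`, so `E2 C ≤ (c-D)(c-D-1) + D c` (`E2_union`, `A` independent).
The difference of the two sides is `2 (h - D) + D (c - 2 h)`, zero only if `2 D = c`. -/
theorem x_count {U : Finset V} {f : ℕ → V} {c : ℕ} (hf : CycF G U f c) (hl : NoLong G U c)
    (h2 : ∀ w ∈ U \ img f c, 2 ≤ deg G (img f c) w) (hne : c < U.card) :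
    E2 G U ≤ c * (c - 1) + (U.card - c + 1) * (U.card - c) ∧
      (E2 G U < c * (c - 1) + (U.card - c + 1) * (U.card - c) ∨
        ∃ w ∈ U \ img f c, 2 * deg G (img f c) w = c) := by
  have hCU : img f c ⊆ U := hf.2.1.img_sub
  have hcard : (img f c).card = c := hf.2.1.card_img
  have hun : img f c ∪ U \ img f c = U := union_sdiff_of_subset hCU
  have hO : (U \ img f c).card = U.card - c := by rw [card_sdiff_of_subset hCU, hcard]
  have hOn : (U \ img f c).Nonempty := by rw [← card_pos, hO]; omega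
  obtain ⟨w, hw, hmax⟩ := exists_max_image (U \ img f c) (deg G (img f c)) hOn
  have hD2 := h2 w hw
  have hDc : 2 * deg G (img f c) w ≤ c := by
    obtain ⟨w', hw', h⟩ := gap_peel hf hl h2 (singleton_subset_iff.2 hw) (singleton_nonempty w)
    rw [mem_singleton] at hw'
    subst hw'
    omega
  obtain ⟨A, hAC, hAc, hAi, hAd⟩ := gap_succ hf hl hw
  have hs := xs4 (deg G (img f c)) (by omega) hAd
  have hs' : ∑ x ∈ A, deg G (img f c \ A) x ≤ ∑ x ∈ A, deg G (img f c) x :=
    sum_le_sum fun x _ => deg_mono sdiff_subset x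
  have hE := E2_union (G := G) (disjoint_sdiff : Disjoint A (img f c \ A))
  rw [union_sdiff_of_subset hAC, E2_eq_zero hAi] at hE
  have hE' := E2_le (G := G) (img f c \ A)
  rw [card_sdiff_of_subset hAC, hcard, hAc] at hE'
  have hp := peel_E2 (G := G) (disjoint_sdiff : Disjoint (img f c) (U \ img f c))
    (fun i => min (c / 2) (deg G (img f c) w + i)) (by
      intro O' hO' hne'
      obtain ⟨v, hv, h1, h3⟩ := x_peel hf hl h2 hO' hne'
      have := hmax v (hO' hv)
      exact ⟨v, hv, by omega⟩)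
  rw [hun, hO] at hp
  obtain ⟨e, he⟩ : ∃ e, deg G (img f c) w = e + 1 := ⟨deg G (img f c) w - 1, by omega⟩
  obtain ⟨m, hm⟩ : ∃ m, c / 2 = m + e + 1 := ⟨c / 2 - (e + 1), by omega⟩
  obtain ⟨r, hr⟩ : ∃ r, c = 2 * (m + e + 1) + r := ⟨c % 2, by omega⟩
  rw [he, hm] at hp
  have h3 := xs3 m e (U.card - c)
  rw [hAc, he] at hs
  rw [he] at hE'
  have e1 : c - (e + 1) = 2 * m + e + 1 + r := by omega
  have e2 : 2 * m + e + 1 + r - 1 = 2 * m + e + r := by omega
  have e3 : c - 1 = 2 * m + 2 * e + 1 + r := by omega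
  rw [e1, e2] at hE'
  have key : (2 * m + e + 1 + r) * (2 * m + e + r) + (e + 1) * c + (2 * m * e + e * (e + 1)) +
      (2 * m + r * (e + 1)) = c * (c - 1) := by
    rw [e3, hr]; ring
  refine ⟨by omega, ?_⟩
  by_cases h0 : 2 * deg G (img f c) w = c
  · exact Or.inr ⟨w, hw, h0⟩
  · left
    have : 0 < 2 * m + r * (e + 1) := by
      rcases Nat.eq_zero_or_pos r with h | h
      · omega
      · have : 0 < r * (e + 1) := Nat.mul_pos h (Nat.succ_pos e)
        omega
    omega

/-- `peel_E2` with `φ i = c / 2`. -/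
theorem x_half {U : Finset V} {f : ℕ → V} {c : ℕ} (hf : CycF G U f c) (hl : NoLong G U c)
    (h2 : ∀ w ∈ U \ img f c, 2 ≤ deg G (img f c) w) :
    E2 G U ≤ E2 G (img f c) + (U.card - c) * c := by
  have hCU : img f c ⊆ U := hf.2.1.img_sub
  have hcard : (img f c).card = c := hf.2.1.card_img
  have hun : img f c ∪ U \ img f c = U := union_sdiff_of_subset hCU
  have hO : (U \ img f c).card = U.card - c := by rw [card_sdiff_of_subset hCU, hcard]
  have hp := peel_E2 (G := G) (disjoint_sdiff : Disjoint (img f c) (U \ img f c))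
    (fun _ => c / 2) (by
      intro O' hO' hne'
      obtain ⟨v, hv, h1, -⟩ := x_peel hf hl h2 hO' hne'
      exact ⟨v, hv, by omega⟩)
  rw [hun, hO, sum_const, card_range, smul_eq_mul] at hp
  have h : (U.card - c) * (2 * (c / 2)) ≤ (U.card - c) * c := Nat.mul_le_mul_left _ (by omega)
  nlinarith

/-- Colour `A` of `gap_succ` (k independent vertices) against the other k vertices of the cycle,
then `peel_gm` with `φ i = k / 2`. -/
theorem x_col {U : Finset V} {f : ℕ → V} {k : ℕ} (hf : CycF G U f (2 * k))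
    (hl : NoLong G U (2 * k)) (h2 : ∀ w ∈ U \ img f (2 * k), 2 ≤ deg G (img f (2 * k)) w)
    {w : V} (hw : w ∈ U \ img f (2 * k)) (hk : deg G (img f (2 * k)) w = k) :
    gm G U ≤ k * (k - 1) + 2 * ((U.card - 2 * k) * (k / 2)) := by
  have hCU : img f (2 * k) ⊆ U := hf.2.1.img_sub
  have hcard : (img f (2 * k)).card = 2 * k := hf.2.1.card_img
  have hun : img f (2 * k) ∪ U \ img f (2 * k) = U := union_sdiff_of_subset hCU
  have hO : (U \ img f (2 * k)).card = U.card - 2 * k := by
    rw [card_sdiff_of_subset hCU, hcard]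
  have hp := peel_gm (G := G) (disjoint_sdiff : Disjoint (img f (2 * k)) (U \ img f (2 * k)))
    (fun _ => k / 2) (by
      intro O' hO' hne'
      obtain ⟨v, hv, h1, -⟩ := x_peel hf hl h2 hO' hne'
      exact ⟨v, hv, by omega⟩)
  rw [hun, hO, sum_const, card_range, smul_eq_mul] at hp
  obtain ⟨A, hAC, hAc, hAi, -⟩ := gap_succ hf hl hw
  have h1 := gm_le (G := G) (img f (2 * k)) (fun x => decide (x ∈ A))
  unfold M2 at h1
  have hE := E2_union (G := mono G fun x => decide (x ∈ A))
    (disjoint_sdiff : Disjoint A (img f (2 * k) \ A))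
  have hz : ∑ v ∈ A, deg (mono G fun x => decide (x ∈ A)) (img f (2 * k) \ A) v = 0 := by
    refine sum_eq_zero fun v hv => ?_
    unfold deg
    rw [card_eq_zero, eq_empty_iff_forall_notMem]
    intro y hy
    rw [mem_nb, mem_sdiff] at hy
    have h3 : decide (v ∈ A) = decide (y ∈ A) := hy.2.2
    simp [hv, hy.1.2] at h3
  have hA0 : E2 (mono G fun x => decide (x ∈ A)) A = 0 :=
    E2_eq_zero (fun x hx y hy h => hAi x hx y hy h.1)
  rw [union_sdiff_of_subset hAC, hA0, hz] at hE
  have hE' := E2_le (G := mono G fun x => decide (x ∈ A)) (img f (2 * k) \ A)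
  have e1 : 2 * k - k = k := by omega
  rw [card_sdiff_of_subset hAC, hcard, hAc, hk, e1] at hE'
  omega

end Pool.Agent.Lib.MP_1ed8ce_co.SS
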