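import Pool.Agent.Lib.MP_1ed8ce_co.SS.EG
import Pool.Agent.Lib.MP_1ed8ce_co.SS.XCnt
import Pool.Agent.Lib.MP_1ed8ce_co.SS.Bondy

namespace Pool.Agent.Lib.MP_1ed8ce_co.SS

open Finset
open scoped Classical

variable {V : Type} [Fintype V] [DecidableEq V] {G : SimpleGraph V}

/-- From circumference `c` (statement `ih`, or `eg` when `c ≤ j`) the strict bound for `c + 1`. -/
theorem wood_step {c : ℕ} (hc : 2 ≤ c)
    (ih : ∀ (j : ℕ) (U : Finset V), 1 ≤ j → j ≤ c → U.card + 1 = c + j → NoLong G U c →
      E2 G U ≤ c * (c - 1) + j * (j - 1))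
    {j : ℕ} {U : Finset V} (h1 : 1 ≤ j) (hj : j ≤ c + 1) (hU : U.card = c + j)
    (h : NoLong G U c) : E2 G U < (c + 1) * c + j * (j - 1) := by
  rcases Nat.lt_or_ge j c with hlt | hge
  · have h3 := ih (j + 1) U (by omega) (by omega) (by omega) h
    obtain ⟨a, rfl⟩ : ∃ a, j = a + 1 := ⟨j - 1, by omega⟩
    obtain ⟨b, rfl⟩ : ∃ b, c = b + 1 := ⟨c - 1, by omega⟩
    simp only [Nat.add_sub_cancel] at h3 ⊢
    nlinarith
  · have hne : U.Nonempty := card_pos.1 (by omega)
    have h3 := eg hc hne h
    rw [hU] at h3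
    obtain ⟨a, rfl⟩ : ∃ a, j = a + 1 := ⟨j - 1, by omega⟩
    simp only [Nat.add_sub_cancel]
    rcases (show a + 1 = c ∨ a = c by omega) with e | e
    · subst e
      nlinarith
    · subst e
      nlinarith

/-- Few vertices off a cycle and large degrees give two neighbours on the cycle. -/
theorem two_on_cyc {U : Finset V} {f : ℕ → V} {n j : ℕ} (hf : CycF G U f n)
    (hd : ∀ v ∈ U, j ≤ deg G U v) (hU : U.card + 1 ≤ n + j) :
    ∀ w ∈ U \ img f n, 2 ≤ deg G (img f n) w := by
  intro w hw
  have hs : img f n ⊆ U := hf.2.1.img_sub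
  have hcard : (img f n).card = n := hf.2.1.card_img
  have h1 := hd w (mem_sdiff.1 hw).1
  have h2 : deg G U w = deg G (img f n) w + deg G (U \ img f n) w := by
    rw [← deg_union disjoint_sdiff, union_sdiff_of_subset hs]
  have h3 := deg_lt_card (G := G) hw
  have h4 : (U \ img f n).card + (img f n).card = U.card := card_sdiff_add_card_eq_card hs
  omega

/-- Woodall. Induction on c (c = 2 by `eg`), inside on j. `j = 1`: `E2_le`. A vertex of degree
below j is deleted. Else all degrees are at least j: a cycle of length exactly c gives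
`x_count` (j - 1 vertices outside, each with 2 neighbours on the cycle); no such cycle gives
`wood_step`. -/
theorem wood {c : ℕ} (hc : 2 ≤ c) (j : ℕ) (U : Finset V) (h1 : 1 ≤ j) (hj : j ≤ c)
    (hU : U.card + 1 = c + j) (h : NoLong G U c) : E2 G U ≤ c * (c - 1) + j * (j - 1) := by
  induction c, hc using Nat.le_induction generalizing j U with
  | base =>
    have hne : U.Nonempty := card_pos.1 (by omega)
    have h3 := eg le_rfl hne h
    rcases (show j = 1 ∨ j = 2 by omega) with e | e <;> subst e <;> omega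
  | succ c hc ih =>
    induction j, h1 using Nat.le_induction generalizing U with
    | base =>
      have h3 := E2_le (G := G) U
      rw [show U.card = c + 1 by omega] at h3
      omega
    | succ j h1 ihj =>
      simp only [Nat.add_sub_cancel] at ihj ⊢
      by_cases hv : ∃ v ∈ U, deg G U v ≤ j
      · obtain ⟨v, hv, hdv⟩ := hv
        have h3 := ihj (U.erase v) (by omega)
          (by rw [card_erase_of_mem hv]; omega) (h.mono (erase_subset v U))
        have h4 := E2_erase (G := G) hv
        obtain ⟨a, rfl⟩ : ∃ a, j = a + 1 := ⟨j - 1, by omega⟩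
        simp only [Nat.add_sub_cancel] at h3
        nlinarith
      · have hd : ∀ v ∈ U, j + 1 ≤ deg G U v := fun v hv' => by
          by_contra c'
          exact hv ⟨v, hv', by omega⟩
        by_cases hcy : Cyc G U (c + 1)
        · obtain ⟨f, hf⟩ := hcy
          have h3 := (x_count hf h (two_on_cyc hf hd (by omega)) (by omega)).1
          rw [show U.card - (c + 1) = j by omega] at h3
          simpa using h3
        · have hn : NoLong G U c := fun n hn => by
            rcases (show n = c + 1 ∨ c + 1 < n by omega) with e | e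
            · rw [e]
              exact hcy
            · exact h n e
          have h3 := wood_step hc (fun j U a b d e => ih j U a b d e) (j := j + 1) (by omega) hj
            (by omega) hn
          simpa using h3.le

/-- No cycle longer than `2k - 1`: `wood_step` contradicts `he`. Else a longest cycle has length
c ≥ 2k, c ≠ 2k + 1. c = 2k: `x_count`, `x_col` and
`(j-1) (k/2) < k (k-1) / 2 + g j`. c ≥ 2k + 2: `bondy` on the cycle and `x_half` give
`2 E2 ≤ m^2 - u^2`, while `2 (2k(2k-1) + j(j-1)) = m^2 + (2k-j)^2 - 1`; j = 2k contradicts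
`E2_ge`; j = 2k - 1 forces u = 0 and equality in `bondy`. -/
theorem mpp {U : Finset V} {k j : ℕ} (hk : 3 ≤ k) (h2 : 2 ≤ j) (hj : j ≤ 2 * k)
    (hc : U.card + 1 = 2 * k + j) (hd : ∀ v ∈ U, j ≤ deg G U v) (hf : ¬ Cyc G U (2 * k + 1))
    (he : 2 * k * (2 * k - 1) + j * (j - 1) ≤ E2 G U) : gm G U < 2 * (g (2 * k) + g j) := by
  have hg := g_two_mul k
  obtain ⟨t, rfl⟩ : ∃ t, j = t + 1 := ⟨j - 1, by omega⟩
  obtain ⟨s, rfl⟩ : ∃ s, k = s + 1 := ⟨k - 1, by omega⟩
  have e1 : 2 * (s + 1) - 1 = 2 * s + 1 := by omega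
  rw [e1] at he
  simp only [Nat.add_sub_cancel] at he hg
  by_cases hn : NoLong G U (2 * s + 1)
  · have h3 := wood_step (c := 2 * s + 1) (by omega)
      (fun j U a b d e => wood (by omega) j U a b d e) (j := t + 1) (by omega) (by omega)
      (by omega) hn
    simp only [Nat.add_sub_cancel] at h3
    rw [show 2 * s + 1 + 1 = 2 * (s + 1) by ring] at h3
    omega
  obtain ⟨n, f, hn1, hcf, hnl⟩ := exists_longest_cyc hn
  have hn2 : n ≠ 2 * (s + 1) + 1 := fun e => hf ⟨f, e ▸ hcf⟩
  have h2c := two_on_cyc hcf hd (by omega)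
  have hle : n ≤ U.card := hcf.2.1.le_card
  rcases (show n = 2 * (s + 1) ∨ 2 * (s + 1) + 2 ≤ n by omega) with e | e
  · subst e
    have eu : U.card - 2 * (s + 1) = t := by omega
    rcases (x_count hcf hnl h2c (by omega)).2 with h3 | ⟨w, hw, h3⟩
    · rw [eu, e1] at h3
      omega
    · have h4 := x_col hcf hnl h2c hw (by omega)
      rw [eu] at h4
      simp only [Nat.add_sub_cancel] at h4
      have h5 : 2 * ((s + 1) / 2) ≤ s + 1 := by omega
      have h6 : t * (2 * ((s + 1) / 2)) ≤ t * (s + 1) := Nat.mul_le_mul_left t h5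
      have h7 : t ^ 2 ≤ 4 * g (t + 1) + 1 := by
        have h8 : t ^ 2 % 4 ≤ 1 := by
          rcases Nat.even_or_odd' t with ⟨a, e | e⟩
          · rw [e, show (2 * a) ^ 2 = 4 * a ^ 2 by ring]
            omega
          · rw [e, show (2 * a + 1) ^ 2 = 4 * (a ^ 2 + a) + 1 by ring]
            omega
        simp only [g, Nat.add_sub_cancel]
        omega
      rw [hg]
      have h9 : 2 * (t * (s + 1)) ≤ t ^ 2 + (s + 1) ^ 2 := by
        rw [← mul_assoc]
        exact two_mul_le_add_sq t (s + 1)
      have h10 : 2 * (t * ((s + 1) / 2)) = t * (2 * ((s + 1) / 2)) := by ring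
      have h11 : (s + 1) ^ 2 = (s + 1) * s + s + 1 := by ring
      have h12 : 3 * s ≤ (s + 1) * s := Nat.mul_le_mul_right s (by omega)
      omega
  · have hs : img f n ⊆ U := hcf.2.1.img_sub
    have hcard : (img f n).card = n := hcf.2.1.card_img
    have hb := bondy (G := G) (l := 2 * (s + 1) + 1) (by omega) (U := img f n)
      (by rw [hcard]; exact ⟨f, hcf.self⟩) (by omega) (fun c' => hf (c'.mono hs))
    rw [hcard] at hb
    have hx := x_half hcf hnl h2c
    have hge := E2_ge hd
    obtain ⟨u, hu⟩ : ∃ u, U.card = n + u := ⟨U.card - n, by omega⟩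
    rw [show U.card - n = u by omega] at hx
    obtain ⟨d, hd'⟩ : ∃ d, 2 * (s + 1) = t + 1 + d := ⟨2 * (s + 1) - (t + 1), by omega⟩
    have hm : n + u = 2 * s + 2 + t := by omega
    have k1 : (n + u) ^ 2 + d ^ 2 = 2 * (2 * (s + 1) * (2 * s + 1) + (t + 1) * t) + 1 := by
      rw [hm]
      have : (d : ℤ) = 2 * s + 1 - t := by omega
      zify
      rw [this]
      ring
    have k2 : 2 * E2 G U + u ^ 2 ≤ (n + u) ^ 2 := by
      have k0 : (n + u) ^ 2 = n ^ 2 + 2 * (u * n) + u ^ 2 := by ring
      have := hb.1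
      omega
    have k3 : d ^ 2 + u ^ 2 ≤ 1 := by omega
    have k4 : d ≤ 1 := by
      have := Nat.le_self_pow (two_ne_zero) d
      omega
    rcases (show d = 0 ∨ d = 1 by omega) with e0 | e0
    · subst e0
      rw [hu, hm] at hge
      rw [hm] at k2
      have : t = 2 * s + 1 := by omega
      subst this
      have k0 : 2 * ((2 * s + 2 + (2 * s + 1)) * (2 * s + 1 + 1)) =
          (2 * s + 2 + (2 * s + 1)) ^ 2 + (4 * s + 3) := by ring
      omega
    · subst e0
      have u0 : u = 0 := by
        have := Nat.le_self_pow (two_ne_zero) u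
        omega
      subst u0
      have hUe : img f n = U := eq_of_subset_of_card_le hs (by omega)
      rw [hUe] at hb
      have k5 := hb.2 (by simp only [Nat.add_zero] at k1; have := hb.1; omega)
      have k6 : 0 < (s + 1) * s := Nat.mul_pos (by omega) (by omega)
      omega

end Pool.Agent.Lib.MP_1ed8ce_co.SS
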