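import Pool.Agent.Lib.MP_1ed8ce_co.SS.CoreB

namespace Pool.Agent.Lib.MP_1ed8ce_co.SS

open Finset
open scoped Classical

variable {V : Type} [Fintype V] [DecidableEq V] {G : SimpleGraph V}

/-! Shortest wrong path: the four ways to build a shorter wrong path or a forbidden cycle. -/

variable {k p : ℕ} {H : Finset V} {col : V → Bool} {f : ℕ → V}

theorem SW.pc_end (h : SW G k H col f p) : col (f p) = !pc col f p := by
  have hp := h.par
  rw [Nat.odd_iff] at hp
  unfold pc
  by_cases ho : p % 2 = 1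
  · rw [← hp.mpr ho]; simp [ho]
  · have hne : col (f 0) ≠ col (f p) := fun he => ho (hp.mp he)
    revert hne
    cases col (f 0) <;> cases col (f p) <;> simp [ho]

theorem SW.wra_inj (h : SW G k H col f p) {a b : ℕ} (ha : a ≤ p) (hb : b ≤ p) (he : f a = f b) :
    a = b := h.pth.2.1 a b (by omega) (by omega) he

theorem SW.wra_ends (h : SW G k H col f p) {a : ℕ} (ha : a ≤ p) (hm : f a ∈ H) : a = 0 ∨ a = p := by
  by_contra hc
  exact h.hi a (by omega) (by omega) hm

theorem wra_path_mem {a : ℕ} (ha : a ≤ p) : f a ∈ Bs H f p :=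
  mem_union_right _ (mem_img.mpr ⟨a, by omega, rfl⟩)

theorem wra_core_mem {x : V} (hx : x ∈ H) : x ∈ Bs H f p := mem_union_left _ hx

theorem wra_seg {i j : ℕ} {x : V} (hx : x ∈ (Icc i j).image f) : ∃ a, i ≤ a ∧ a ≤ j ∧ f a = x := by
  obtain ⟨a, ha, rfl⟩ := mem_image.mp hx
  exact ⟨a, (mem_Icc.mp ha).1, (mem_Icc.mp ha).2, rfl⟩

theorem wra_ext {w w' a b : V} {s : ℕ} (hl : Link G (Zs H f p) w w' s) (hw : G.Adj w a)
    (hw' : G.Adj w' b) (ha : a ∈ Bs H f p) (hb : b ∈ Bs H f p) (hab : a ≠ b) :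
    ∃ S, Link G S a b (s + 2) ∧ ∀ y ∈ S, y ∈ Bs H f p → y = a ∨ y = b := by
  have hz : ∀ y ∈ Bs H f p, y ∉ Zs H f p := fun y hy hz => (mem_sdiff.mp hz).2 hy
  have h1 := (hl.symm.snoc (hz a ha) hw).symm
  have h2 := h1.snoc (w := b) (by
    rw [mem_insert, not_or]; exact ⟨hab.symm, hz b hb⟩) hw'
  refine ⟨_, h2, fun y hy hy' => ?_⟩
  rcases mem_insert.mp hy with h | hy
  · exact Or.inr h
  · rcases mem_insert.mp hy with h | hy
    · exact Or.inl h
    · exact absurd hy (hz y hy')

theorem wra_pc_two (i : ℕ) : pc col f (i + 2) = pc col f i := by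
  simp [pc]

/-- A path from `f i` to `f j` whose other vertices avoid `Bs`: cycle of length `j - i + s`, and
replacing the segment gives a wrong path if `j - i + s` is even. -/
theorem SW.detour0 (h : SW G k H col f p) (hk : 1 ≤ k) {i j s : ℕ} {S : Finset V} (hij : i < j)
    (hj : j ≤ p) (hl : Link G S (f i) (f j) s)
    (hS : ∀ x ∈ S, x ∈ Bs H f p → x = f i ∨ x = f j) :
    j - i + s ≠ 2 * k + 1 ∧ (Even (j - i + s) → j - i ≤ s) := by
  refine ⟨fun he => h.free ?_, fun he => ?_⟩
  · have h1 := h.pth.link hij.le (show j < p + 1 by omega)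
    have h2 := h1.cyc hl.symm (fun e => by have := h.wra_inj (by omega) hj e; omega)
      (fun x hx hx' => by
        obtain ⟨a, _, ha, rfl⟩ := wra_seg hx
        exact hS _ hx' (wra_path_mem (by omega))) (by omega)
    rw [he] at h2
    exact h2.mono (subset_univ _)
  · have h1 := h.pth.link (Nat.zero_le i) (show i < p + 1 by omega)
    have h3 := h.pth.link hj (show p < p + 1 by omega)
    have h2 := h1.trans hl (fun x hx hx' => by
      obtain ⟨a, _, ha, rfl⟩ := wra_seg hx
      rcases hS _ hx' (wra_path_mem (by omega)) with e | e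
      · exact e
      · have := h.wra_inj (by omega) hj e; omega)
    have h4 := h2.trans h3 (fun x hx hx' => by
      obtain ⟨b, hb, hb', rfl⟩ := wra_seg hx'
      rcases mem_union.mp hx with hx | hx
      · obtain ⟨a, _, ha, e⟩ := wra_seg hx
        have := h.wra_inj (by omega) hb' e; omega
      · rcases hS _ hx (wra_path_mem hb') with e | e
        · have := h.wra_inj hb' (by omega) e; omega
        · exact e)
    have key : ∀ a, a ≤ p → f a ∈ H → f a = f 0 ∨ f a = f p := fun a ha hm =>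
      (h.wra_ends ha hm).imp (fun e => by rw [e]) fun e => by rw [e]
    have h5 := h.min _ ⟨_, _, _, h.h0, h.hp, fun e => by
      have := h.wra_inj (Nat.zero_le p) le_rfl e; omega, h4, fun x hx hm => by
        rcases mem_union.mp hx with hx | hx
        · rcases mem_union.mp hx with hx | hx
          · obtain ⟨a, _, ha, rfl⟩ := wra_seg hx
            exact key a (by omega) hm
          · rcases hS _ hx (wra_core_mem hm) with e | e
            · subst e; exact key i (by omega) hm
            · subst e; exact key j hj hm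
        · obtain ⟨a, _, ha, rfl⟩ := wra_seg hx
          exact key a ha hm, by
        rw [h.par, Nat.odd_iff, Nat.odd_iff]
        rw [Nat.even_iff] at he
        omega⟩
    omega

theorem SW.reachL0 (h : SW G k H col f p) {i s : ℕ} {S : Finset V} {x : V} (hi : i < p)
    (hx : x ∈ H) (h0 : x ≠ f 0) (hl : Link G S (f i) x s)
    (hS : ∀ y ∈ S, y ∈ Bs H f p → y = f i ∨ y = x) : col x = pc col f (i + s) ∨ p ≤ i + s := by
  refine or_iff_not_imp_left.mpr fun hc => ?_
  have key : ∀ a, a ≤ i → f a ∈ H → f a = f 0 := fun a ha hm => by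
    have := h.wra_ends (by omega) hm
    rw [show a = 0 by omega]
  have h1 := h.pth.link (Nat.zero_le i) (show i < p + 1 by omega)
  have h2 := h1.trans hl (fun y hy hy' => by
    obtain ⟨a, _, ha, rfl⟩ := wra_seg hy
    rcases hS _ hy' (wra_path_mem (by omega)) with e | e
    · exact e
    · exact absurd (e ▸ key a ha (e ▸ hx)) h0)
  have h5 := h.min _ ⟨_, _, _, h.h0, hx, h0.symm, h2, fun y hy hm => by
    rcases mem_union.mp hy with hy | hy
    · obtain ⟨a, _, ha, rfl⟩ := wra_seg hy
      exact Or.inl (key a ha hm)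
    · rcases hS _ hy (wra_core_mem hm) with e | e
      · subst e; exact Or.inl (key i le_rfl hm)
      · exact Or.inr e, by
    rw [Nat.odd_iff, Nat.sub_zero]
    unfold pc at hc
    revert hc
    by_cases ho : (i + s) % 2 = 1 <;> cases col (f 0) <;> cases col x <;> simp [ho]⟩
  omega

theorem SW.reachR0 (h : SW G k H col f p) {i s : ℕ} {S : Finset V} {x : V} (hi : 0 < i)
    (hip : i ≤ p) (hx : x ∈ H) (h0 : x ≠ f p) (hl : Link G S (f i) x s)
    (hS : ∀ y ∈ S, y ∈ Bs H f p → y = f i ∨ y = x) :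
    col x = !pc col f (i + s) ∨ i ≤ s := by
  refine or_iff_not_imp_left.mpr fun hc => ?_
  have key : ∀ a, i ≤ a → a ≤ p → f a ∈ H → f a = f p := fun a ha ha' hm => by
    have := h.wra_ends ha' hm
    rw [show a = p by omega]
  have h1 := (h.pth.link hip (show p < p + 1 by omega)).symm
  have h2 := h1.trans hl (fun y hy hy' => by
    obtain ⟨a, ha, ha', rfl⟩ := wra_seg hy
    rcases hS _ hy' (wra_path_mem ha') with e | e
    · exact e
    · exact absurd (e ▸ key a ha ha' (e ▸ hx)) h0)
  have h5 := h.min _ ⟨_, _, _, h.hp, hx, h0.symm, h2, fun y hy hm => by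
    rcases mem_union.mp hy with hy | hy
    · obtain ⟨a, ha, ha', rfl⟩ := wra_seg hy
      exact Or.inl (key a ha ha' hm)
    · rcases hS _ hy (wra_core_mem hm) with e | e
      · subst e; exact Or.inl (key i le_rfl hip hm)
      · exact Or.inr e, by
    rw [Nat.odd_iff, h.pc_end]
    unfold pc at hc ⊢
    revert hc
    have hq : (p - i + s) % 2 = 1 ↔ ¬ (p % 2 = 1 ↔ (i + s) % 2 = 1) := by omega
    rw [hq]
    by_cases ho : (i + s) % 2 = 1 <;> by_cases ho' : p % 2 = 1 <;> cases col (f 0) <;>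
      cases col x <;> simp [ho, ho']⟩
  omega

theorem SW.detour (h : SW G k H col f p) (hk : 1 ≤ k) {w w' : V} {s i j : ℕ}
    (hl : Link G (Zs H f p) w w' s) (hw : G.Adj w (f i)) (hw' : G.Adj w' (f j)) (hij : i < j)
    (hj : j ≤ p) : j - i + s + 2 ≠ 2 * k + 1 ∧ (Even (j - i + s) → j - i ≤ s + 2) := by
  obtain ⟨S, h1, h2⟩ := wra_ext hl hw hw' (wra_path_mem (by omega)) (wra_path_mem hj)
    (fun e => by have := h.wra_inj (by omega) hj e; omega)
  have h3 := h.detour0 hk hij hj h1 h2
  refine ⟨h3.1, fun he => h3.2 ?_⟩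
  rw [Nat.even_iff] at he ⊢
  omega

theorem SW.reachL (h : SW G k H col f p) {w w' x : V} {s i : ℕ}
    (hl : Link G (Zs H f p) w w' s) (hw : G.Adj w (f i)) (hw' : G.Adj w' x) (hx : x ∈ H)
    (h0 : x ≠ f 0) (hi : i < p) : col x = pc col f (i + s) ∨ p ≤ i + s + 2 := by
  obtain ⟨S, h1, h2⟩ := wra_ext hl hw hw' (wra_path_mem hi.le) (wra_core_mem hx)
    (fun e => by
      have := h.wra_ends hi.le (e ▸ hx)
      exact h0 (by rw [← e, show i = 0 by omega]))
  have h3 := h.reachL0 hi hx h0 h1 h2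
  rwa [← add_assoc, wra_pc_two] at h3

theorem SW.reachR (h : SW G k H col f p) {w w' x : V} {s i : ℕ}
    (hl : Link G (Zs H f p) w w' s) (hw : G.Adj w (f i)) (hw' : G.Adj w' x) (hx : x ∈ H)
    (h0 : x ≠ f p) (hi : 0 < i) (hip : i ≤ p) :
    col x = !pc col f (i + s) ∨ i ≤ s + 2 := by
  obtain ⟨S, h1, h2⟩ := wra_ext hl hw hw' (wra_path_mem hip) (wra_core_mem hx)
    (fun e => by
      have := h.wra_ends hip (e ▸ hx)
      exact h0 (by rw [← e, show i = p by omega]))
  have h3 := h.reachR0 hi hip hx h0 h1 h2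
  rwa [← add_assoc, wra_pc_two] at h3

theorem SW.across (h : SW G k H col f p) {w w' x x' : V} {s : ℕ}
    (hl : Link G (Zs H f p) w w' s) (hw : G.Adj w x) (hw' : G.Adj w' x') (hx : x ∈ H)
    (hx' : x' ∈ H) (hne : x ≠ x') : (col x = col x' ↔ Even s) ∨ p ≤ s + 2 := by
  obtain ⟨S, h1, h2⟩ := wra_ext hl hw hw' (wra_core_mem hx) (wra_core_mem hx') hne
  refine or_iff_not_imp_left.mpr fun hc => h.min _
    ⟨S, x, x', hx, hx', hne, h1, fun y hy hm => h2 y hy (wra_core_mem hm), ?_⟩
  rw [Nat.even_iff] at hc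
  rw [Nat.odd_iff]
  by_cases he : col x = col x'
  · simp only [he, true_iff] at hc ⊢; omega
  · simp only [he, false_iff] at hc ⊢; omega

end Pool.Agent.Lib.MP_1ed8ce_co.SS
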