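import Pool.Agent.Lib.MP_1ed8ce_co.SS.WrA

namespace Pool.Agent.Lib.MP_1ed8ce_co.SS

open Finset
open scoped Classical

variable {V : Type} [Fintype V] [DecidableEq V] {G : SimpleGraph V}

variable {k p : ℕ} {H : Finset V} {col : V → Bool} {f : ℕ → V}

theorem SW.wb_sub_len (h : SW G k H col f p) (hk : 3 ≤ k) (φ : ℕ → ℕ) (q : ℕ)
    (hm : ∀ t, t < q → φ t < φ (t + 1)) (h0 : φ 0 = 0) (hq : φ q = p)
    (ha : ∀ t, t < q → G.Adj (f (φ t)) (f (φ (t + 1)))) (hpar : q % 2 = p % 2) : p ≤ q := by
  have hbig := h.big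
  have hlt : ∀ b a, a < b → b ≤ q → φ a < φ b := by
    intro b
    induction b with
    | zero => intro a ha; omega
    | succ b ih =>
      intro a hab hb
      have h1 := hm b (by omega)
      rcases Nat.lt_succ_iff_lt_or_eq.1 hab with h2 | h2
      · exact (ih a h2 (by omega)).trans h1
      · rw [h2]; exact h1
  have hle : ∀ a, a < q + 1 → φ a < p + 1 := by
    intro a ha
    rcases Nat.lt_succ_iff_lt_or_eq.1 ha with h2 | h2
    · have := hlt q a h2 le_rfl
      omega
    · rw [h2]; omega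
  refine h.min q ⟨img f (p + 1), f 0, f p, h.h0, h.hp, ?_, ⟨fun t => f (φ t), ⟨?_, ?_, ?_⟩, ?_, ?_⟩,
    ?_, ?_⟩
  · intro e
    have := h.pth.2.1 0 p (by omega) (by omega) e
    omega
  · intro t ht
    exact mem_img.2 ⟨φ t, hle t ht, rfl⟩
  · intro a b ha hb e
    have e' := h.pth.2.1 _ _ (hle a ha) (hle b hb) e
    rcases lt_trichotomy a b with h1 | h1 | h1
    · have := hlt b a h1 (by omega)
      omega
    · exact h1
    · have := hlt a b h1 (by omega)
      omega
  · intro t ht
    exact ha t (by omega)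
  · simp only [h0]
  · simp only [hq]
  · intro x hx hxH
    obtain ⟨i, hi, rfl⟩ := mem_img.1 hx
    by_cases hi0 : i = 0
    · left; rw [hi0]
    by_cases hip : i = p
    · right; rw [hip]
    exact absurd hxH (h.hi i (by omega) (by omega))
  · rw [h.par, Nat.odd_iff, Nat.odd_iff, hpar]

theorem SW.wb_chord_even (h : SW G k H col f p) (hk : 3 ≤ k) {i j : ℕ} (hij : i + 2 ≤ j)
    (hj : j ≤ p) (ha : G.Adj (f i) (f j)) : Even (j - i) := by
  have := (h.detour0 (by omega) (by omega) hj (Link.edge ha) (by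
    intro x hx _
    simpa using hx)).2
  rw [Nat.even_iff] at this ⊢
  omega

theorem SW.wb_two_chords (h : SW G k H col f p) (hk : 3 ≤ k) {i j i' j' : ℕ} (hij : i + 2 ≤ j)
    (hj : j ≤ p) (ha : G.Adj (f i) (f j)) (hij' : i' + 2 ≤ j') (hj' : j' ≤ p)
    (ha' : G.Adj (f i') (f j')) : i' < j := by
  by_contra hc
  have e1 := Nat.even_iff.1 (h.wb_chord_even hk hij hj ha)
  have e2 := Nat.even_iff.1 (h.wb_chord_even hk hij' hj' ha')
  obtain ⟨a, rfl⟩ : ∃ a, j = i + 1 + a := ⟨j - i - 1, by omega⟩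
  obtain ⟨m, rfl⟩ : ∃ m, i' = i + 1 + m + a := ⟨i' - (i + 1 + a), by omega⟩
  obtain ⟨b, rfl⟩ : ∃ b, j' = i + 1 + m + 1 + a + b := ⟨j' - (i + 1 + m + 1 + a), by omega⟩
  have := h.wb_sub_len hk
    (fun t => if t ≤ i then t else if t ≤ i + 1 + m then t + a else t + a + b) (p - a - b)
    (by intro t _; split_ifs <;> omega) (by simp) (by split_ifs <;> omega) (by
      intro t ht
      by_cases h1 : t + 1 ≤ i
      · rw [if_pos h1, if_pos (by omega)]
        exact h.pth.2.2 t (by omega)
      by_cases h2 : t = i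
      · rw [if_pos (by omega), if_neg h1, if_pos (by omega), h2]
        exact ha
      by_cases h3 : t + 1 ≤ i + 1 + m
      · rw [if_neg (by omega), if_pos (by omega), if_neg h1, if_pos h3,
          show t + 1 + a = t + a + 1 by omega]
        exact h.pth.2.2 _ (by omega)
      by_cases h4 : t = i + 1 + m
      · rw [if_neg (by omega), if_pos (by omega), if_neg h1, if_neg h3, h4]
        exact ha'
      · rw [if_neg (by omega), if_neg (by omega), if_neg h1, if_neg h3,
          show t + 1 + a + b = t + a + b + 1 by omega]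
        exact h.pth.2.2 _ (by omega)) (by omega)
  omega

/-- Chords are even (`detour0` with s = 1). Two chords `i < j ≤ i' < j'` give a shorter wrong
path, so every left end is below every right end; take c = the largest left end, at least 1. -/
theorem SW.brk (h : SW G k H col f p) (hk : 3 ≤ k) :
    ∃ c, 1 ≤ c ∧ c + 2 ≤ p ∧ ∀ i j, i + 2 ≤ j → j ≤ p → G.Adj (f i) (f j) →
      Even (j - i) ∧ i ≤ c ∧ c < j := by
  have hbig := h.big
  let P : ℕ → Prop := fun c => c = 1 ∨ ∃ j, c + 2 ≤ j ∧ j ≤ p ∧ G.Adj (f c) (f j)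
  have hP : P (Nat.findGreatest P p) := Nat.findGreatest_spec (m := 1) (by omega) (Or.inl rfl)
  have h1 : 1 ≤ Nat.findGreatest P p := Nat.le_findGreatest (by omega) (Or.inl rfl)
  refine ⟨Nat.findGreatest P p, h1, ?_, fun i j hij hj ha => ⟨h.wb_chord_even hk hij hj ha,
    Nat.le_findGreatest (by omega) (Or.inr ⟨j, hij, hj, ha⟩), ?_⟩⟩
  · rcases hP with e | ⟨j, h2, h3, -⟩ <;> omega
  · rcases hP with e | ⟨j', h2, h3, h4⟩
    · omega
    · exact h.wb_two_chords hk hij hj ha h2 h3 h4

omit [Fintype V] [DecidableEq V] in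
theorem wb_pc_succ (col : V → Bool) (f : ℕ → V) (i : ℕ) : pc col f (i + 1) = !pc col f i := by
  unfold pc
  rcases Nat.mod_two_eq_zero_or_one i with e | e
  · have e' : (i + 1) % 2 = 1 := by omega
    simp [e, e']
  · have e' : (i + 1) % 2 = 0 := by omega
    simp [e, e']

omit [Fintype V] [DecidableEq V] in
theorem wb_pc_even (col : V → Bool) (f : ℕ → V) {i j : ℕ} (hij : i ≤ j) (he : Even (j - i)) :
    pc col f i = pc col f j := by
  unfold pc
  have : i % 2 = j % 2 := by
    rw [Nat.even_iff] at he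
    omega
  rw [this]

theorem wb_mem_Zs {w : V} : w ∈ Zs H f p ↔ w ∉ H ∧ ∀ i, i ≤ p → f i ≠ w := by
  simp only [Zs, Bs, mem_sdiff, mem_univ, true_and, mem_union, mem_img, not_or, not_exists,
    not_and, Nat.lt_succ_iff]

theorem SW.wb_nb_col (h : SW G k H col f p) (hk : 3 ≤ k) {w x x' : V} (hw : w ∈ Zs H f p)
    (hx : x ∈ H) (hx' : x' ∈ H) (ha : G.Adj w x) (ha' : G.Adj w x') : col x = col x' := by
  have hbig := h.big
  by_cases e : x = x'
  · rw [e]
  rcases h.across (Link.refl hw) ha ha' hx hx' e with h1 | h1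
  · exact h1.2 (by decide)
  · omega

theorem wb_Z1_other {w : V} (hw : w ∈ Z1 G H f p) (y : V) : ∃ x ∈ H, G.Adj w x ∧ x ≠ y := by
  have h2 : 1 < (nb G H w).card := (mem_filter.1 hw).2
  obtain ⟨a, ha, b, hb, hab⟩ := one_lt_card.1 h2
  by_cases e : a = y
  · exact ⟨b, (mem_nb.1 hb).1, (mem_nb.1 hb).2, fun e' => hab (e.trans e'.symm)⟩
  · exact ⟨a, (mem_nb.1 ha).1, (mem_nb.1 ha).2, e⟩

theorem SW.wb_exists_col (h : SW G k H col f p) (hk : 3 ≤ k) {c : ℕ} (hc : c < p) :
    ∃ C : V → Bool, (∀ v ∈ H, C v = col v) ∧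
      (∀ i, i ≤ p → C (f i) = if i ≤ c then pc col f i else !pc col f i) ∧
      ∀ w ∈ Zs H f p, ∀ x ∈ H, G.Adj w x → C w = !col x := by
  refine ⟨fun v => if v ∈ H then col v else if v ∈ Zs H f p then
      !decide (∃ x ∈ H, G.Adj v x ∧ col x = true) else
      decide (∃ i, i ≤ p ∧ f i = v ∧ (if i ≤ c then pc col f i else !pc col f i) = true),
    fun v hv => if_pos hv, ?_, ?_⟩
  · intro i hi
    by_cases h0 : i = 0
    · subst h0
      simp only [if_pos h.h0, Nat.zero_le, if_true, pc]
      simp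
    by_cases hp : i = p
    · subst hp
      simp only [if_pos h.hp, if_neg (Nat.not_le.2 hc)]
      exact h.pc_end
    have h1 : f i ∉ H := h.hi i (by omega) (by omega)
    have h2 : f i ∉ Zs H f p := fun hz => (wb_mem_Zs.1 hz).2 i hi rfl
    simp only [if_neg h1, if_neg h2]
    rw [Bool.eq_iff_iff, decide_eq_true_iff]
    constructor
    · rintro ⟨j, hj, e, h3⟩
      have := h.pth.2.1 j i (by omega) (by omega) e
      rwa [this] at h3
    · exact fun h3 => ⟨i, hi, rfl, h3⟩
  · intro w hw x hx ha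
    simp only [if_neg (wb_mem_Zs.1 hw).1, if_pos hw]
    congr 1
    rw [Bool.eq_iff_iff, decide_eq_true_iff]
    constructor
    · rintro ⟨y, hy, ha', h3⟩
      rw [h.wb_nb_col hk hw hx hy ha ha', h3]
    · exact fun h3 => ⟨x, hx, ha, h3⟩

theorem wb_mem_Bs_cases {x : V} (hx : x ∈ Bs H f p) :
    (∃ i, i ≤ p ∧ f i = x) ∨ (x ∈ H ∧ x ≠ f 0 ∧ x ≠ f p) := by
  by_cases h0 : x = f 0
  · exact Or.inl ⟨0, Nat.zero_le _, h0.symm⟩
  by_cases hp : x = f p
  · exact Or.inl ⟨p, le_rfl, hp.symm⟩
  rcases mem_union.1 hx with h1 | h1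
  · exact Or.inr ⟨h1, h0, hp⟩
  · obtain ⟨i, hi, e⟩ := mem_img.1 h1
    exact Or.inl ⟨i, by omega, e⟩

/-- Colour `f i` by `pc i` for `i ≤ c` and by the opposite for `c < i`, H by col, a vertex of Z1
against its core neighbours (they have one colour, `across` with s = 0). Monochromatic edges:
`f c, f (c+1)`; none in H (`wrL_edge`, `min`, `big`); none from an inner `f i` to H (`reachL0`,
`reachR0` with s = 1); none inside Z1 (`across` with s = 1, choose different core neighbours);
for w in Z1 of type τ an inner neighbour `f i` has `pc i = !τ → p - 2 ≤ i` and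
`pc i = τ → i ≤ 2`, so at most one (`i = c = p - 2` or `i = 2, c = 1`). -/
theorem SW.forced (h : SW G k H col f p) (hk : 3 ≤ k) :
    gm G (Bs H f p ∪ Z1 G H f p) ≤ 2 + 2 * (Z1 G H f p).card := by
  have hbig := h.big
  obtain ⟨c, hc1, hc2, hch⟩ := h.brk hk
  obtain ⟨C, hH, hP, hZ⟩ := h.wb_exists_col hk (c := c) (by omega)
  have hZ1 : ∀ w ∈ Z1 G H f p, w ∈ Zs H f p := fun w hw => (mem_filter.1 hw).1
  have hHH : ∀ x ∈ H, ∀ y ∈ H, G.Adj x y → C x ≠ C y := by
    intro x hx y hy ha e
    rw [hH x hx, hH y hy] at e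
    have := h.min 1 (wrL_edge hx hy ha e)
    omega
  have hPH : ∀ i, i ≤ p → ∀ y ∈ H, y ≠ f 0 → y ≠ f p → G.Adj (f i) y → C (f i) ≠ C y := by
    intro i hi y hy h0 hp ha
    by_cases hi0 : i = 0
    · subst hi0
      exact hHH _ h.h0 _ hy ha
    by_cases hip : i = p
    · subst hip
      exact hHH _ h.hp _ hy ha
    have hS : ∀ z ∈ ({f i, y} : Finset V), z ∈ Bs H f p → z = f i ∨ z = y := by
      intro z hz _
      simpa using hz
    rw [hP i hi, hH y hy]
    by_cases hic : i ≤ c
    · rcases h.reachL0 (by omega) hy h0 (Link.edge ha) hS with h1 | h1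
      · rw [if_pos hic, h1, wb_pc_succ]
        cases pc col f i <;> decide
      · omega
    · rcases h.reachR0 (by omega) hi hy hp (Link.edge ha) hS with h1 | h1
      · rw [if_neg hic, h1, wb_pc_succ]
        cases pc col f i <;> decide
      · omega
  have hPP : ∀ i j, i < j → j ≤ p → G.Adj (f i) (f j) → C (f i) = C (f j) → i = c := by
    intro i j hij hj ha e
    rw [hP i (by omega), hP j hj] at e
    by_cases h1 : j = i + 1
    · subst h1
      by_contra hne
      rw [wb_pc_succ] at e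
      by_cases hic : i ≤ c
      · rw [if_pos hic, if_pos (by omega)] at e
        revert e
        cases pc col f i <;> decide
      · rw [if_neg hic, if_neg (by omega)] at e
        revert e
        cases pc col f i <;> decide
    · obtain ⟨he, h2, h3⟩ := hch i j (by omega) hj ha
      rw [if_pos h2, if_neg (by omega), wb_pc_even col f hij.le he] at e
      revert e
      cases pc col f j <;> simp
  have hPP' : ∀ i j, i < j → j ≤ p → G.Adj (f i) (f j) → C (f i) = C (f j) → j = c + 1 := by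
    intro i j hij hj ha e
    have h0 := hPP i j hij hj ha e
    by_contra h1
    obtain ⟨he, h2, h3⟩ := hch i j (by omega) hj ha
    rw [hP i (by omega), hP j hj, if_pos h2, if_neg (by omega), wb_pc_even col f hij.le he] at e
    revert e
    cases pc col f j <;> simp
  have hBB : ∀ x ∈ Bs H f p, ∀ y ∈ Bs H f p, (mono G C).Adj x y →
      (x = f c ∧ y = f (c + 1)) ∨ (y = f c ∧ x = f (c + 1)) := by
    intro x hx y hy ⟨ha, e⟩
    rcases wb_mem_Bs_cases hx with ⟨i, hi, rfl⟩ | ⟨hx1, hx2, hx3⟩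
    · rcases wb_mem_Bs_cases hy with ⟨j, hj, rfl⟩ | ⟨hy1, hy2, hy3⟩
      · rcases lt_trichotomy i j with h1 | h1 | h1
        · left
          rw [hPP i j h1 hj ha e, hPP' i j h1 hj ha e]
          exact ⟨rfl, rfl⟩
        · rw [h1] at ha
          exact absurd rfl ha.ne
        · right
          rw [hPP j i h1 hi ha.symm e.symm, hPP' j i h1 hi ha.symm e.symm]
          exact ⟨rfl, rfl⟩
      · exact absurd e (hPH i hi y hy1 hy2 hy3 ha)
    · rcases wb_mem_Bs_cases hy with ⟨j, hj, rfl⟩ | ⟨hy1, hy2, hy3⟩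
      · exact absurd e.symm (hPH j hj x hx1 hx2 hx3 ha.symm)
      · exact absurd e (hHH x hx1 y hy1 ha)
  have hcB : f c ∈ Bs H f p := mem_union_right _ (mem_img.2 ⟨c, by omega, rfl⟩)
  have e1 : E2 (mono G C) (Bs H f p) ≤ 2 := by
    rw [E2_erase hcB, E2_eq_zero (by
      intro x hx y hy ha
      rcases hBB x (mem_of_mem_erase hx) y (mem_of_mem_erase hy) ha with h1 | h1
      · exact ne_of_mem_erase hx h1.1
      · exact ne_of_mem_erase hy h1.1)]
    have : deg (mono G C) (Bs H f p) (f c) ≤ 1 := by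
      refine (card_le_card (t := {f (c + 1)}) ?_).trans (card_singleton _).le
      intro y hy
      obtain ⟨hy1, hy2⟩ := mem_nb.1 hy
      rcases hBB _ hcB y hy1 hy2 with h1 | h1
      · exact mem_singleton.2 h1.2
      · exact absurd h1.1.symm hy2.ne
    omega
  have e2 : E2 (mono G C) (Z1 G H f p) = 0 := by
    refine E2_eq_zero ?_
    intro w hw w' hw' ⟨ha, e⟩
    obtain ⟨x, hx, hwx, -⟩ := wb_Z1_other hw w
    obtain ⟨x', hx', hwx', hne⟩ := wb_Z1_other hw' x
    have hl : Link G (Zs H f p) w w' 1 := (Link.edge ha).mono (by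
      intro z hz
      rcases mem_insert.1 hz with rfl | hz
      · exact hZ1 _ hw
      · rw [mem_singleton.1 hz]; exact hZ1 _ hw')
    rw [hZ w (hZ1 w hw) x hx hwx, hZ w' (hZ1 w' hw') x' hx' hwx'] at e
    rcases h.across hl hwx hwx' hx hx' hne.symm with h1 | h1
    · exact absurd (h1.1 (Bool.not_inj e)) (by decide)
    · omega
  have e3 : ∀ w ∈ Z1 G H f p, deg (mono G C) (Bs H f p) w ≤ 1 := by
    intro w hw
    have hwZ := hZ1 w hw
    refine (card_le_card (t := {f (if c = 1 then 2 else c)}) ?_).trans (card_singleton _).le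
    intro y hy
    obtain ⟨hy1, ha, e⟩ := mem_nb.1 hy
    have hyH : y ∉ H := by
      intro hyH
      rw [hZ w hwZ y hyH ha, hH y hyH] at e
      revert e
      cases col y <;> decide
    rcases wb_mem_Bs_cases hy1 with ⟨i, hi, rfl⟩ | ⟨hy2, -, -⟩
    · have hi0 : 0 < i := by
        by_contra h1
        rw [show i = 0 by omega] at hyH
        exact hyH h.h0
      have hip : i < p := by
        by_contra h1
        rw [show i = p by omega] at hyH
        exact hyH h.hp
      rw [hP i hi] at e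
      rw [mem_singleton]
      congr 1
      by_cases hic : i ≤ c
      · obtain ⟨x, hx, hwx, hne⟩ := wb_Z1_other hw (f 0)
        rw [if_pos hic, hZ w hwZ x hx hwx] at e
        rcases h.reachL (Link.refl hwZ) ha hwx hx hne hip with h1 | h1
        · rw [h1, Nat.add_zero] at e
          exfalso
          revert e
          cases pc col f i <;> decide
        · split_ifs <;> omega
      · obtain ⟨x, hx, hwx, hne⟩ := wb_Z1_other hw (f p)
        rw [if_neg hic, hZ w hwZ x hx hwx] at e
        rcases h.reachR (Link.refl hwZ) ha hwx hx hne hi0 hi with h1 | h1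
        · rw [h1, Nat.add_zero] at e
          exfalso
          revert e
          cases pc col f i <;> decide
        · split_ifs <;> omega
    · exact absurd hy2 hyH
  have hd : Disjoint (Bs H f p) (Z1 G H f p) := by
    rw [disjoint_left]
    intro x hx hx'
    exact (mem_sdiff.1 (hZ1 x hx')).2 hx
  refine (gm_le _ C).trans ?_
  have e4 : ∑ w ∈ Z1 G H f p, deg (mono G C) (Bs H f p) w ≤ (Z1 G H f p).card := by
    have := sum_le_card_nsmul _ _ 1 e3
    simpa using this
  rw [M2, E2_union hd, cross_symm, e2]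
  omega

end Pool.Agent.Lib.MP_1ed8ce_co.SS
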