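import Pool.Agent.Lib.MP_1ed8ce_co.SS.WrA

namespace Pool.Agent.Lib.MP_1ed8ce_co.SS

open Finset
open scoped Classical

variable {V : Type} [Fintype V] [DecidableEq V] {G : SimpleGraph V}

variable {k p : ℕ} {H : Finset V} {col : V → Bool} {f : ℕ → V}

theorem wc_pc_eq {i j : ℕ} : pc col f i = pc col f j ↔ i % 2 = j % 2 := by
  unfold pc
  rcases Nat.mod_two_eq_zero_or_one i with h | h <;>
    rcases Nat.mod_two_eq_zero_or_one j with h' | h' <;> simp [h, h']

theorem wc_pc_succ (i : ℕ) : pc col f (i + 1) = !pc col f i := by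
  unfold pc
  rcases Nat.mod_two_eq_zero_or_one i with h | h
  · have : (i + 1) % 2 = 1 := by omega
    simp [h, this]
  · have : (i + 1) % 2 = 0 := by omega
    simp [h, this]

theorem wc_mem_an {w : V} {i : ℕ} : i ∈ an G f p w ↔ i ≤ p ∧ G.Adj w (f i) := by
  simp [an]

theorem wc_Z0 {w : V} (hw : w ∈ Z0 G H f p) : w ∈ Zs H f p ∧ deg G H w ≤ 1 := by
  simpa [Z0] using hw

theorem wc_Z1 {w : V} (hw : w ∈ Z1 G H f p) : w ∈ Zs H f p ∧ 2 ≤ deg G H w := by
  simpa [Z1] using hw

theorem SW.wc_deg_img (h : SW G k H col f p) (w : V) :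
    deg G (img f (p + 1)) w = (an G f p w).card := by
  have e : nb G (img f (p + 1)) w = (an G f p w).image f := by
    ext y
    simp only [mem_nb, mem_img, mem_image, wc_mem_an]
    constructor
    · rintro ⟨⟨i, hi, rfl⟩, ha⟩
      exact ⟨i, ⟨by omega, ha⟩, rfl⟩
    · rintro ⟨i, ⟨hi, ha⟩, rfl⟩
      exact ⟨⟨i, by omega, rfl⟩, ha⟩
  rw [deg, e, card_image_of_injOn]
  intro i hi j hj hij
  have h1 := (wc_mem_an.1 (mem_coe.1 hi)).1
  have h2 := (wc_mem_an.1 (mem_coe.1 hj)).1
  exact h.pth.2.1 i j (by omega) (by omega) hij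

theorem SW.wc_det (h : SW G k H col f p) (hk : 1 ≤ k) {w w' : V} {s i j : ℕ}
    (hl : Link G (Zs H f p) w w' s) (hi : i ∈ an G f p w) (hj : j ∈ an G f p w') (hij : i < j) :
    j ≤ p ∧ j - i + s + 2 ≠ 2 * k + 1 ∧ ((j - i + s) % 2 = 0 → j - i ≤ s + 2) := by
  obtain ⟨h1, h2⟩ := wc_mem_an.1 hj
  obtain ⟨h3, h4⟩ := h.detour hk hl (wc_mem_an.1 hi).2 h2 hij h1
  exact ⟨h1, h3, fun e => h4 (Nat.even_iff.2 e)⟩

theorem wc_par2 (A : Finset ℕ) (h1 : ∀ i ∈ A, ∀ j ∈ A, i % 2 = j % 2)
    (h2 : ∀ i ∈ A, ∀ j ∈ A, i < j → j ≤ i + 2) : A.card ≤ 2 := by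
  rcases A.eq_empty_or_nonempty with rfl | hA
  · simp
  have hm := A.min'_mem hA
  have : A ⊆ {A.min' hA, A.min' hA + 2} := by
    intro j hj
    have a := A.min'_le j hj
    have b := h1 _ hm j hj
    have c := h2 _ hm j hj
    simp only [mem_insert, mem_singleton]
    omega
  exact (card_le_card this).trans card_le_two

/-- Either all neighbours of w in `Bs` are on the path, or there is one more, in H off the path;
then an anchor i is inner and has `pc i = col x, i ≤ 2` or `pc i ≠ col x, p - 2 ≤ i`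
(`reachL`, `reachR` with s = 0). -/
theorem SW.alpha (h : SW G k H col f p) (hk : 3 ≤ k) {w : V} (hw : w ∈ Z0 G H f p) :
    deg G (Bs H f p) w = (an G f p w).card ∨
      ∃ x ∈ H, x ≠ f 0 ∧ x ≠ f p ∧ G.Adj w x ∧ deg G (Bs H f p) w = (an G f p w).card + 1 ∧
        ∀ i ∈ an G f p w, 0 < i ∧ i < p ∧
          ((pc col f i = col x ∧ i ≤ 2) ∨ (pc col f i ≠ col x ∧ p ≤ i + 2)) := by
  obtain ⟨hz, hd⟩ := wc_Z0 hw
  have e : Bs H f p = img f (p + 1) ∪ (H \ img f (p + 1)) := by
    rw [Bs, union_sdiff_self_eq_union, union_comm]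
  have e2 : deg G (Bs H f p) w = (an G f p w).card + deg G (H \ img f (p + 1)) w := by
    rw [e, deg_union disjoint_sdiff, h.wc_deg_img]
  have hle : deg G (H \ img f (p + 1)) w ≤ deg G H w := deg_mono sdiff_subset w
  by_cases h0 : deg G (H \ img f (p + 1)) w = 0
  · left; omega
  right
  obtain ⟨x, hx⟩ : (nb G (H \ img f (p + 1)) w).Nonempty := card_pos.1 (Nat.pos_of_ne_zero h0)
  obtain ⟨hx1, hxa⟩ := mem_nb.1 hx
  obtain ⟨hxH, hxi⟩ := mem_sdiff.1 hx1
  have hne : ∀ i, i ≤ p → x ≠ f i := fun i hi e => hxi (mem_img.2 ⟨i, by omega, e.symm⟩)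
  have hout : ∀ i, i ≤ p → G.Adj w (f i) → f i ∉ H := fun i hi ha hH =>
    hne i hi (card_le_one.1 hd x (mem_nb.2 ⟨hxH, hxa⟩) (f i) (mem_nb.2 ⟨hH, ha⟩))
  refine ⟨x, hxH, hne 0 (by omega), hne p le_rfl, hxa, by omega, fun i hi => ?_⟩
  obtain ⟨hip, ha⟩ := wc_mem_an.1 hi
  have hi0 : 0 < i := by
    rcases Nat.eq_zero_or_pos i with rfl | h1
    · exact absurd h.h0 (hout 0 hip ha)
    · exact h1
  have hi1 : i < p := by
    rcases Nat.lt_or_ge i p with h1 | h1
    · exact h1
    · obtain rfl : i = p := by omega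
      exact absurd h.hp (hout i hip ha)
  refine ⟨hi0, hi1, ?_⟩
  have hL := h.reachL (Link.refl hz) ha hxa hxH (hne 0 (by omega)) hi1
  have hR := h.reachR (Link.refl hz) ha hxa hxH (hne p le_rfl) hi0 hip
  simp only [Nat.add_zero, Nat.zero_add] at hL hR
  by_cases hc : pc col f i = col x
  · left
    refine ⟨hc, hR.resolve_left ?_⟩
    rw [hc]; simp
  · right
    exact ⟨hc, hL.resolve_left fun e => hc e.symm⟩

/-- Anchors of equal parity are within distance 2 (`detour`, s = 0): at most 4 anchors; in the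
second case of `alpha` at most 2. -/
theorem SW.alpha_le (h : SW G k H col f p) (hk : 3 ≤ k) {w : V} (hw : w ∈ Z0 G H f p) :
    deg G (Bs H f p) w ≤ 4 ∧ (deg G (Bs H f p) w = 4 → (an G f p w).card = 4) := by
  obtain ⟨hz, -⟩ := wc_Z0 hw
  rcases h.alpha hk hw with e | ⟨x, -, -, -, -, e, hx⟩
  · have key : ∀ r, ((an G f p w).filter fun i => i % 2 = r).card ≤ 2 := fun r =>
      wc_par2 _ (fun i hi j hj => by rw [(mem_filter.1 hi).2, (mem_filter.1 hj).2])
        (fun i hi j hj hij => by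
          have a := (h.wc_det (by omega) (Link.refl hz) (mem_filter.1 hi).1 (mem_filter.1 hj).1
            hij).2.2
          have b := (mem_filter.1 hi).2
          have c := (mem_filter.1 hj).2
          omega)
    have hs : an G f p w ⊆ ((an G f p w).filter fun i => i % 2 = 0) ∪
        ((an G f p w).filter fun i => i % 2 = 1) := by
      intro i hi
      simp only [mem_union, mem_filter]
      rcases Nat.mod_two_eq_zero_or_one i with a | a
      · exact Or.inl ⟨hi, a⟩
      · exact Or.inr ⟨hi, a⟩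
    have a := (card_le_card hs).trans (card_union_le _ _)
    have b := key 0
    have c := key 1
    omega
  · have : (an G f p w).card ≤ (univ : Finset Bool).card := by
      refine card_le_card_of_injOn (pc col f) (fun _ _ => mem_coe.2 (mem_univ _)) ?_
      intro i hi j hj hij
      have a := hx i (mem_coe.1 hi)
      have b := hx j (mem_coe.1 hj)
      have c := wc_pc_eq.1 hij
      rw [hij] at a
      rcases a with ⟨a0, a1, ⟨a2, a3⟩ | ⟨a2, a3⟩⟩ <;> rcases b with ⟨b0, b1, ⟨b2, b3⟩ | ⟨b2, b3⟩⟩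
      · omega
      · exact absurd a2 b2
      · exact absurd b2 a2
      · omega
    have c : (univ : Finset Bool).card = 2 := by simp
    omega

/-- k = 3, p = 6: anchors of one vertex differ by 1, 2 or 3. Heavy vertex (3 neighbours in Bs):
three anchors, or the anchors are 1, 4 or 2, 5. -/
theorem SW.heavy (h : SW G 3 H col f 6) {w : V} (hw : w ∈ Z0 G H f 6)
    (h3 : 3 ≤ deg G (Bs H f 6) w) :
    (∀ i ∈ an G f 6 w, ∀ j ∈ an G f 6 w, j ≤ i + 3) ∧
      (3 ≤ (an G f 6 w).card ∨ an G f 6 w = {1, 4} ∨ an G f 6 w = {2, 5}) := by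
  obtain ⟨hz, -⟩ := wc_Z0 hw
  refine ⟨fun i hi j hj => ?_, ?_⟩
  · by_contra hc
    have := h.wc_det (by omega) (Link.refl hz) hi hj (by omega)
    omega
  rcases h.alpha le_rfl hw with e | ⟨x, -, -, -, -, e, hx⟩
  · left; omega
  right
  by_cases hc : pc col f 1 = col x
  · left
    refine eq_of_subset_of_card_le (fun i hi => ?_) (card_le_two.trans (by omega))
    obtain ⟨a0, a1, ⟨a2, a3⟩ | ⟨a2, a3⟩⟩ := hx i hi
    · have := wc_pc_eq.1 (a2.trans hc.symm)
      simp only [mem_insert, mem_singleton]; omega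
    · have : ¬ i % 2 = 1 % 2 := fun e => a2 ((wc_pc_eq.2 e).trans hc)
      simp only [mem_insert, mem_singleton]; omega
  · right
    have hc2 : pc col f 2 = col x := by
      have := wc_pc_succ (col := col) (f := f) 1
      rw [this]
      revert hc
      cases pc col f 1 <;> cases col x <;> simp
    refine eq_of_subset_of_card_le (fun i hi => ?_) (card_le_two.trans (by omega))
    obtain ⟨a0, a1, ⟨a2, a3⟩ | ⟨a2, a3⟩⟩ := hx i hi
    · have := wc_pc_eq.1 (a2.trans hc2.symm)
      simp only [mem_insert, mem_singleton]; omega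
    · have : ¬ i % 2 = 2 % 2 := fun e => a2 ((wc_pc_eq.2 e).trans hc2)
      simp only [mem_insert, mem_singleton]; omega

/-- k = 3, p = 6, w adjacent to u in Z1 of type τ: an anchor with `pc i = τ` has `3 ≤ i`, one with
`pc i ≠ τ` has `i ≤ 3` (`reachL`, `reachR` with s = 1); four consecutive anchors are impossible. -/
theorem SW.q6 (h : SW G 3 H col f 6) {w u : V} (hw : w ∈ Z0 G H f 6) (hu : u ∈ Z1 G H f 6)
    (ha : G.Adj w u) : deg G (Bs H f 6) w ≤ 3 := by
  obtain ⟨hz, -⟩ := wc_Z0 hw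
  obtain ⟨huz, hu2⟩ := wc_Z1 hu
  obtain ⟨h4, h4'⟩ := h.alpha_le le_rfl hw
  by_contra hc
  have hcard := h4' (by omega)
  have hd := (h.heavy hw (by omega)).1
  obtain ⟨x1, hx1, x2, hx2, hne⟩ := one_lt_card.1 (show 1 < (nb G H u).card from hu2)
  obtain ⟨hx1H, hx1a⟩ := mem_nb.1 hx1
  obtain ⟨hx2H, hx2a⟩ := mem_nb.1 hx2
  have hcol : col x1 = col x2 := by
    rcases h.across (Link.refl huz) hx1a hx2a hx1H hx2H hne with e | e
    · exact e.2 (by simp)
    · omega
  have hl : Link G (Zs H f 6) w u 1 := (Link.edge ha).mono (by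
    intro y hy
    rcases mem_insert.1 hy with rfl | hy
    · exact hz
    · rw [mem_singleton.1 hy]; exact huz)
  have pick : ∀ y : V, ∃ x ∈ H, G.Adj u x ∧ x ≠ y ∧ col x = col x1 := fun y => by
    by_cases e : x1 = y
    · exact ⟨x2, hx2H, hx2a, fun e' => hne (e.trans e'.symm), hcol.symm⟩
    · exact ⟨x1, hx1H, hx1a, e, rfl⟩
  have hA : ∀ i ∈ an G f 6 w, pc col f i = col x1 → 3 ≤ i := fun i hi e => by
    by_contra hlt
    obtain ⟨x, hxH, hxa, hx0, hxc⟩ := pick (f 0)
    rcases h.reachL hl (wc_mem_an.1 hi).2 hxa hxH hx0 (by omega) with e' | e'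
    · rw [wc_pc_succ, e, hxc] at e'
      simp at e'
    · omega
  have hB : ∀ i ∈ an G f 6 w, pc col f i ≠ col x1 → i ≤ 3 := fun i hi e => by
    by_contra hlt
    obtain ⟨x, hxH, hxa, hx0, hxc⟩ := pick (f 6)
    rcases h.reachR hl (wc_mem_an.1 hi).2 hxa hxH hx0 (by omega) (wc_mem_an.1 hi).1 with e' | e'
    · rw [wc_pc_succ, hxc, Bool.not_not] at e'
      exact e e'.symm
    · omega
  have hne' : (an G f 6 w).Nonempty := card_pos.1 (by omega)
  obtain ⟨m, hm, hmin⟩ : ∃ m ∈ an G f 6 w, ∀ j ∈ an G f 6 w, m ≤ j :=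
    ⟨_, (an G f 6 w).min'_mem hne', fun j hj => (an G f 6 w).min'_le j hj⟩
  have hI : an G f 6 w = Icc m (m + 3) :=
    eq_of_subset_of_card_le (fun j hj => mem_Icc.2 ⟨hmin j hj, hd m hm j hj⟩)
      (by rw [Nat.card_Icc]; omega)
  have hmem : ∀ t, t ≤ 3 → m + t ∈ an G f 6 w := fun t ht => by
    rw [hI]; exact mem_Icc.2 ⟨by omega, by omega⟩
  have s1 := wc_pc_succ (col := col) (f := f) m
  have s3 := wc_pc_succ (col := col) (f := f) (m + 2)
  have a : 2 ≤ m := by
    by_cases e : pc col f m = col x1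
    · have := hA m hm e; omega
    · have := hA (m + 1) (hmem 1 (by omega)) (by
        rw [s1]; revert e; cases pc col f m <;> cases col x1 <;> simp)
      omega
  have b : m ≤ 1 := by
    by_cases e : pc col f (m + 2) = col x1
    · have := hB (m + 2 + 1) (hmem 3 le_rfl) (by rw [s3, e]; simp)
      omega
    · have := hB (m + 2) (hmem 2 (by omega)) e; omega
  omega

/-- k = 4, p = 8: if all 7 vertices had degree 10, `Zs` is a clique, every vertex has 4 anchors,
`clique_link` gives s = 1, ..., 6 and `detour` forbids every distance between anchors of two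
vertices. -/
theorem SW.small4 (h : SW G 4 H col f 8) (h1 : Z1 G H f 8 = ∅) (h7 : (Zs H f 8).card = 7) :
    ∃ w ∈ Zs H f 8, deg G univ w ≤ 9 := by
  by_contra hc
  push Not at hc
  have hZ : ∀ w ∈ Zs H f 8, w ∈ Z0 G H f 8 := fun w hw => by
    refine mem_filter.2 ⟨hw, ?_⟩
    by_contra h2
    have : w ∈ Z1 G H f 8 := mem_filter.2 ⟨hw, by omega⟩
    rw [h1] at this
    exact notMem_empty _ this
  have hsplit : ∀ w, deg G univ w = deg G (Bs H f 8) w + deg G (Zs H f 8) w := fun w => by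
    rw [← deg_union (show Disjoint (Bs H f 8) (Zs H f 8) from disjoint_sdiff), Zs,
      union_sdiff_of_subset (subset_univ _)]
  have hall : ∀ w ∈ Zs H f 8, (an G f 8 w).card = 4 ∧ 6 ≤ deg G (Zs H f 8) w := fun w hw => by
    obtain ⟨a, b⟩ := h.alpha_le (by omega) (hZ w hw)
    have c := hc w hw
    have d := hsplit w
    have e := deg_lt_card (G := G) hw
    exact ⟨b (by omega), by omega⟩
  have hcl : G.IsClique ((Zs H f 8 : Finset V) : Set V) := by
    apply clique_of_E2
    have := E2_ge (G := G) fun w hw => (hall w hw).2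
    rw [h7] at this ⊢
    exact this
  obtain ⟨w, hw, w', hw', hne⟩ := one_lt_card.1 (show 1 < (Zs H f 8).card by omega)
  have key : ∀ a ∈ Zs H f 8, ∀ b ∈ Zs H f 8, a ≠ b → ∀ i ∈ an G f 8 a, ∀ j ∈ an G f 8 b,
      ¬ i < j := fun a ha b hb hab i hi j hj hij => by
    have D : ∀ s, 1 ≤ s → s ≤ 6 → _ := fun s s1 s6 =>
      h.wc_det (by omega) (clique_link hcl ha hb hab s1 (by omega)) hi hj hij
    have d1 := D 1 (by omega) (by omega)
    have d2 := D 2 (by omega) (by omega)
    have d3 := D 3 (by omega) (by omega)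
    have d4 := D 4 (by omega) (by omega)
    have d5 := D 5 (by omega) (by omega)
    have d6 := D 6 (by omega) (by omega)
    omega
  obtain ⟨j, hj⟩ : (an G f 8 w').Nonempty := card_pos.1 (by rw [(hall w' hw').1]; omega)
  obtain ⟨i, hi, i', hi', hii⟩ :=
    one_lt_card.1 (show 1 < (an G f 8 w).card by rw [(hall w hw).1]; omega)
  have a := key w hw w' hw' hne i hi j hj
  have b := key w' hw' w hw hne.symm j hj i hi
  have c := key w hw w' hw' hne i' hi' j hj
  have d := key w' hw' w hw hne.symm j hj i' hi'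
  omega

end Pool.Agent.Lib.MP_1ed8ce_co.SS
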